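import Pool.Agent.MP_ca0a54_nt.H13.Spec
import Pool.Agent.MP_ca0a54_nt.H88.AR1

/-!
Row ARITH: the resonator built from prime sums over boxes.
-/

open Complex MeasureTheory Filter Topology

namespace Pool.Agent.MP_ca0a54_nt.H13

open Pool.Agent.MP_ca0a54_nt.L0 Pool.Agent.MP_ca0a54_nt.H24

namespace Arith

lemma mem_pr {T u v : ℝ} {p : ℕ} (hT : 0 ≤ T) (h : p ∈ pr T u v) :
    p.Prime ∧ T ^ u < p ∧ (p : ℝ) ≤ T ^ v := by
  simp only [pr, Finset.mem_filter, Finset.mem_Icc] at h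
  exact ⟨h.2.1, h.2.2, (Nat.le_floor_iff (Real.rpow_nonneg hT v)).1 h.1.2⟩

lemma v_mem {T u v : ℝ} {p : ℕ} (hT : 1 < T) (h : p ∈ pr T u v) :
    0 ≤ Real.log p / Real.log T ∧ Real.log p / Real.log T ≤ v := by
  obtain ⟨h1, -, h3⟩ := mem_pr (by linarith) h
  have hL := Real.log_pos hT
  refine ⟨div_nonneg (Real.log_natCast_nonneg p) hL.le, ?_⟩
  rw [div_le_iff₀ hL, ← Real.log_rpow (by linarith)]
  exact Real.log_le_log (by exact_mod_cast h1.pos) h3

lemma w_mem {T : ℝ} (hT : 1 < T) (p : ℕ) :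
    0 ≤ Real.log p / p / Real.log T ∧ Real.log p / p / Real.log T ≤ 1 / Real.log T := by
  have hL := Real.log_pos hT
  have h0 := Real.log_natCast_nonneg p
  refine ⟨by positivity, div_le_div_of_nonneg_right ?_ hL.le⟩
  exact div_le_one_of_le₀ (Real.log_le_self (Nat.cast_nonneg p)) (Nat.cast_nonneg p)

lemma small {α β : ℝ} {φ : ℝ → ℝ} (hφ : Continuous φ) {δ : ℝ} (hδ : 0 < δ) :
    ∀ᶠ T : ℝ in atTop, ∀ p ∈ pr T α β,
      |Real.log p / p / Real.log T * φ (Real.log p / Real.log T)| ≤ δ := by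
  obtain ⟨K, hK⟩ := (isCompact_Icc (a := (0 : ℝ)) (b := β)).exists_bound_of_continuousOn
    hφ.continuousOn
  filter_upwards [eventually_gt_atTop 1, Real.tendsto_log_atTop.eventually_ge_atTop (K / δ)]
    with T hT hL p hp
  have h1 := hK _ (v_mem hT hp)
  obtain ⟨w0, w1⟩ := w_mem hT p
  have hL0 := Real.log_pos hT
  rw [Real.norm_eq_abs] at h1
  rw [abs_mul, abs_of_nonneg w0]
  refine (mul_le_mul w1 h1 (abs_nonneg _) (by positivity)).trans ?_
  rw [div_le_iff₀ hδ] at hL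
  rw [one_div, inv_mul_le_iff₀ hL0]
  exact hL

lemma box (hE : EsStmt) (hP : PrimeStmt) {α β : ℝ} (h0 : 0 ≤ α) (h1 : α ≤ β) {φ ψ : ℝ → ℝ}
    (hφ : Continuous φ) (hψ : Continuous ψ) (g h : ℝ → ℕ → ℂ)
    (hg : ∀ T, ∀ p ∈ pr T α β,
      g T p = (Real.log p / p / Real.log T * φ (Real.log p / Real.log T) : ℝ))
    (hh : ∀ T, ∀ p ∈ pr T α β,
      h T p = (Real.log p / p / Real.log T * ψ (Real.log p / Real.log T) : ℝ)) (l m : ℕ) :
    Tendsto (fun T => s2 l m (pr T α β) (g T) (h T)) atTop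
      (𝓝 (wk (∫ v in α..β, φ v : ℝ) (∫ v in α..β, ψ v : ℝ) l m)) := by
  have key : ∀ (φ : ℝ → ℝ) (g : ℝ → ℕ → ℂ), Continuous φ → (∀ T, ∀ p ∈ pr T α β,
      g T p = (Real.log p / p / Real.log T * φ (Real.log p / Real.log T) : ℝ)) →
      Tendsto (fun T => ∑ p ∈ pr T α β, g T p) atTop (𝓝 (∫ v in α..β, φ v : ℝ)) := by
    intro φ g hφ hg
    refine ((continuous_ofReal.tendsto _).comp (hP α β φ h0 h1 hφ)).congr fun T => ?_
    rw [Function.comp_apply, ofReal_sum]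
    exact Finset.sum_congr rfl fun p hp => (hg T p hp).symm
  refine hE.2 l m (fun T => pr T α β) g h _ _ ((∫ v in α..β, (|φ v| + |ψ v|)) + 1)
    (key φ g hφ hg) (key ψ h hψ hh) ?_ fun δ hδ => ?_
  · filter_upwards [eventually_gt_atTop 1, (hP α β (fun v => |φ v| + |ψ v|) h0 h1
      (by fun_prop)).eventually_le_const (lt_add_one _)] with T hT H
    refine le_trans (le_of_eq (Finset.sum_congr rfl fun p hp => ?_)) H
    rw [hg T p hp, hh T p hp, norm_real, norm_real, Real.norm_eq_abs, Real.norm_eq_abs, abs_mul,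
      abs_mul, abs_of_nonneg (w_mem hT p).1, mul_add]
  · filter_upwards [small (α := α) (β := β) hφ hδ, small (α := α) (β := β) hψ hδ] with T a b p hp
    rw [hg T p hp, hh T p hp, norm_real, norm_real]
    exact ⟨a p hp, b p hp⟩

/-- The normalising constant of a box. -/
noncomputable def kap (α β : ℝ) : ℝ := 1 / √((β ^ 2 - α ^ 2) / 2)

/-- The coefficient of a prime. -/
noncomputable def cf (ab κ T : ℝ) (p : ℕ) : ℂ :=
  I * (κ * (Real.log p / Real.log T) : ℝ) * exp (I * (-(ab * (Real.log p / Real.log T) / 2) : ℝ))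

lemma kap_nonneg (α β : ℝ) : 0 ≤ kap α β := by unfold kap; positivity

lemma norm_cf (ab κ T : ℝ) (p : ℕ) : ‖cf ab κ T p‖ = |κ * (Real.log p / Real.log T)| := by
  rw [cf, norm_mul, norm_mul, norm_I, one_mul, norm_real, norm_exp_I_mul_ofReal, mul_one,
    Real.norm_eq_abs]

lemma sq_cf (ab κ T : ℝ) (p : ℕ) : ‖cf ab κ T p‖ ^ 2 / p =
    Real.log p / p / Real.log T * (κ ^ 2 * (Real.log p / Real.log T)) := by
  rw [norm_cf, sq_abs]
  ring

lemma h_eq (ab κ T : ℝ) (p : ℕ) : cf ab κ T p * (starRingEnd ℂ) (cf ab κ T p) / p =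
    (Real.log p / p / Real.log T * (κ ^ 2 * (Real.log p / Real.log T)) : ℝ) := by
  rw [← sq_cf, mul_conj, normSq_eq_norm_sq]
  push_cast
  rfl

lemma g_eq (ab κ T : ℝ) {p : ℕ} (hp : p.Prime) :
    rc 0 (I * (ab / Real.log T : ℝ)) p * (starRingEnd ℂ) (cf ab κ T p) / p =
    (Real.log p / p / Real.log T * (2 * κ * Real.sin (ab * (Real.log p / Real.log T) / 2)) : ℝ) := by
  have e := H88.rc_pp 0 (I * (ab / Real.log T : ℝ)) 0 hp
  rw [zero_add, pow_one, pow_zero, one_mul, H88.np_zero] at e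
  set t : ℝ := ab * (Real.log p / Real.log T) / 2 with ht
  have e1 : np (I * (ab / Real.log T : ℝ)) p = exp (-t * I) * exp (-t * I) := by
    rw [np, ← exp_add, ht]
    congr 1
    push_cast
    ring
  have e2 : (starRingEnd ℂ) (cf ab κ T p) =
      -I * (κ * (Real.log p / Real.log T) : ℝ) * exp (t * I) := by
    rw [cf, map_mul, map_mul, conj_I, conj_ofReal, ← exp_conj, map_mul, conj_I, conj_ofReal, ← ht]
    congr 2
    push_cast
    ring
  have e3 : exp (-t * I) * exp (t * I) = 1 := by rw [← exp_add]; simp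
  have e4 : (2 * Real.sin t : ℂ) = (exp (-t * I) - exp (t * I)) * I := by
    rw [ofReal_sin, two_sin]
  rw [e, e1, e2]
  have e5 : ((Real.log p / p / Real.log T * (2 * κ * Real.sin t) : ℝ) : ℂ) =
      (κ * (Real.log p / Real.log T) : ℝ) * (2 * Real.sin t : ℂ) / p := by
    simp only [ofReal_mul, ofReal_div, ofReal_ofNat, ofReal_natCast]
    ring
  rw [e5, e4]
  congr 1
  linear_combination (I * (κ * (Real.log p / Real.log T) : ℝ) * exp (-t * I)) * e3

lemma int_g {ab : ℝ} (h : 0 < ab) (α β : ℝ) :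
    ∫ v in α..β, 2 * kap α β * Real.sin (ab * v / 2) = bet ab α β := by
  have e : ∀ v, ab * v / 2 = ab / 2 * v := fun v => by ring
  simp only [e]
  rw [intervalIntegral.integral_const_mul,
    intervalIntegral.integral_comp_mul_left (fun v => Real.sin v) (by positivity : ab / 2 ≠ 0),
    integral_sin, bet, kap, smul_eq_mul, e, e]
  field_simp
  ring

lemma int_h {α β : ℝ} (h0 : 0 ≤ α) (h : α < β) : ∫ v in α..β, kap α β ^ 2 * v = 1 := by
  have h1 : 0 < (β ^ 2 - α ^ 2) / 2 := by nlinarith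
  rw [intervalIntegral.integral_const_mul, integral_id, kap, div_pow, Real.sq_sqrt h1.le, one_pow,
    one_div, inv_mul_cancel₀ h1.ne']

lemma ui_pow {M W lam : ℝ} {q : ℕ} (h : M ^ (q + 1) ≤ W ^ q) (hW : 0 ≤ W) (hl : 0 < lam) :
    M ≤ lam ^ q + W / lam := by
  by_contra hn
  rw [not_le] at hn
  have a1 : 0 ≤ W / lam := by positivity
  have a2 : 0 < lam ^ q := by positivity
  have a3 : W ≤ M * lam := by
    rw [← div_le_iff₀ hl]; linarith
  have a4 := pow_le_pow_left₀ hW a3 q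
  have a5 : 0 < M ^ q := pow_pos (by linarith) q
  rw [mul_pow] at a4
  rw [pow_succ] at h
  nlinarith

lemma ui {J q : ℕ} (X : Fin J → ℂ) (ν : Fin J → ℕ) (i : Fin q → Fin J → ℕ)
    (h : ∀ j, (q + 1) * ν j ≤ ∑ s, i s j) {W lam : ℝ} (hW0 : 0 ≤ W) (hl : 0 < lam)
    (hW : ∀ s (A : Finset (Fin J)), ‖∏ j, X j ^ if j ∈ A then i s j else 0‖ ^ 2 ≤ W) :
    (∏ j, max 1 ‖X j‖ ^ ν j) ^ 2 ≤ lam ^ q + W / lam := by
  refine ui_pow ?_ hW0 hl
  have h1 : ∀ s, (∏ j, max 1 ‖X j‖ ^ i s j) ^ 2 ≤ W := fun s => by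
    refine le_trans (le_of_eq ?_) (hW s (Finset.univ.filter fun j => 1 ≤ ‖X j‖))
    rw [norm_prod]
    congr 1
    refine Finset.prod_congr rfl fun j _ => ?_
    by_cases a : 1 ≤ ‖X j‖
    · simp [a]
    · simp [a, max_eq_left (not_le.1 a).le]
  calc _ = (∏ j, max 1 ‖X j‖ ^ ((q + 1) * ν j)) ^ 2 := by
        rw [← pow_mul, mul_comm 2, pow_mul, ← Finset.prod_pow]
        simp only [← pow_mul, mul_comm]
    _ ≤ (∏ j, max 1 ‖X j‖ ^ ∑ s, i s j) ^ 2 := by
        refine pow_le_pow_left₀ (by positivity) (Finset.prod_le_prod (fun _ _ => by positivity)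
          fun j _ => pow_le_pow_right₀ (le_max_left _ _) (h j)) 2
    _ = ∏ s, (∏ j, max 1 ‖X j‖ ^ i s j) ^ 2 := by
        rw [Finset.prod_pow, Finset.prod_comm]
        simp only [Finset.prod_pow_eq_pow_sum]
    _ ≤ ∏ _s : Fin q, W := Finset.prod_le_prod (fun _ _ => by positivity) fun s _ => h1 s
    _ = W ^ q := by simp

lemma al_mono {J : ℕ} {α : ℕ → ℝ} (h : ∀ j, j < J → α j < α (j + 1)) {i j : ℕ} (hi : i ≤ j)
    (hj : j ≤ J) : α i ≤ α j := by
  induction j, hi using Nat.le_induction with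
  | base => exact le_rfl
  | succ k _ ih => exact (ih (by omega)).trans (h k (by omega)).le

lemma prod_rpow {J : ℕ} {T ε : ℝ} (hT : 1 ≤ T) (i : Fin J → ℕ) (β : Fin J → ℝ)
    (h : ∑ j, i j * β j ≤ 1 - ε) : ∏ j, (T ^ β j) ^ i j ≤ T ^ (1 - ε) := by
  refine le_trans (le_of_eq ?_) (Real.rpow_le_rpow_of_exponent_le hT h)
  rw [Real.rpow_sum_of_pos (by linarith)]
  refine Finset.prod_congr rfl fun j _ => ?_
  rw [mul_comm, Real.rpow_mul (by linarith), Real.rpow_natCast]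

lemma cv_delta (r : ℕ → ℂ) {N n : ℕ} (hn : n ∈ Finset.Icc 1 N) :
    cv LSeries.delta (cut r N) n = r n := by
  obtain ⟨h1, h2⟩ := Finset.mem_Icc.1 hn
  simp only [cv, LSeries.convolution_def]
  rw [Finset.sum_eq_single (1, n)]
  · simp [LSeries.delta, cut, h2]
  · rintro ⟨a, b⟩ hb hne
    have := (Nat.mem_divisorsAntidiagonal.1 hb).1
    have ha : a ≠ 1 := fun e => hne (by subst e; simpa using this)
    simp [LSeries.delta, ha]
  · intro h
    exact absurd (Nat.mem_divisorsAntidiagonal.2 ⟨one_mul n, by omega⟩) h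

lemma norm_np (x : ℝ) {p : ℕ} (hp : 0 < p) : ‖np (1 / 2 + I * x) p‖ ^ 2 = 1 / p := by
  have h0 : (0 : ℝ) < p := by exact_mod_cast hp
  rw [np, norm_exp, ← Real.exp_nat_mul, one_div (p : ℝ), ← Real.exp_log (inv_pos.2 h0),
    Real.log_inv]
  congr 1
  simp only [mul_re, neg_re, neg_im, add_re, add_im, ofReal_re, ofReal_im, I_re, I_im, div_ofNat_re,
    one_re]
  push_cast
  ring

lemma lim (hE : EsStmt) (hP : PrimeStmt) {J m : ℕ} (ab : ℝ) (α β : Fin J → ℝ)
    (h0 : ∀ j, 0 ≤ α j) (h1 : ∀ j, α j < β j) (ν : Fin m → Fin J → ℕ) (ρ : Fin m → ℂ)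
    (b : ℝ → ℕ → ℂ) (φ : Fin J → ℝ → ℝ) (hφ : ∀ j, Continuous (φ j))
    (hb : ∀ j T (p : ℕ), p.Prime → b T p * (starRingEnd ℂ) (cf ab (kap (α j) (β j)) T p) / p =
      (Real.log p / p / Real.log T * φ j (Real.log p / Real.log T) : ℝ)) :
    Tendsto (fun T => ∑ k, ∑ k', ρ k * (starRingEnd ℂ) (ρ k') *
      ∏ j, s2 (ν k j) (ν k' j) (pr T (α j) (β j))
        (fun p => b T p * (starRingEnd ℂ) (cf ab (kap (α j) (β j)) T p) / p)
        fun p => cf ab (kap (α j) (β j)) T p * (starRingEnd ℂ) (cf ab (kap (α j) (β j)) T p) / p)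
      atTop (𝓝 (∑ k, ∑ k', ρ k * (starRingEnd ℂ) (ρ k') *
        ∏ j, wk (∫ v in α j..β j, φ j v : ℝ) 1 (ν k j) (ν k' j))) := by
  refine tendsto_finsetSum _ fun k _ => tendsto_finsetSum _ fun k' _ => Tendsto.const_mul _
    (tendsto_finsetProd _ fun j _ => ?_)
  have := box hE hP (h0 j) (h1 j).le (hφ j) (ψ := fun v => kap (α j) (β j) ^ 2 * v) (by fun_prop)
    (fun T p => b T p * (starRingEnd ℂ) (cf ab (kap (α j) (β j)) T p) / p)
    (fun T p => cf ab (kap (α j) (β j)) T p * (starRingEnd ℂ) (cf ab (kap (α j) (β j)) T p) / p)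
    (fun T p hp => hb j T p (Finset.mem_filter.1 hp).2.1) (fun T p _ => h_eq _ _ _ _) (ν k j)
    (ν k' j)
  rwa [int_h (h0 j) (h1 j), ofReal_one] at this

/-- The pointwise bound for the resonator. -/
lemma point {J m : ℕ} (X : Fin J → ℂ) (ν : Fin m → Fin J → ℕ) (q : Fin m → ℕ)
    (i : ∀ k, Fin (q k) → Fin J → ℕ) (h : ∀ k j, (q k + 1) * ν k j ≤ ∑ s, i k s j)
    (D : Fin m → ℝ) (R : ℂ) (hR : ‖R‖ ≤ ∑ k, D k * ∏ j, max 1 ‖X j‖ ^ ν k j) {W η : ℝ}
    (hW0 : 0 ≤ W) (hη : 0 < η)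
    (hW : ∀ k s (A : Finset (Fin J)), ‖∏ j, X j ^ if j ∈ A then i k s j else 0‖ ^ 2 ≤ W) :
    ‖R‖ ^ 2 ≤ (∑ k, D k ^ 2) * (∑ k, (1 + (∑ k, D k ^ 2) * m / η) ^ q k) + η * W := by
  set E := ∑ k, D k ^ 2
  have hE : 0 ≤ E := Finset.sum_nonneg fun _ _ => sq_nonneg _
  set lam := 1 + E * m / η with hlam
  have hl : 0 < lam := by positivity
  have h1 := (pow_le_pow_left₀ (norm_nonneg _) hR 2).trans (Finset.sum_mul_sq_le_sq_mul_sq _ _ _)
  have h2 : ∑ k, (∏ j, max 1 ‖X j‖ ^ ν k j) ^ 2 ≤ ∑ k, (lam ^ q k + W / lam) :=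
    Finset.sum_le_sum fun k _ => ui X (ν k) (i k) (h k) hW0 hl (hW k)
  rw [Finset.sum_add_distrib, Finset.sum_const, Finset.card_univ, Fintype.card_fin,
    nsmul_eq_mul] at h2
  have h3 : E * (m * (W / lam)) ≤ η * W := by
    rw [← mul_assoc, ← mul_div_assoc, div_le_iff₀ hl, hlam]
    have : η * W * (1 + E * m / η) = η * W + E * m * W := by field_simp
    rw [this]
    have := mul_nonneg hη.le hW0
    linarith
  have h4 := mul_le_mul_of_nonneg_left h2 hE
  rw [mul_add] at h4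
  linarith

end Arith

open Arith in
theorem arith (ab : ℝ) (h1 : 1 ≤ ab) (_h4 : ab ≤ 4) :
    EsStmt → RepStmt → MomStmt → PrimeStmt → CertStmt ab → ArithStmt ab := by
  intro hE hR hM hP ⟨J, m, α, ε, ν, ρ, e0, e1, a0, a1, a2, hν, hq, hpos⟩
  choose q i hi hqi using hq
  have al0 : ∀ j : Fin J, 0 ≤ α j := fun j => a0 ▸ al_mono a1 (Nat.zero_le _) j.2.le
  have al1 : ∀ j : Fin J, α j < α (j + 1) := fun j => a1 j j.2
  have al2 : ∀ j : Fin J, α (j + 1) ≤ 1 := fun j => (al_mono a1 j.2 le_rfl).trans a2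
  obtain ⟨M, M2, Mk⟩ : ∃ M : ℝ, 2 ≤ M ∧ ∀ j : Fin J, kap (α j) (α (j + 1)) ≤ M := by
    have := Finset.sum_nonneg (s := Finset.univ) fun (j : Fin J) _ => kap_nonneg (α j) (α (j + 1))
    refine ⟨2 + ∑ j : Fin J, kap (α j) (α (j + 1)), by linarith, fun j => ?_⟩
    have := Finset.single_le_sum (f := fun j : Fin J => kap (α j) (α (j + 1)))
      (fun j _ => kap_nonneg _ _) (Finset.mem_univ j)
    linarith
  obtain ⟨B, B0, B1⟩ : ∃ B : ℝ, 0 < B ∧ ∑ k, ‖ρ k / B‖ * M ^ ∑ j, ν k j ≤ 1 := by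
    have a : 0 ≤ ∑ k, ‖ρ k‖ * M ^ ∑ j, ν k j := Finset.sum_nonneg fun _ _ => by positivity
    refine ⟨1 + ∑ k, ‖ρ k‖ * M ^ ∑ j, ν k j, by positivity, ?_⟩
    simp only [norm_div, norm_real, div_mul_eq_mul_div, ← Finset.sum_div]
    rw [Real.norm_of_nonneg (by positivity), div_le_one (by positivity)]
    linarith
  let ι := Σ k : Fin m, Fin (q k) × Finset (Fin J)
  let ex : ι → Fin J → ℕ := fun t j => if j ∈ t.2.2 then i t.1 t.2.1 j else 0
  choose Cm Cm1 hCm using fun t : ι => hM J (ex t) M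
  choose Ce Ce0 hCe using fun k => hE.1 k M
  have L1 := lim hE hP ab (fun j : Fin J => α j) (fun j => α (j + 1)) al0 al1 ν (fun k => ρ k / B)
    (fun T => rc 0 (I * (ab / Real.log T : ℝ)))
    (fun j v => 2 * kap (α j) (α (j + 1)) * Real.sin (ab * v / 2)) (fun j => by fun_prop)
    fun j T p hp => g_eq _ _ _ hp
  have L2 := lim hE hP ab (fun j : Fin J => α j) (fun j => α (j + 1)) al0 al1 ν (fun k => ρ k / B)
    (fun _ => LSeries.delta) (fun _ _ => 0) (fun j => continuous_const)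
    fun j T p hp => by simp [LSeries.delta, hp.ne_one]
  simp only [int_g (by linarith : 0 < ab)] at L1
  have L3 := (continuous_im.tendsto _).comp (L1.const_mul (exp (-I * (ab / 2 : ℝ))))
  have L4 := L2.norm
  set w := ‖∑ k, ∑ k', ρ k / B * (starRingEnd ℂ) (ρ k' / B) * ∏ j : Fin J,
    wk (∫ _ in α j..α (j + 1), (0 : ℝ) : ℝ) 1 (ν k j) (ν k' j)‖
  have w0 : 0 ≤ w := norm_nonneg _
  set c₁ := (exp (-I * (ab / 2 : ℝ)) * ∑ k, ∑ k', ρ k / B * (starRingEnd ℂ) (ρ k' / B) *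
    ∏ j : Fin J, wk (bet ab (α j) (α (j + 1))) 1 (ν k j) (ν k' j)).im with hc₁
  have c0 : 0 < c₁ := by
    have e : ∑ k, ∑ k', ρ k / B * (starRingEnd ℂ) (ρ k' / B) *
        ∏ j : Fin J, wk (bet ab (α j) (α (j + 1))) 1 (ν k j) (ν k' j) =
        (∑ k, ∑ k', ρ k * (starRingEnd ℂ) (ρ k') *
        ∏ j : Fin J, wk (bet ab (α j) (α (j + 1))) 1 (ν k j) (ν k' j)) / (B ^ 2 : ℝ) := by
      simp only [Finset.sum_div, map_div₀, conj_ofReal]
      refine Finset.sum_congr rfl fun k _ => Finset.sum_congr rfl fun k' _ => ?_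
      push_cast
      ring
    rw [hc₁, e, ← mul_div_assoc, div_ofReal_im]
    positivity
  have Cs : ∀ t, Cm t ≤ w + 1 + ∑ t, Cm t := fun t => by
    have := Finset.single_le_sum (f := Cm) (fun t _ => zero_le_one.trans (Cm1 t))
      (Finset.mem_univ t)
    linarith
  have C0 : 0 ≤ ∑ t, Cm t := Finset.sum_nonneg fun t _ => zero_le_one.trans (Cm1 t)
  let D : Fin m → ℝ := fun k => ‖ρ k / B‖ * ∏ j, Ce (ν k j)
  refine ⟨ε, c₁ / 2, w + 1 + ∑ t, Cm t, Fintype.card ι, e0, e1, half_pos c0, by linarith,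
    fun η hη => ⟨(∑ k, D k ^ 2) * (∑ k, (1 + (∑ k, D k ^ 2) * m / η) ^ q k), by positivity, ?_⟩⟩
  have F2 : ∀ᶠ T : ℝ in atTop, ∀ j : Fin J, ∑ p ∈ pr T (α j) (α (j + 1)),
      ‖cf ab (kap (α j) (α (j + 1))) T p‖ ^ 2 / p ≤ M := by
    refine eventually_all.2 fun j => ?_
    have := hP _ _ (fun v => kap (α j) (α (j + 1)) ^ 2 * v) (al0 j) (al1 j).le (by fun_prop)
    rw [int_h (al0 j) (al1 j)] at this
    simp only [sq_cf]
    exact this.eventually_le_const (by linarith)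
  filter_upwards [eventually_gt_atTop 1, F2, L3.eventually_const_le (half_lt_self c0),
    L4.eventually_le_const (lt_add_one w)] with T hT f2 f3 f4
  have T0 : 0 ≤ T := by linarith
  have f1 : ∀ j : Fin J, ∀ p ∈ pr T (α j) (α (j + 1)),
      ‖cf ab (kap (α j) (α (j + 1))) T p‖ ≤ M := fun j p hp => by
    obtain ⟨v0, v1⟩ := v_mem hT hp
    have k0 := kap_nonneg (α j) (α (j + 1))
    rw [norm_cf, abs_of_nonneg (mul_nonneg k0 v0)]
    exact (mul_le_of_le_one_right k0 (v1.trans (al2 j))).trans (Mk j)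
  obtain ⟨r1, r2, r3⟩ := hR J m ⌊T ^ (1 - ε)⌋₊ (fun j => pr T (α j) (α (j + 1)))
    (fun j => cf ab (kap (α j) (α (j + 1))) T) ν (fun k => ρ k / B)
    (fun j p hp => (mem_pr T0 hp).1)
    (fun j j' hj => by
      wlog hlt : j < j' generalizing j j'
      · exact (this j' j hj.symm (lt_of_le_of_ne (not_lt.1 hlt) hj.symm)).symm
      refine Finset.disjoint_left.2 fun p hp hp' => ?_
      have := Real.rpow_le_rpow_of_exponent_le hT.le
        (al_mono a1 (i := j + 1) (j := j') hlt j'.2.le)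
      linarith [(mem_pr T0 hp).2.2, (mem_pr T0 hp').2.1])
    (fun k A hA => by
      refine Nat.le_floor (le_trans ?_ (prod_rpow hT.le (ν k) (fun j => α (j + 1)) (hν k)))
      push_cast
      refine Finset.prod_le_prod (fun _ _ => by positivity) fun j _ => ?_
      obtain ⟨s1, s2⟩ := Finset.mem_powersetCard.1 (Fintype.mem_piFinset.1 hA j)
      rw [← s2, ← Finset.prod_const]
      exact Finset.prod_le_prod (fun _ _ => Nat.cast_nonneg _) fun p hp => (mem_pr T0 (s1 hp)).2.2)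
  have hc : ∀ t : ι, _ := fun t => hCm t (fun j => pr T (α j) (α (j + 1)))
    (fun j => cf ab (kap (α j) (α (j + 1))) T) (fun j => T ^ α (j + 1)) ⌊T ^ (1 - ε)⌋₊
    (fun j p hp => ⟨(mem_pr T0 hp).1, (mem_pr T0 hp).2.2, f1 j p hp⟩)
    (fun j => Real.one_le_rpow hT.le ((al0 j).trans (al1 j).le)) f2
    (Nat.floor_le_floor (prod_rpow hT.le _ _ (le_trans (Finset.sum_le_sum fun j _ =>
      mul_le_mul_of_nonneg_right (Nat.cast_le.2 (by
        dsimp only [ex]; split_ifs; exacts [le_rfl, Nat.zero_le _]))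
        ((al0 j).trans (al1 j).le)) (hi t.1 t.2.1))))
  choose c c1 c2 c3 using hc
  refine ⟨_, fun t => c ((Fintype.equivFin ι).symm t),
    fun n => (r2 M (by linarith) f1 n).trans B1, ?_, ?_, fun t n => (c1 _ n).trans (Cs _),
    fun t => (c2 _).trans (Cs _), fun x => ?_⟩
  · rw [r3 _ (H88.rc_one _ _) fun u v h => H88.rc_cop _ _ h]
    exact f3
  · rw [← r3 LSeries.delta (by simp [LSeries.delta]) fun u v _ => by
      by_cases a : u = 1 <;> by_cases b : v = 1 <;> simp [LSeries.delta, a, b]] at f4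
    refine le_trans (le_trans (le_of_eq ?_) ((re_le_norm _).trans f4)) (by linarith)
    rw [re_sum]
    refine Finset.sum_congr rfl fun n hn => ?_
    rw [cv_delta _ hn, mul_conj, normSq_eq_norm_sq, div_natCast_re, ofReal_re]
  · rw [Equiv.sum_comp (Fintype.equivFin ι).symm fun t => ‖dp (c t) ⌊T ^ (1 - ε)⌋₊ x‖ ^ 2]
    refine point (fun j => ds (cf ab (kap (α j) (α (j + 1))) T) (pr T (α j) (α (j + 1))) x) ν q i
      hqi D _ ?_ (Finset.sum_nonneg fun _ _ => sq_nonneg _) hη fun k s A => ?_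
    · rw [r1]
      refine (norm_sum_le _ _).trans (Finset.sum_le_sum fun k _ => ?_)
      rw [norm_mul, mul_assoc, norm_prod, ← Finset.prod_mul_distrib]
      refine mul_le_mul_of_nonneg_left (Finset.prod_le_prod (fun _ _ => norm_nonneg _)
        fun j _ => hCe _ _ _ (fun p hp => ?_) ?_) (norm_nonneg _)
      · have hp0 := (mem_pr T0 hp).1.pos
        have : ‖np (1 / 2 + I * x) p‖ ^ 2 ≤ 1 := by
          rw [norm_np x hp0, div_le_one (by exact_mod_cast hp0)]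
          exact_mod_cast hp0
        rw [norm_mul]
        exact (mul_le_of_le_one_right (norm_nonneg _)
          ((sq_le_one_iff₀ (norm_nonneg _)).1 this)).trans (f1 j p hp)
      · refine le_trans (le_of_eq (Finset.sum_congr rfl fun p hp => ?_)) (f2 j)
        rw [norm_mul, mul_pow, norm_np x (mem_pr T0 hp).1.pos, mul_one_div]
    · have := Finset.single_le_sum (f := fun t => ‖dp (c t) ⌊T ^ (1 - ε)⌋₊ x‖ ^ 2)
        (fun _ _ => sq_nonneg _) (Finset.mem_univ (⟨k, s, A⟩ : ι))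
      rw [← c3] at this
      exact this

end Pool.Agent.MP_ca0a54_nt.H13
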