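import Pool.Agent.MP_ca0a54_nt.H13.Spec
import Pool.Agent.MP_ca0a54_nt.L0.Zeros

/-! Row COUNT: from few small gaps to many good zeros. -/

open Complex MeasureTheory Filter Topology

namespace Pool.Agent.MP_ca0a54_nt.H13

open Pool.Agent.MP_ca0a54_nt.L0 Pool.Agent.MP_ca0a54_nt.H24

namespace CountR

/-- There are finitely many zeros with ordinate in `[T, T']`, `T > 0`. -/
lemma zeros_finite {T T' : ℝ} (hT : 0 < T) :
    {ρ : ℂ | riemannZeta ρ = 0 ∧ T ≤ ρ.im ∧ ρ.im ≤ T'}.Finite := by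
  have h1 : IsCompact ((fun p : ℝ × ℝ => (p.1 + p.2 * I : ℂ)) ''
      (Set.Icc (0 : ℝ) 1 ×ˢ Set.Icc T T')) :=
    (isCompact_Icc.prod isCompact_Icc).image (by fun_prop)
  refine h1.inter_riemannZetaZeros_finite.subset ?_
  rintro ρ ⟨h0, h2, h3⟩
  refine ⟨⟨(ρ.re, ρ.im), ⟨⟨?_, ?_⟩, h2, h3⟩, re_add_im ρ⟩, h0⟩
  · by_contra h
    have h4 := Zeros.reflect h0 (by linarith)
    refine riemannZeta_ne_zero_of_one_le_re ?_ h4
    simp only [sub_re, one_re, conj_re]
    simp only [not_le] at h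
    linarith
  · by_contra h
    simp only [not_le] at h
    exact riemannZeta_ne_zero_of_one_le_re h.le h0

lemma fibre_finite {γ : ℕ → ℝ} (hγ : Enum γ) (x : ℝ) : {n | γ n = x}.Finite :=
  Set.finite_of_encard_eq_coe (hγ.2 x)

lemma window_finite {γ : ℕ → ℝ} (hγ : Enum γ) {T T' : ℝ} (hT : 0 < T) :
    {n | T ≤ γ n ∧ γ n ≤ T'}.Finite := by
  refine (((zeros_finite (T' := T') hT).image Complex.im).biUnion
    fun x _ => fibre_finite hγ x).subset ?_
  rintro n ⟨h1, h2⟩
  simp only [Set.mem_iUnion, Set.mem_ofPred_eq]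
  refine ⟨γ n, ?_, rfl⟩
  by_contra hn
  have h3 := hγ.2 (γ n)
  rw [finsum_mem_of_eqOn_zero, Nat.cast_zero, Set.encard_eq_zero] at h3
  · have : n ∈ {m | γ m = γ n} := rfl
    rw [h3] at this
    exact this
  · rintro ρ ⟨-, h5⟩
    by_contra h6
    exact hn ⟨ρ, ⟨apply_eq_zero_of_analyticOrderNatAt_ne_zero h6, h5 ▸ h1, h5 ▸ h2⟩, h5⟩

lemma mem_window {C T : ℝ} {Z : Multiset ℂ} {h : ℂ → ℂ} (hF : FacM C T Z h) {z : ℂ}
    (hz : z ∈ Z) : |z.re - 3 * T / 2| ≤ T / 8 := by
  by_contra hn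
  have h1 := hF.cnt z
  rw [if_neg hn, Multiset.count_eq_zero] at h1
  exact h1 hz

/-- In the window, the multiplicity of an ordinate is its count in `Z`. -/
lemma mult_eq {C T : ℝ} {Z : Multiset ℂ} {h : ℂ → ℂ} (hF : FacM C T Z h) (hT : 0 < T) {x : ℝ}
    (hx : |x - 3 * T / 2| ≤ T / 8) :
    ∑ᶠ ρ ∈ {ρ : ℂ | 0 < ρ.im ∧ ρ.im = x}, analyticOrderNatAt riemannZeta ρ =
      (Z.map Complex.re).count x := by
  classical
  have hx0 : 0 < x := by
    have := (abs_le.1 hx).1
    linarith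
  have e1 : ∑ᶠ z ∈ {z : ℂ | z.re = x}, Z.count z =
      ∑ᶠ ρ ∈ {ρ : ℂ | 0 < ρ.im ∧ ρ.im = x}, analyticOrderNatAt riemannZeta ρ := by
    refine finsum_mem_eq_of_bijOn (fun z : ℂ => 1 / 2 + I * z) ⟨?_, ?_, ?_⟩ ?_
    · intro z hz
      simp only [Set.mem_ofPred_eq, Zeros.pt_im] at hz ⊢
      exact ⟨hz ▸ hx0, hz⟩
    · intro z _ w _ e
      exact mul_left_cancel₀ I_ne_zero (add_left_cancel e)
    · rintro ρ ⟨-, h2⟩
      refine ⟨-I * (ρ - 1 / 2), ?_, ?_⟩
      · simp [h2]
      · show 1 / 2 + I * (-I * (ρ - 1 / 2)) = ρ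
        linear_combination (-(ρ - 1 / 2)) * I_mul_I
    · intro z hz
      have hz' : z.re = x := hz
      rw [hF.cnt z, if_pos (hz' ▸ hx)]
  rw [← e1, Multiset.count_map, finsum_mem_eq_sum_of_inter_support_eq
    (t := Z.toFinset.filter fun z => x = z.re), ← Multiset.toFinset_sum_count_eq,
    Multiset.toFinset_filter]
  · refine Finset.sum_congr rfl fun z hz => ?_
    rw [Multiset.count_filter_of_pos (p := fun w : ℂ => x = w.re) (Finset.mem_filter.1 hz).2]
  · ext z
    simp only [Set.mem_inter_iff, Set.mem_ofPred_eq, Function.mem_support, ne_eq,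
      Multiset.count_eq_zero, not_not, Finset.coe_filter, Multiset.mem_toFinset]
    constructor
    · rintro ⟨h1, h2⟩
      exact ⟨⟨h2, h1.symm⟩, h2⟩
    · rintro ⟨⟨-, h1⟩, h2⟩
      exact ⟨h1.symm, h2⟩

end CountR

open CountR in
theorem count : CountStmt := by
  classical
  intro γ C T a δ Z h hγ hF ha haδ haT
  have hT : 0 < T := by linarith
  have hmono := hγ.1
  have hS : {n | T ≤ γ n ∧ γ (n + 1) ≤ 2 * T ∧ γ (n + 1) - γ n < δ}.Finite :=
    (window_finite hγ (T' := 2 * T) hT).subset fun n hn =>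
      ⟨hn.1, (hmono (Nat.le_succ n)).trans hn.2.1⟩
  have hI : {n | |γ n - 3 * T / 2| ≤ T / 8}.Finite :=
    (window_finite hγ (T' := 2 * T) hT).subset fun n hn => by
      have := abs_le.1 (show |γ n - 3 * T / 2| ≤ T / 8 from hn)
      constructor <;> linarith [this.1, this.2]
  have hfib : ∀ x : ℝ, |x - 3 * T / 2| ≤ T / 8 →
      {n | γ n = x}.ncard = (Z.map Complex.re).count x := by
    intro x hx
    rw [Set.ncard_def, hγ.2 x, mult_eq hF hT hx, ENat.toNat_natCast]
  have hwin : ∀ x ∈ Z.map Complex.re, |x - 3 * T / 2| ≤ T / 8 := by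
    intro x hx
    obtain ⟨z, hz, rfl⟩ := Multiset.mem_map.1 hx
    exact mem_window hF hz
  -- the number of indices in the window
  have hcard : Z.card ≤ hI.toFinset.card := by
    rw [← Multiset.card_map Complex.re Z, ← Multiset.toFinset_sum_count_eq]
    have h1 : ∀ x ∈ (Z.map Complex.re).toFinset, (Z.map Complex.re).count x =
        (hI.toFinset.filter fun n => γ n = x).card := by
      intro x hx
      have hx' := hwin x (Multiset.mem_toFinset.1 hx)
      rw [← hfib x hx', ← Set.ncard_coe_finset]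
      congr 1
      ext n
      simp only [Set.mem_ofPred_eq, Finset.coe_filter, Set.Finite.mem_toFinset]
      exact ⟨fun e => ⟨e ▸ hx', e⟩, fun e => e.2⟩
    rw [Finset.sum_congr rfl h1, Finset.sum_card_fiberwise_eq_card_filter]
    exact Finset.card_filter_le _ _
  set Sf := hS.toFinset with hSf
  set Gd := hI.toFinset \ (Sf ∪ Sf.image (· + 1)) with hGd
  have hgood : ∀ n ∈ Gd, |γ n - 3 * T / 2| ≤ T / 8 ∧ (∀ m, n < m → γ n < γ m) ∧
      ∀ m, m < n → γ m ≤ γ n - a := by
    intro n hn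
    rw [hGd, Finset.mem_sdiff, Finset.mem_union, not_or, Set.Finite.mem_toFinset] at hn
    obtain ⟨h1, h2, h3⟩ := hn
    have h1' : |γ n - 3 * T / 2| ≤ T / 8 := h1
    obtain ⟨h4, h5⟩ := abs_le.1 h1'
    refine ⟨h1', fun m hm => ?_, fun m hm => ?_⟩
    · by_contra h6
      have h7 : γ (n + 1) ≤ γ n := (hmono (Nat.succ_le_of_lt hm)).trans (not_lt.1 h6)
      refine h2 (hS.mem_toFinset.2 ⟨?_, ?_, ?_⟩) <;> linarith
    · by_contra h6
      obtain ⟨k, rfl⟩ : ∃ k, n = k + 1 := ⟨n - 1, by omega⟩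
      have h7 : γ m ≤ γ k := hmono (by omega)
      have h8 := not_le.1 h6
      refine h3 (Finset.mem_image.2 ⟨k, hS.mem_toFinset.2 ⟨?_, ?_, ?_⟩, rfl⟩) <;> linarith
  have hone : ∀ n ∈ Gd, ∀ m, γ m = γ n → m = n := by
    intro n hn m e
    obtain ⟨-, h2, h3⟩ := hgood n hn
    rcases lt_trichotomy m n with hm | hm | hm
    · have := h3 m hm
      linarith
    · exact hm
    · exact absurd e (h2 m hm).ne'
  refine ⟨Gd.image γ, fun u hu => ?_, ?_⟩
  · obtain ⟨n, hn, rfl⟩ := Finset.mem_image.1 hu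
    obtain ⟨h1, h2, h3⟩ := hgood n hn
    constructor
    · have e1 : {m | γ m = γ n} = {n} := by
        ext m
        exact ⟨fun e => hone n hn m e, fun e => congrArg γ e⟩
      have e2 := hfib _ h1
      rw [e1, Set.ncard_singleton, Multiset.count_map] at e2
      obtain ⟨z, hz⟩ := Multiset.card_eq_one.1 e2.symm
      have hz1 : z ∈ Z.filter fun w => γ n = w.re := hz ▸ Multiset.mem_singleton_self z
      obtain ⟨hz2, hz3⟩ := Multiset.mem_filter.1 hz1
      have hz4 : (starRingEnd ℂ) z ∈ Z.filter fun w => γ n = w.re := by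
        refine Multiset.mem_filter.2 ⟨?_, by simpa using hz3⟩
        rw [← hF.sym]
        exact Multiset.mem_map_of_mem _ hz2
      rw [hz, Multiset.mem_singleton, conj_eq_iff_re] at hz4
      have hz5 : z = (γ n : ℂ) := by rw [hz3, hz4]
      rw [← Multiset.count_filter_of_pos (p := fun w : ℂ => γ n = w.re) (by simp), hz, hz5,
        Multiset.count_singleton_self]
    · intro x hx1 hx2 hx
      have hx3 : x ∈ Z.map Complex.re := Multiset.mem_map.2 ⟨x, hx, ofReal_re x⟩
      have e2 := hfib x (hwin x hx3)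
      have e3 : {m | γ m = x}.ncard ≠ 0 := by
        rw [e2]
        exact Multiset.count_ne_zero.2 hx3
      obtain ⟨m, hm⟩ := Set.nonempty_of_ncard_ne_zero e3
      have hm' : γ m = x := hm
      rcases lt_or_ge m n with hmn | hmn
      · have := h3 m hmn
        linarith
      · have := hmono hmn
        linarith
  · rw [Finset.card_image_of_injOn fun n _ m hm e => hone m hm n e,
      Set.ncard_eq_toFinset_card _ hS]
    have h1 : hI.toFinset.card ≤ Gd.card + (Sf ∪ Sf.image (· + 1)).card :=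
      Finset.card_le_card_sdiff_add_card
    have h2 : (Sf ∪ Sf.image (· + 1)).card ≤ Sf.card + Sf.card :=
      (Finset.card_union_le _ _).trans (Nat.add_le_add_left Finset.card_image_le _)
    have h3 : Z.card ≤ Gd.card + 2 * Sf.card := by omega
    have h4 : (Z.card : ℝ) ≤ Gd.card + 2 * Sf.card := by exact_mod_cast h3
    linarith

end Pool.Agent.MP_ca0a54_nt.H13
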