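import Pool.Agent.MP_ca0a54_nt.H13.Spec
import Pool.Agent.MP_ca0a54_nt.P.ES

/-!
Row ES: bounds and limits for elementary symmetric functions.
-/

open Filter Topology

namespace Pool.Agent.MP_ca0a54_nt.H13

namespace Es

open Pool.Agent.MP_ca0a54_nt.P.ES

theorem es_eq (k : ℕ) (S : Finset ℕ) (x : ℕ → ℂ) : es k S x = P.es S x k := rfl

theorem sum_erase_le {S : Finset ℕ} {x : ℕ → ℂ} {M : ℝ} (h : ∑ p ∈ S, ‖x p‖ ≤ M) (p : ℕ) :
    ∑ q ∈ S.erase p, ‖x q‖ ≤ M :=
  (Finset.sum_le_sum_of_subset_of_nonneg (Finset.erase_subset p S)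
    (fun _ _ _ => norm_nonneg _)).trans h

theorem one_le_norm (c : ℕ) : (1 : ℝ) ≤ ‖(c : ℂ) + 1‖ := by
  have e : ((c : ℂ) + 1) = ((c + 1 : ℕ) : ℂ) := by push_cast; ring
  rw [e, Complex.norm_natCast]
  exact_mod_cast (by omega : 1 ≤ c + 1)

/-- The crude bound. -/
theorem crude (x : ℕ → ℂ) {M : ℝ} (hM : 0 ≤ M) : ∀ (k : ℕ) (S : Finset ℕ),
    ∑ p ∈ S, ‖x p‖ ≤ M → ‖P.es S x k‖ ≤ M ^ k := by
  intro k
  induction k with
  | zero => intro S _; simp [es_zero]
  | succ k ih =>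
    intro S hS
    have t3 : ‖P.es S x (k + 1)‖ ≤ ‖((k : ℂ) + 1) * P.es S x (k + 1)‖ := by
      rw [norm_mul]
      exact le_mul_of_one_le_left (norm_nonneg _) (one_le_norm k)
    rw [es_succ] at t3
    refine t3.trans ?_
    calc _ ≤ ∑ p ∈ S, ‖x p‖ * M ^ k := by
          refine norm_sum_le_of_le _ fun p _ => ?_
          rw [norm_mul]
          exact mul_le_mul_of_nonneg_left (ih _ (sum_erase_le hS p)) (norm_nonneg _)
      _ = (∑ p ∈ S, ‖x p‖) * M ^ k := by rw [Finset.sum_mul]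
      _ ≤ M * M ^ k := mul_le_mul_of_nonneg_right hS (by positivity)
      _ = M ^ (k + 1) := by ring

/-- `e_k` is close to `X ^ k / k!` when all the terms are small. -/
theorem approx {M : ℝ} (hM : 0 ≤ M) : ∀ k : ℕ, ∃ K : ℝ, 0 ≤ K ∧ ∀ (S : Finset ℕ) (x : ℕ → ℂ)
    (δ : ℝ), 0 ≤ δ → ∑ p ∈ S, ‖x p‖ ≤ M → (∀ p ∈ S, ‖x p‖ ≤ δ) →
    ‖P.es S x k - (∑ p ∈ S, x p) ^ k / (k.factorial : ℕ)‖ ≤ K * δ := by
  intro k
  induction k with
  | zero => exact ⟨0, le_rfl, fun S x δ _ _ _ => by simp [es_zero]⟩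
  | succ k ih =>
    cases k with
    | zero =>
      refine ⟨0, le_rfl, fun S x δ _ _ _ => ?_⟩
      have h0 := es_succ x S 0
      simp only [es_zero, mul_one, Nat.cast_zero, zero_add, one_mul] at h0
      rw [zero_add, h0]
      simp
    | succ k =>
      obtain ⟨K, hK, h⟩ := ih
      refine ⟨M * K + M * M ^ k, by positivity, fun S x δ hδ hS hx => ?_⟩
      set X : ℂ := ∑ p ∈ S, x p with hX
      have hXn : ‖X‖ ≤ M := (norm_sum_le _ _).trans hS
      have h2 := es_two x S k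
      have hf : (((k + 1).factorial : ℕ) : ℂ) ≠ 0 := by exact_mod_cast (k + 1).factorial_ne_zero
      have hk2 : ((k : ℂ) + 2) ≠ 0 := by exact_mod_cast (by omega : k + 2 ≠ 0)
      have e : (((k + 1 : ℕ) : ℂ) + 1) *
          (P.es S x (k + 1 + 1) - X ^ (k + 1 + 1) / ((k + 1 + 1).factorial : ℕ)) =
          X * (P.es S x (k + 1) - X ^ (k + 1) / ((k + 1).factorial : ℕ)) -
            ∑ p ∈ S, x p * (x p * P.es (S.erase p) x k) := by
        have e1 : (((k + 1 : ℕ) : ℂ) + 1) = (k : ℂ) + 2 := by push_cast; ring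
        have e2 : (((k + 1 + 1).factorial : ℕ) : ℂ) = ((k : ℂ) + 2) * ((k + 1).factorial : ℕ) := by
          rw [Nat.factorial_succ (k + 1)]
          push_cast
          ring
        rw [e1, mul_sub, e2, show k + 1 + 1 = k + 2 from rfl, h2, ← hX]
        field_simp
        ring
      have t3 := le_mul_of_one_le_left (norm_nonneg
        (P.es S x (k + 1 + 1) - X ^ (k + 1 + 1) / ((k + 1 + 1).factorial : ℕ))) (one_le_norm (k + 1))
      rw [← norm_mul, e] at t3
      refine t3.trans ((norm_sub_le _ _).trans ?_)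
      have t1 : ‖X * (P.es S x (k + 1) - X ^ (k + 1) / ((k + 1).factorial : ℕ))‖ ≤ M * (K * δ) := by
        rw [norm_mul]
        exact mul_le_mul hXn (h S x δ hδ hS hx) (norm_nonneg _) hM
      have t2 : ‖∑ p ∈ S, x p * (x p * P.es (S.erase p) x k)‖ ≤ M * (δ * M ^ k) := by
        calc _ ≤ ∑ p ∈ S, ‖x p‖ * (δ * M ^ k) := by
              refine norm_sum_le_of_le _ fun p hp => ?_
              rw [norm_mul, norm_mul]
              exact mul_le_mul_of_nonneg_left (mul_le_mul (hx p hp)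
                (crude x hM k _ (sum_erase_le hS p)) (norm_nonneg _) hδ) (norm_nonneg _)
          _ = (∑ p ∈ S, ‖x p‖) * (δ * M ^ k) := by rw [Finset.sum_mul]
          _ ≤ _ := mul_le_mul_of_nonneg_right hS (by positivity)
      calc _ ≤ M * (K * δ) + M * (δ * M ^ k) := add_le_add t1 t2
        _ = _ := by ring

/-- Removing a few points changes `e_k` only a little. -/
theorem remove (x : ℕ → ℂ) {M δ : ℝ} (hM : 1 ≤ M) (hδ : 0 ≤ δ) (k : ℕ) (S : Finset ℕ)
    (hS : ∑ p ∈ S, ‖x p‖ ≤ M) (hx : ∀ p ∈ S, ‖x p‖ ≤ δ) (B : Finset ℕ) :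
    ‖P.es (S \ B) x k - P.es S x k‖ ≤ B.card * (δ * M ^ k) := by
  have hM0 : 0 ≤ M := by linarith
  induction B using Finset.induction_on with
  | empty => simp
  | insert a B ha ih =>
    rw [Finset.sdiff_insert, Finset.card_insert_of_notMem ha]
    have hsub : ∑ p ∈ S \ B, ‖x p‖ ≤ M :=
      (Finset.sum_le_sum_of_subset_of_nonneg Finset.sdiff_subset
        (fun _ _ _ => norm_nonneg _)).trans hS
    have step : ‖P.es ((S \ B).erase a) x k - P.es (S \ B) x k‖ ≤ δ * M ^ k := by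
      by_cases hm : a ∈ S \ B
      · cases k with
        | zero => simp [es_zero, hδ]
        | succ k =>
          rw [es_erase hm x k]
          have e : P.es ((S \ B).erase a) x (k + 1) - (P.es ((S \ B).erase a) x (k + 1) +
              x a * P.es ((S \ B).erase a) x k) = -(x a * P.es ((S \ B).erase a) x k) := by ring
          rw [e, norm_neg, norm_mul]
          refine mul_le_mul (hx a (Finset.mem_sdiff.1 hm).1) ?_ (norm_nonneg _) hδ
          exact (crude x hM0 k _ (sum_erase_le hsub a)).trans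
            (pow_le_pow_right₀ hM (Nat.le_succ k))
      · rw [Finset.erase_eq_of_notMem hm, sub_self, norm_zero]
        positivity
    have tri := norm_sub_le_norm_sub_add_norm_sub (P.es ((S \ B).erase a) x k) (P.es (S \ B) x k)
      (P.es S x k)
    push_cast
    linarith

/-- Reindexing the pairs `B ⊆ A`. -/
theorem s2_eq (l k : ℕ) (S : Finset ℕ) (g h : ℕ → ℂ) :
    s2 l (l + k) S g h = ∑ B ∈ S.powersetCard l, (∏ p ∈ B, h p) * P.es (S \ B) g k := by
  unfold s2 P.es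
  simp only [Finset.mul_sum]
  rw [Finset.sum_sigma', Finset.sum_sigma']
  refine Finset.sum_bij' (fun a _ => ⟨a.2, a.1 \ a.2⟩) (fun b _ => ⟨b.1 ∪ b.2, b.1⟩) ?_ ?_ ?_ ?_ ?_
  · rintro ⟨A, B⟩ hab
    simp only [Finset.mem_sigma, Finset.mem_powersetCard] at hab ⊢
    obtain ⟨⟨h1, h2⟩, h3, h4⟩ := hab
    refine ⟨⟨h3.trans h1, h4⟩, Finset.sdiff_subset_sdiff h1 subset_rfl, ?_⟩
    rw [Finset.card_sdiff_of_subset h3]
    omega
  · rintro ⟨B, C⟩ hab
    simp only [Finset.mem_sigma, Finset.mem_powersetCard] at hab ⊢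
    obtain ⟨⟨h1, h2⟩, h3, h4⟩ := hab
    have hd : Disjoint B C := (Finset.disjoint_of_subset_right h3 Finset.disjoint_sdiff)
    refine ⟨⟨Finset.union_subset h1 (h3.trans Finset.sdiff_subset), ?_⟩,
      Finset.subset_union_left, h2⟩
    rw [Finset.card_union_of_disjoint hd, h2, h4]
  · rintro ⟨A, B⟩ hab
    simp only [Finset.mem_sigma, Finset.mem_powersetCard] at hab
    obtain ⟨⟨h1, h2⟩, h3, h4⟩ := hab
    simp only [Finset.union_sdiff_of_subset h3]
  · rintro ⟨B, C⟩ hab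
    simp only [Finset.mem_sigma, Finset.mem_powersetCard] at hab
    obtain ⟨⟨h1, h2⟩, h3, h4⟩ := hab
    have hd : Disjoint B C := (Finset.disjoint_of_subset_right h3 Finset.disjoint_sdiff)
    simp only [Finset.union_sdiff_cancel_left hd]
  · rintro ⟨A, B⟩ _
    exact mul_comm _ _

theorem s2_zero {l m : ℕ} (hlm : m < l) (S : Finset ℕ) (g h : ℕ → ℂ) : s2 l m S g h = 0 := by
  unfold s2
  refine Finset.sum_eq_zero fun A hA => ?_
  have : A.powersetCard l = ∅ :=
    Finset.powersetCard_eq_empty.2 (by rw [(Finset.mem_powersetCard.1 hA).2]; exact hlm)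
  rw [this, Finset.sum_empty]

theorem s2_near (l k : ℕ) (S : Finset ℕ) (g h : ℕ → ℂ) {M δ : ℝ} (hM : 1 ≤ M) (hδ : 0 ≤ δ)
    (hg : ∑ p ∈ S, ‖g p‖ ≤ M) (hh : ∑ p ∈ S, ‖h p‖ ≤ M) (hx : ∀ p ∈ S, ‖g p‖ ≤ δ) :
    ‖s2 l (l + k) S g h - P.es S h l * P.es S g k‖ ≤ (M ^ l * (l * M ^ k)) * δ := by
  have hM0 : 0 ≤ M := by linarith
  have e : s2 l (l + k) S g h - P.es S h l * P.es S g k =
      ∑ B ∈ S.powersetCard l, (∏ p ∈ B, h p) * (P.es (S \ B) g k - P.es S g k) := by
    rw [s2_eq]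
    simp only [mul_sub, Finset.sum_sub_distrib]
    rw [← Finset.sum_mul]
    rfl
  have hb : ∑ B ∈ S.powersetCard l, ‖∏ p ∈ B, h p‖ ≤ M ^ l := by
    have h1 := crude (fun p => ((‖h p‖ : ℝ) : ℂ)) hM0 l S (by simpa using hh)
    rw [es_cast, Complex.norm_real] at h1
    refine le_trans ?_ ((le_abs_self _).trans h1)
    unfold P.es
    exact le_of_eq (Finset.sum_congr rfl fun B _ => norm_prod _ _)
  rw [e]
  calc _ ≤ ∑ B ∈ S.powersetCard l, ‖∏ p ∈ B, h p‖ * (l * (δ * M ^ k)) := by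
        refine norm_sum_le_of_le _ fun B hB => ?_
        rw [norm_mul]
        refine mul_le_mul_of_nonneg_left ?_ (norm_nonneg _)
        have := remove g hM hδ k S hg hx B
        rwa [(Finset.mem_powersetCard.1 hB).2] at this
    _ = (∑ B ∈ S.powersetCard l, ‖∏ p ∈ B, h p‖) * (l * (δ * M ^ k)) := by rw [Finset.sum_mul]
    _ ≤ M ^ l * (l * (δ * M ^ k)) := mul_le_mul_of_nonneg_right hb (by positivity)
    _ = _ := by ring

/-- A quantity which is eventually at most `K δ` for every `δ > 0` tends to zero. -/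
theorem tends_of {u v : ℝ → ℂ} {w : ℂ} {K : ℝ} (hK : 0 ≤ K) (hv : Tendsto v atTop (𝓝 w))
    (h : ∀ δ : ℝ, 0 < δ → ∀ᶠ T : ℝ in atTop, ‖u T - v T‖ ≤ K * δ) : Tendsto u atTop (𝓝 w) := by
  have h0 : Tendsto (fun T => u T - v T) atTop (𝓝 0) := by
    rw [NormedAddGroup.tendsto_nhds_zero]
    intro ε hε
    filter_upwards [h (ε / (K + 1)) (by positivity)] with T hT
    refine hT.trans_lt ?_
    rw [mul_div_assoc', div_lt_iff₀ (by positivity)]
    nlinarith
  simpa using h0.add hv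

theorem es_tends (k : ℕ) (S : ℝ → Finset ℕ) (g : ℝ → ℕ → ℂ) (γ : ℂ) {M : ℝ} (hM : 0 ≤ M)
    (hg : Tendsto (fun T => ∑ p ∈ S T, g T p) atTop (𝓝 γ))
    (hb : ∀ᶠ T : ℝ in atTop, ∑ p ∈ S T, ‖g T p‖ ≤ M)
    (hs : ∀ δ : ℝ, 0 < δ → ∀ᶠ T : ℝ in atTop, ∀ p ∈ S T, ‖g T p‖ ≤ δ) :
    Tendsto (fun T => P.es (S T) (g T) k) atTop (𝓝 (γ ^ k / (k.factorial : ℕ))) := by
  obtain ⟨K, hK, h⟩ := approx hM k
  refine tends_of hK ((hg.pow k).div_const _) fun δ hδ => ?_
  filter_upwards [hb, hs δ hδ] with T h1 h2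
  exact h (S T) (g T) δ hδ.le h1 h2

end Es

theorem esS : EsStmt := by
  refine ⟨fun k M => ?_, fun l m S g h γ σ M hg hh hb hs => ?_⟩
  · obtain ⟨K, hK, h⟩ := (P.ES.bnd M k).1
    exact ⟨K, by linarith, fun S x _ h2 => h S x _ h2 (le_max_left _ _) (le_max_right _ _)⟩
  · by_cases hlm : l ≤ m
    · obtain ⟨k, rfl⟩ := Nat.exists_eq_add_of_le hlm
      have hM : (1 : ℝ) ≤ max 1 M := le_max_left _ _
      have hM0 : (0 : ℝ) ≤ max 1 M := by linarith
      have bg : ∀ᶠ T : ℝ in atTop, ∑ p ∈ S T, ‖g T p‖ ≤ max 1 M := by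
        filter_upwards [hb] with T hT
        exact (Finset.sum_le_sum fun p _ => le_add_of_nonneg_right (norm_nonneg _)).trans
          (hT.trans (le_max_right _ _))
      have bh : ∀ᶠ T : ℝ in atTop, ∑ p ∈ S T, ‖h T p‖ ≤ max 1 M := by
        filter_upwards [hb] with T hT
        exact (Finset.sum_le_sum fun p _ => le_add_of_nonneg_left (norm_nonneg _)).trans
          (hT.trans (le_max_right _ _))
      have t1 := Es.es_tends k S g γ hM0 hg bg fun δ hδ =>
        (hs δ hδ).mono fun T hT p hp => (hT p hp).1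
      have t2 := Es.es_tends l S h σ hM0 hh bh fun δ hδ =>
        (hs δ hδ).mono fun T hT p hp => (hT p hp).2
      have e : wk γ σ l (l + k) = σ ^ l / (l.factorial : ℕ) * (γ ^ k / (k.factorial : ℕ)) := by
        unfold wk
        rw [if_pos hlm, Nat.add_sub_cancel_left, div_mul_div_comm]
        push_cast
        ring
      rw [e]
      refine Es.tends_of (K := max 1 M ^ l * (l * max 1 M ^ k)) (by positivity) (t2.mul t1)
        fun δ hδ => ?_
      filter_upwards [bg, bh, hs δ hδ] with T h1 h2 h3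
      exact Es.s2_near l k (S T) (g T) (h T) hM hδ.le h1 h2 fun p hp => (h3 p hp).1
    · have e : wk γ σ l m = 0 := by
        unfold wk
        rw [if_neg hlm]
      rw [e]
      simp only [Es.s2_zero (not_le.1 hlm)]
      exact tendsto_const_nhds

end Pool.Agent.MP_ca0a54_nt.H13
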