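import Pool.Agent.MP_ca0a54_nt.H13.Spec
import Pool.Agent.MP_ca0a54_nt.L0.Factor
import Pool.Agent.MP_ca0a54_nt.L0.Lower
import Pool.Agent.MP_ca0a54_nt.L0.Zeros

/-! Row FAC: factorization of `zf` over all zeros, with multiplicity, in a window. -/

open Complex Filter Topology Metric

namespace Pool.Agent.MP_ca0a54_nt.H13

open Pool.Agent.MP_ca0a54_nt.L0 Pool.Agent.MP_ca0a54_nt.H24

namespace FAC

theorem pz_cons (a : ℂ) (Z : Multiset ℂ) (w : ℂ) : pz (a ::ₘ Z) w = (w - a) * pz Z w := by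
  simp [pz]

theorem pz_an (Z : Multiset ℂ) (w : ℂ) : AnalyticAt ℂ (pz Z) w := by
  induction Z using Multiset.induction_on with
  | empty =>
    have : pz 0 = fun _ => 1 := funext fun w => by simp [pz]
    rw [this]; exact analyticAt_const
  | cons a Z ih =>
    have : pz (a ::ₘ Z) = fun w => (w - a) * pz Z w := funext (pz_cons a Z)
    rw [this]; exact (analyticAt_id.sub analyticAt_const).mul ih

theorem ord_pz (Z : Multiset ℂ) (w : ℂ) : analyticOrderAt (pz Z) w = Z.count w := by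
  induction Z using Multiset.induction_on with
  | empty => exact analyticOrderAt_eq_zero.2 (Or.inr (by simp [pz]))
  | cons a Z ih =>
    have : pz (a ::ₘ Z) = (fun w => w - a) * pz Z := funext (pz_cons a Z)
    rw [this, analyticOrderAt_mul (by fun_prop) (pz_an Z w), ih]
    by_cases h : w = a
    · subst h
      rw [analyticOrderAt_id_sub_const_self, Multiset.count_cons_self, add_comm]
      norm_cast
    · rw [analyticOrderAt_id_sub_const_of_ne h, Multiset.count_cons_of_ne h, zero_add]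

theorem ord_mul {Ω : Set ℂ} (hΩ : IsOpen Ω) {f g : ℂ → ℂ} (hg : DifferentiableOn ℂ g Ω)
    {Z : Multiset ℂ} (h : ∀ w, f w = pz Z w * g w) {z : ℂ} (hz : z ∈ Ω) :
    analyticOrderAt f z = Z.count z + analyticOrderAt g z := by
  have : f = pz Z * g := funext h
  rw [this, analyticOrderAt_mul (pz_an Z z) (hg.analyticAt (hΩ.mem_nhds hz)), ord_pz]

theorem quot {Ω : Set ℂ} (hΩ : IsOpen Ω) {f : ℂ → ℂ} (hf : DifferentiableOn ℂ f Ω)
    (Z : Multiset ℂ) (hZ : ∀ z ∈ Z, z ∈ Ω) (hc : ∀ z, (Z.count z : ℕ∞) ≤ analyticOrderAt f z) :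
    ∃ g : ℂ → ℂ, DifferentiableOn ℂ g Ω ∧ ∀ w, f w = pz Z w * g w := by
  induction Z using Multiset.induction_on with
  | empty => exact ⟨f, hf, fun w => by simp [pz]⟩
  | cons a Z ih =>
    obtain ⟨g, hg, hfg⟩ := ih (fun z hz => hZ z (Multiset.mem_cons_of_mem hz)) fun z =>
      le_trans (by exact_mod_cast Multiset.count_le_count_cons z a Z) (hc z)
    have haΩ := hZ a (Multiset.mem_cons_self a Z)
    have hga : g a = 0 := by
      refine apply_eq_zero_of_analyticOrderAt_ne_zero fun h0 => ?_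
      have := hc a
      rw [ord_mul hΩ hg hfg haΩ, h0, add_zero, Multiset.count_cons_self] at this
      have : Z.count a + 1 ≤ Z.count a := by exact_mod_cast this
      omega
    refine ⟨dslope g a, (differentiableOn_dslope (hΩ.mem_nhds haΩ)).2 hg, fun w => ?_⟩
    have h1 := sub_smul_dslope g a w
    rw [hga, sub_zero, smul_eq_mul] at h1
    rw [pz_cons, hfg w, ← h1]
    ring

theorem om : IsOpen {w : ℂ | 0 < w.re} := isOpen_lt continuous_const continuous_re

theorem zf_an {z : ℂ} (hz : 0 < z.re) : AnalyticAt ℂ zf z :=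
  zf_differentiableOn.analyticAt (om.mem_nhds hz)

theorem ord_ne_top {z : ℂ} (hz : 0 < z.re) : analyticOrderAt zf z ≠ ⊤ := by
  obtain ⟨C, -, h⟩ := zf_right
  have h0 : analyticOrderAt zf (1 - I) = 0 :=
    analyticOrderAt_eq_zero.2 (Or.inr (h _ (by simp; norm_num)).1)
  refine (zf_differentiableOn.analyticOnNhd om).analyticOrderAt_ne_top_of_isPreconnected
    (convex_halfSpace_re_gt 0).isPreconnected (x := 1 - I) (by simp) hz (by simp [h0])

theorem ord_zeta (z : ℂ) :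
    analyticOrderNatAt riemannZeta (1 / 2 + I * z) = analyticOrderNatAt zf z := by
  have hd : HasDerivAt (fun w : ℂ => 1 / 2 + I * w) I z := by
    simpa using ((hasDerivAt_id z).const_mul I).const_add (1 / 2)
  have := analyticOrderAt_comp_of_deriv_ne_zero (f := riemannZeta)
    (g := fun w : ℂ => 1 / 2 + I * w) (z₀ := z) (by fun_prop) (by rw [hd.deriv]; exact I_ne_zero)
  unfold analyticOrderNatAt
  rw [← this]
  rfl

/-- The factor of the functional equation. -/
noncomputable def chi (w : ℂ) : ℂ :=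
  2 * (2 * Real.pi) ^ (-(1 / 2 - I * w)) * Gamma (1 / 2 - I * w) * cos (Real.pi * (1 / 2 - I * w) / 2)

theorem ne_nat {w : ℂ} (hw : 0 < w.re) (n : ℕ) : 1 / 2 - I * w ≠ -n := fun h => by
  have := congrArg im h
  simp at this
  exact hw.ne' this

theorem fe {w : ℂ} (hw : 0 < w.re) :
    zf w = chi w * (starRingEnd ℂ) (zf ((starRingEnd ℂ) w)) := by
  have h1 : 1 / 2 - I * w ≠ 1 := fun h => by
    have := congrArg im h
    simp at this
    exact hw.ne' this
  have := riemannZeta_one_sub (ne_nat hw) h1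
  unfold zf chi
  rw [← riemannZeta_conj]
  have e1 : 1 / 2 + I * w = 1 - (1 / 2 - I * w) := by ring
  have e2 : (starRingEnd ℂ) (1 / 2 + I * (starRingEnd ℂ) w) = 1 / 2 - I * w := by
    simp [sub_eq_add_neg, map_ofNat]
  rw [e2, e1, this]

theorem chi_ne {w : ℂ} (hw : 0 < w.re) : chi w ≠ 0 := by
  have hp : (2 * Real.pi : ℂ) ≠ 0 := by simp [Real.pi_ne_zero]
  refine mul_ne_zero (mul_ne_zero (mul_ne_zero two_ne_zero ?_) (Gamma_ne_zero (ne_nat hw))) ?_
  · exact cpow_ne_zero_iff.2 (Or.inl hp)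
  · rw [Complex.cos_ne_zero_iff]
    intro k h
    have := congrArg im h
    simp [Real.pi_ne_zero] at this
    exact hw.ne' this

theorem chi_an {w : ℂ} (hw : 0 < w.re) : AnalyticAt ℂ chi w := by
  refine DifferentiableOn.analyticAt (fun z hz => DifferentiableAt.differentiableWithinAt ?_)
    (om.mem_nhds hw)
  have hp : (2 * Real.pi : ℂ) ≠ 0 := by simp [Real.pi_ne_zero]
  have h1 : DifferentiableAt ℂ (fun w : ℂ => Gamma (1 / 2 - I * w)) z :=
    (differentiableAt_Gamma _ (ne_nat hz)).comp z (by fun_prop)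
  have h2 : DifferentiableAt ℂ (fun w : ℂ => (2 * Real.pi : ℂ) ^ (-(1 / 2 - I * w))) z :=
    DifferentiableAt.const_cpow (by fun_prop) (Or.inl hp)
  unfold chi
  exact ((h2.const_mul 2).mul h1).mul (by fun_prop)

theorem ord_conj {z : ℂ} (hz : 0 < z.re) :
    analyticOrderNatAt zf ((starRingEnd ℂ) z) = analyticOrderNatAt zf z := by
  have hz' : 0 < ((starRingEnd ℂ) z).re := by simpa using hz
  obtain ⟨g, g1, g2, g3⟩ := ((zf_an hz).analyticOrderNatAt_eq_iff (ord_ne_top hz)).1 rfl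
  have hc : Tendsto (starRingEnd ℂ) (𝓝 ((starRingEnd ℂ) z)) (𝓝 z) := by
    simpa using continuous_conj.tendsto ((starRingEnd ℂ) z)
  refine ((zf_an hz').analyticOrderNatAt_eq_iff (ord_ne_top hz')).2
    ⟨fun w => chi w * ((starRingEnd ℂ) ∘ g ∘ (starRingEnd ℂ)) w, (chi_an hz').mul ?_,
      mul_ne_zero (chi_ne hz') (by simpa using g2), ?_⟩
  · refine analyticAt_iff_eventually_differentiableAt.2 ?_
    filter_upwards [hc.eventually (analyticAt_iff_eventually_differentiableAt.1 g1)] with w hw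
    exact differentiableAt_conj_conj_iff.2 hw
  · filter_upwards [hc.eventually g3, om.mem_nhds hz'] with w h1 h2
    rw [fe h2, h1]
    simp only [smul_eq_mul, map_mul, map_pow, map_sub, conj_conj, Function.comp_apply]
    ring

theorem im_le {z : ℂ} (hz : 0 < z.re) (h : zf z = 0) : |z.im| ≤ 1 / 2 := by
  have h1 : ¬ 1 ≤ (1 / 2 + I * z).re := fun h' => riemannZeta_ne_zero_of_one_le_re h' h
  have h2 : ¬ 1 ≤ (1 - (starRingEnd ℂ) (1 / 2 + I * z)).re := fun h' =>
    riemannZeta_ne_zero_of_one_le_re h' (Zeros.reflect h (by rw [Zeros.pt_im]; exact hz.ne'))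
  rw [sub_re, conj_re, one_re] at h2
  rw [Zeros.pt_re] at h1 h2
  rw [abs_le]
  constructor <;> linarith

theorem fin {T : ℝ} (hT : 0 < T) : {z : ℂ | |z.re - 3 * T / 2| ≤ T / 8 ∧ zf z = 0}.Finite := by
  have h1 : IsCompact ((fun z : ℂ => 1 / 2 + I * z) '' closedBall 0 (2 * T + 1)) :=
    (isCompact_closedBall _ _).image (by fun_prop)
  refine Set.Finite.of_finite_image (f := fun z : ℂ => 1 / 2 + I * z)
    (h1.inter_riemannZetaZeros_finite.subset ?_) fun a _ b _ h =>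
      mul_left_cancel₀ I_ne_zero (add_left_cancel h)
  rintro _ ⟨z, ⟨h2, h3⟩, rfl⟩
  refine ⟨⟨z, ?_, rfl⟩, h3⟩
  rw [abs_le] at h2
  have := im_le (by linarith [h2.1]) h3
  rw [mem_closedBall_zero_iff]
  refine (norm_le_abs_re_add_abs_im z).trans ?_
  rw [abs_of_pos (by linarith [h2.1])]
  linarith [h2.2]

theorem exZ {T : ℝ} (hT : 0 < T) : ∃ Z : Multiset ℂ, ∀ z : ℂ, Z.count z =
    if |z.re - 3 * T / 2| ≤ T / 8 then analyticOrderNatAt zf z else 0 := by
  refine ⟨∑ z ∈ (fin hT).toFinset, Multiset.replicate (analyticOrderNatAt zf z) z, fun z => ?_⟩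
  simp only [Multiset.count_sum', Multiset.count_replicate, Finset.sum_ite_eq',
    Set.Finite.mem_toFinset, Set.mem_ofPred_eq]
  by_cases h : |z.re - 3 * T / 2| ≤ T / 8
  · by_cases h' : zf z = 0
    · simp [h, h']
    · rw [if_neg (fun h'' => h' h''.2), if_pos h]
      by_contra hn
      exact h' (apply_eq_zero_of_analyticOrderNatAt_ne_zero fun e => hn e.symm)
  · rw [if_neg (fun h'' => h h''.1), if_neg h]

theorem norm_pz (Z : Multiset ℂ) (w : ℂ) : ‖pz Z w‖ = (Z.map fun z => ‖w - z‖).prod := by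
  induction Z using Multiset.induction_on with
  | empty => simp [pz]
  | cons a Z ih => rw [pz_cons, norm_mul, ih]; simp

theorem pz_ge {Z : Multiset ℂ} {w : ℂ} {r : ℝ} (hr : 0 ≤ r) (h : ∀ z ∈ Z, r ≤ ‖w - z‖) :
    r ^ Z.card ≤ ‖pz Z w‖ := by
  induction Z using Multiset.induction_on with
  | empty => simp [pz]
  | cons a Z ih =>
    rw [pz_cons, norm_mul, Multiset.card_cons, pow_succ']
    exact mul_le_mul (h a (Multiset.mem_cons_self _ _))
      (ih fun z hz => h z (Multiset.mem_cons_of_mem hz)) (by positivity) (norm_nonneg _)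

theorem pz_le {Z : Multiset ℂ} {w : ℂ} {r : ℝ} (hr : 0 ≤ r) (h : ∀ z ∈ Z, ‖w - z‖ ≤ r) :
    ‖pz Z w‖ ≤ r ^ Z.card := by
  induction Z using Multiset.induction_on with
  | empty => simp [pz]
  | cons a Z ih =>
    rw [pz_cons, norm_mul, Multiset.card_cons, pow_succ']
    exact mul_le_mul (h a (Multiset.mem_cons_self _ _))
      (ih fun z hz => h z (Multiset.mem_cons_of_mem hz)) (norm_nonneg _) hr

theorem pz_conj {Z : Multiset ℂ} (h : Z.map (starRingEnd ℂ) = Z) (w : ℂ) :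
    ‖pz Z ((starRingEnd ℂ) w)‖ = ‖pz Z w‖ := by
  conv_lhs => rw [← h]
  rw [norm_pz, norm_pz, Multiset.map_map]
  refine congrArg _ (Multiset.map_congr rfl fun z _ => ?_)
  simp only [Function.comp_apply]
  rw [← map_sub, Complex.norm_conj]

theorem mem_dsc {T x : ℝ} (hT : 200 ≤ T) (hx : |x - 3 * T / 2| ≤ T / 20) {w : ℂ}
    (hw : w ∈ closedBall (x : ℂ) 2) : w ∈ dsc T := by
  unfold dsc
  rw [mem_ball]
  rw [mem_closedBall] at hw
  have h1 : dist (x : ℂ) ((3 * T / 2 : ℝ) : ℂ) ≤ T / 20 := by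
    rw [Complex.dist_eq, ← Complex.ofReal_sub, Complex.norm_real, Real.norm_eq_abs]
    exact hx
  have := dist_triangle w (x : ℂ) ((3 * T / 2 : ℝ) : ℂ)
  linarith

theorem taylor {C T x : ℝ} {h : ℂ → ℂ} (hC : 0 ≤ C) (hd : DifferentiableOn ℂ h (dsc T))
    (d2 : ∀ w ∈ dsc T, ∀ w' ∈ dsc T, ‖deriv h w - deriv h w'‖ ≤ C * Real.log T / T * ‖w - w'‖)
    (hT : 200 ≤ T) (hx : |x - 3 * T / 2| ≤ T / 20) {w w' : ℂ}
    (hw : w ∈ closedBall (x : ℂ) 2) (hw' : w' ∈ closedBall (x : ℂ) 2) :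
    ‖h w' - h w - (w' - w) * deriv h x‖ ≤ 2 * C * ‖w' - w‖ := by
  have hxm : (x : ℂ) ∈ dsc T := mem_dsc hT hx (mem_closedBall_self (by norm_num))
  have key := (convex_closedBall (x : ℂ) 2).norm_image_sub_le_of_norm_hasDerivWithin_le
    (f := fun z => h z - z * deriv h x) (f' := fun z => deriv h z - deriv h x) (C := 2 * C)
    (fun z hz => by
      have := ((hd.differentiableAt (isOpen_ball.mem_nhds (mem_dsc hT hx hz))).hasDerivAt).sub
        ((hasDerivAt_id z).mul_const (deriv h x))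
      simp only [one_mul, id] at this
      exact this.hasDerivWithinAt)
    (fun z hz => by
      refine (d2 z (mem_dsc hT hx hz) x hxm).trans ?_
      have h1 : ‖z - x‖ ≤ 2 := by
        rw [mem_closedBall, Complex.dist_eq] at hz; exact hz
      have h2 : Real.log T / T ≤ 1 := by
        rw [div_le_one (by linarith)]
        have := Real.log_le_sub_one_of_pos (show 0 < T by linarith)
        linarith
      have h4 : C * Real.log T / T ≤ C := by
        rw [mul_div_assoc]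
        exact mul_le_of_le_one_right hC h2
      calc C * Real.log T / T * ‖z - x‖ ≤ C * ‖z - x‖ :=
            mul_le_mul_of_nonneg_right h4 (norm_nonneg _)
        _ ≤ C * 2 := mul_le_mul_of_nonneg_left h1 hC
        _ = 2 * C := by ring) hw hw'
  refine le_of_eq_of_le ?_ key
  congr 1
  ring

theorem phase : ∃ K : ℝ, 0 ≤ K ∧ ∀ (C T : ℝ) (Z : Multiset ℂ) (h : ℂ → ℂ), 0 ≤ C → 200 ≤ T →
    Z.map (starRingEnd ℂ) = Z → DifferentiableOn ℂ h (dsc T) →
    (∀ w ∈ dsc T, zf w = pz Z w * exp (h w)) →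
    (∀ w ∈ dsc T, ∀ w' ∈ dsc T, ‖deriv h w - deriv h w'‖ ≤ C * Real.log T / T * ‖w - w'‖) →
    ∀ x : ℝ, |x - 3 * T / 2| ≤ T / 20 → |(deriv h x).im + Real.log T / 2| ≤ K + 6 * C := by
  obtain ⟨C₀, hC₀, hR⟩ := zf_right
  obtain ⟨c, C₁, hc, hC₁, hL⟩ := zf_left
  refine ⟨|Real.log c| + |Real.log C₁| + |Real.log C₀|, by positivity, ?_⟩
  intro C T Z h hC hT sym hd fac d2 x hx
  have hT0 : 0 < T := by linarith
  obtain ⟨hx1, hx2⟩ := abs_le.1 hx
  have m1 := Lower.vert_mem x (3 / 2) (by rw [abs_of_pos] <;> norm_num)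
  have m2 := Lower.vert_mem x (-(3 / 2)) (by rw [abs_neg, abs_of_pos] <;> norm_num)
  have f1 := congrArg norm (fac _ (mem_dsc hT hx m1))
  have f2 := congrArg norm (fac _ (mem_dsc hT hx m2))
  rw [norm_mul, Complex.norm_exp] at f1 f2
  have ec : (starRingEnd ℂ) ((x : ℂ) + (3 / 2 : ℝ) * I) = (x : ℂ) + (-(3 / 2) : ℝ) * I := by
    rw [map_add, map_mul, conj_ofReal, conj_ofReal, conj_I]; push_cast; ring
  rw [← pz_conj sym, ec] at f1
  obtain ⟨l1, l2⟩ := hL T (by linarith) x (by linarith) (by linarith)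
  obtain ⟨r0, r1, r2⟩ := hR ((x : ℂ) + (-(3 / 2) : ℝ) * I) (by simp; norm_num)
  have t := taylor hC hd d2 hT hx m2 m1
  set P := ‖pz Z ((x : ℂ) + (-(3 / 2) : ℝ) * I)‖ with hP
  set A := h ((x : ℂ) + (3 / 2 : ℝ) * I) with hA
  set B := h ((x : ℂ) + (-(3 / 2) : ℝ) * I) with hB
  have hz : 0 < ‖zf ((x : ℂ) + (-(3 / 2) : ℝ) * I)‖ := norm_pos_iff.2 r0
  have hP0 : 0 < P := by
    rw [f2] at hz
    exact (mul_pos_iff_of_pos_right (Real.exp_pos _)).1 hz
  have hr : 0 < T ^ (3 / 2 : ℝ) := Real.rpow_pos_of_pos hT0 _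
  rw [f1] at l1 l2
  rw [norm_inv, f2] at r2
  rw [f2] at r1
  have a1 := Real.log_le_log (by positivity) l1
  have a2 := Real.log_le_log (by positivity) l2
  have a3 := Real.log_le_log (by positivity) r1
  have a4 := Real.log_le_log (by positivity) r2
  rw [Real.log_mul hc.ne' hr.ne', Real.log_mul hP0.ne' (Real.exp_pos _).ne', Real.log_exp,
    Real.log_rpow hT0] at a1
  rw [Real.log_mul hC₁.ne' hr.ne', Real.log_mul hP0.ne' (Real.exp_pos _).ne', Real.log_exp,
    Real.log_rpow hT0] at a2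
  rw [Real.log_mul hP0.ne' (Real.exp_pos _).ne', Real.log_exp] at a3
  rw [Real.log_inv, Real.log_mul hP0.ne' (Real.exp_pos _).ne', Real.log_exp] at a4
  have e : (x : ℂ) + (3 / 2 : ℝ) * I - ((x : ℂ) + (-(3 / 2) : ℝ) * I) = (3 : ℝ) * I := by
    push_cast; ring
  rw [e, norm_mul, Complex.norm_I, Complex.norm_real, Real.norm_eq_abs,
    abs_of_pos (show (0 : ℝ) < 3 by norm_num)] at t
  have t2 := (Complex.abs_re_le_norm _).trans t
  have e2 : (A - B - ((3 : ℝ) : ℂ) * I * deriv h x).re = A.re - B.re + 3 * (deriv h x).im := by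
    simp
  rw [e2] at t2
  obtain ⟨t3, t4⟩ := abs_le.1 t2
  have b1 := le_abs_self (Real.log c)
  have b2 := neg_abs_le (Real.log c)
  have b3 := le_abs_self (Real.log C₁)
  have b4 := neg_abs_le (Real.log C₁)
  have b5 := le_abs_self (Real.log C₀)
  have b6 := neg_abs_le (Real.log C₀)
  rw [abs_le]
  constructor <;> linarith

end FAC

open FAC in
theorem fac : FacStmt := by
  obtain ⟨C₁, hC₁, hg₁⟩ := zf_growth
  obtain ⟨C₂, hC₂, hg₂⟩ := zf_right
  obtain ⟨K, hK, hph⟩ := FAC.phase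
  obtain ⟨D, hD⟩ : ∃ D, D = 115200 * (C₁ + C₂) := ⟨_, rfl⟩
  have hD0 : 0 < D := by rw [hD]; positivity
  refine ⟨K + 6 * D + 1, by linarith, ?_⟩
  filter_upwards [eventually_ge_atTop (320 : ℝ)] with T hT
  have hT0 : 0 < T := by linarith
  have hL : 1 ≤ Real.log T := Lower.log_pos' (by linarith)
  obtain ⟨Z, hZ⟩ := exZ hT0
  set L := Real.log T with hLdef
  set c : ℂ := ((3 * T / 2 : ℝ) : ℂ) with hc
  have hmem : ∀ z ∈ Z, |z.re - 3 * T / 2| ≤ T / 8 ∧ 0 < z.re ∧ |z.im| ≤ 1 / 2 := by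
    intro z hz
    have h1 := Multiset.count_ne_zero.2 hz
    rw [hZ] at h1
    by_cases h : |z.re - 3 * T / 2| ≤ T / 8
    · rw [if_pos h] at h1
      have h2 : 0 < z.re := by linarith [(abs_le.1 h).1]
      exact ⟨h, h2, im_le h2 (apply_eq_zero_of_analyticOrderNatAt_ne_zero h1)⟩
    · exact absurd (if_neg h) h1
  have hsym : Z.map (starRingEnd ℂ) = Z := by
    refine Multiset.ext.2 fun a => ?_
    have := Multiset.count_map_eq_count' (starRingEnd ℂ) Z (starRingEnd ℂ).injective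
      ((starRingEnd ℂ) a)
    rw [conj_conj] at this
    rw [this, hZ, hZ, conj_re]
    by_cases h : |a.re - 3 * T / 2| ≤ T / 8
    · rw [if_pos h, if_pos h, ord_conj (by linarith [(abs_le.1 h).1])]
    · rw [if_neg h, if_neg h]
  have hVc : ∀ z ∈ Z, ‖z - c‖ ≤ T / 8 + 1 / 2 := by
    intro z hz
    obtain ⟨h1, -, h2⟩ := hmem z hz
    refine (norm_le_abs_re_add_abs_im _).trans ?_
    simp only [hc, sub_re, ofReal_re, sub_im, ofReal_im, sub_zero]
    linarith
  have hball : ∀ w : ℂ, ‖w - c‖ ≤ T / 2 → T ≤ w.re ∧ w.re ≤ 2 * T ∧ |w.im| ≤ T := by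
    intro w hw
    have h1 := (abs_re_le_norm (w - c)).trans hw
    have h2 := (abs_im_le_norm (w - c)).trans hw
    simp only [hc, sub_re, ofReal_re, sub_im, ofReal_im, sub_zero] at h1 h2
    rw [abs_le] at h1
    exact ⟨by linarith [h1.1], by linarith [h1.2], by linarith⟩
  obtain ⟨g, hg, hfg⟩ := quot om zf_differentiableOn Z (fun z hz => (hmem z hz).2.1) fun z => by
    rw [hZ]
    by_cases h : |z.re - 3 * T / 2| ≤ T / 8
    · rw [if_pos h, Nat.cast_analyticOrderNatAt (ord_ne_top (by linarith [(abs_le.1 h).1]))]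
    · rw [if_neg h]; simp
  have hcb : closedBall c (T / 2) ⊆ {w : ℂ | 0 < w.re} := fun w hw =>
    lt_of_lt_of_le hT0 (hball w (by simpa [dist_eq_norm] using hw)).1
  have hmax : ∀ w ∈ ball c (T / 2 / 4), ‖g w‖ ≤ Real.exp (C₁ * T * L) / (T / 4) ^ Z.card := by
    intro w hw
    refine norm_le_of_forall_mem_frontier_norm_le (U := ball c (T / 2)) isBounded_ball
      (hg.diffContOnCl_ball hcb) (fun z hz => ?_)
      (subset_closure (ball_subset_ball (by linarith) hw))
    rw [frontier_ball c (by positivity), mem_sphere, dist_eq_norm] at hz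
    have hb := hball z hz.le
    have h1 := hg₁ T (by linarith) z hb.1 hb.2.1 hb.2.2
    have h2 : (T / 4) ^ Z.card ≤ ‖pz Z z‖ := pz_ge (by positivity) fun u hu => by
      have h3 : ‖z - c‖ ≤ ‖z - u‖ + ‖u - c‖ := by
        calc ‖z - c‖ = ‖(z - u) + (u - c)‖ := by congr 1; ring
          _ ≤ _ := norm_add_le _ _
      linarith [hVc u hu]
    rw [hfg z, norm_mul] at h1
    rw [le_div_iff₀ (by positivity)]
    calc ‖g z‖ * (T / 4) ^ Z.card ≤ ‖g z‖ * ‖pz Z z‖ := by gcongr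
      _ ≤ _ := by rw [mul_comm]; exact h1
  set w₀ : ℂ := c - I with hw₀
  have hw₀c : ‖w₀ - c‖ = 1 := by simp [hw₀]
  have hw₀b : w₀ ∈ ball c (T / 2 / 4) := by
    rw [mem_ball, dist_eq_norm, hw₀c]; linarith
  have hlow : 1 ≤ C₂ * (T / 7) ^ Z.card * ‖g w₀‖ := by
    obtain ⟨h1, -, h3⟩ := hg₂ w₀ (by simp [hw₀, hc]; norm_num)
    have h2 : ‖pz Z w₀‖ ≤ (T / 7) ^ Z.card := pz_le (by positivity) fun u hu => by
      have h3 : ‖w₀ - u‖ ≤ ‖w₀ - c‖ + ‖u - c‖ := by
        calc ‖w₀ - u‖ = ‖(w₀ - c) - (u - c)‖ := by congr 1; ring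
          _ ≤ _ := norm_sub_le _ _
      linarith [hVc u hu]
    have h4 : ‖zf w₀‖ ≤ (T / 7) ^ Z.card * ‖g w₀‖ := by
      rw [hfg w₀, norm_mul]; gcongr
    calc (1 : ℝ) = ‖(zf w₀)⁻¹‖ * ‖zf w₀‖ := by rw [← norm_mul, inv_mul_cancel₀ h1, norm_one]
      _ ≤ C₂ * ((T / 7) ^ Z.card * ‖g w₀‖) := by gcongr
      _ = _ := by ring
  have hne : ∀ w ∈ ball c (T / 2 / 4), g w ≠ 0 := by
    intro w hw
    have hw' : 0 < w.re := hcb (ball_subset_closedBall (ball_subset_ball (by linarith) hw))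
    rw [mem_ball, dist_eq_norm] at hw
    have h1 := (abs_re_le_norm (w - c)).trans hw.le
    simp only [hc, sub_re, ofReal_re] at h1
    have h2 := ord_mul om hg hfg (z := w) hw'
    rw [hZ, if_pos (by linarith), ← Nat.cast_analyticOrderNatAt (ord_ne_top hw')] at h2
    refine (hg.analyticAt (om.mem_nhds hw')).analyticOrderAt_eq_zero.1 ?_
    exact WithTop.add_left_cancel (ENat.natCast_ne_top _) (h2.symm.trans (add_zero _).symm)
  obtain ⟨h, hd, hgh⟩ := Factor.exists_log g c (T / 2 / 4)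
    (hg.mono fun w hw => hcb (ball_subset_closedBall (ball_subset_ball (by linarith) hw))) hne
  have h3 : C₂ ≤ Real.exp C₂ := by linarith [Real.add_one_le_exp C₂]
  have h7 : 1 ≤ T * L := by nlinarith
  have hq : ∀ w ∈ ball c (T / 2 / 4),
      (7 / 4 : ℝ) ^ Z.card * ‖g w‖ ≤ Real.exp ((C₁ + C₂) * T * L) * ‖g w₀‖ := by
    intro w hw
    calc (7 / 4 : ℝ) ^ Z.card * ‖g w‖ = (7 / 4 : ℝ) ^ Z.card * (‖g w‖ * 1) := by rw [mul_one]
      _ ≤ (7 / 4 : ℝ) ^ Z.card * (Real.exp (C₁ * T * L) / (T / 4) ^ Z.card *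
          (C₂ * (T / 7) ^ Z.card * ‖g w₀‖)) := by
          gcongr
          exact hmax w hw
      _ ≤ (7 / 4 : ℝ) ^ Z.card * (Real.exp (C₁ * T * L) / (T / 4) ^ Z.card *
          (Real.exp C₂ * (T / 7) ^ Z.card * ‖g w₀‖)) := by gcongr
      _ = Real.exp (C₁ * T * L + C₂) * ‖g w₀‖ := by
          have : (T / 4) ^ Z.card = (7 / 4) ^ Z.card * (T / 7) ^ Z.card := by
            rw [← mul_pow]; congr 1; ring
          rw [this, Real.exp_add]
          field_simp
      _ ≤ _ := by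
          gcongr
          nlinarith
  have hcard : (Z.card : ℝ) ≤ 2 * ((C₁ + C₂) * T * L) := by
    have h1 := le_of_mul_le_mul_right (hq w₀ hw₀b) (norm_pos_iff.2 (hne w₀ hw₀b))
    have h2 : Real.exp (1 / 2) ≤ 7 / 4 := by
      have h4 : Real.exp (1 / 2) ^ 2 = Real.exp 1 := by rw [← Real.exp_nat_mul]; norm_num
      refine (sq_le_sq₀ (Real.exp_pos _).le (by norm_num)).1 ?_
      rw [h4]
      linarith [Real.exp_one_lt_d9]
    have h4 : Real.exp (Z.card * (1 / 2)) ≤ (7 / 4 : ℝ) ^ Z.card := by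
      rw [Real.exp_nat_mul]; gcongr
    have := Real.exp_le_exp.1 (h4.trans h1)
    linarith
  have hre : ∀ w ∈ ball c (T / 2 / 4), (h w - h w₀).re ≤ (C₁ + C₂) * T * L := by
    intro w hw
    have h1 := (le_mul_of_one_le_left (norm_nonneg _)
      (one_le_pow₀ (by norm_num : (1 : ℝ) ≤ 7 / 4))).trans (hq w hw)
    rw [hgh w hw, hgh w₀ hw₀b, norm_exp, norm_exp, ← Real.exp_add, Real.exp_le_exp] at h1
    rw [sub_re]
    linarith
  obtain ⟨d1, d2⟩ := Factor.deriv_bounds h c w₀ (T / 2) _ (by linarith) (by positivity)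
    (by rw [hw₀c]; norm_num) hd hre
  have hsub : dsc T ⊆ ball c (T / 2 / 4) := ball_subset_ball (by linarith)
  have hfac : ∀ w ∈ dsc T, zf w = pz Z w * exp (h w) := fun w hw => by
    rw [hfg w, hgh w (hsub hw)]
  have hd2 : ∀ w ∈ dsc T, ∀ w' ∈ dsc T, ‖deriv h w - deriv h w'‖ ≤ D * L / T * ‖w - w'‖ := by
    intro w hw w' hw'
    refine (d2 w (ball_subset_ball (by linarith) hw) w'
      (ball_subset_ball (by linarith) hw')).trans (le_of_eq ?_)
    rw [hD]
    field_simp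
    ring
  have hDC : D ≤ K + 6 * D + 1 := by linarith
  refine ⟨Z, h, fun z => by rw [hZ, ord_zeta], hsym, fun z hz => (hmem z hz).2.2, ?_,
    hd.mono hsub, hfac, fun w hw => ?_, fun w hw w' hw' => (hd2 w hw w' hw').trans ?_,
    fun x hx => ?_⟩
  · refine hcard.trans ?_
    have : 2 * (C₁ + C₂) ≤ K + 6 * D + 1 := by linarith
    calc 2 * ((C₁ + C₂) * T * L) = 2 * (C₁ + C₂) * T * L := by ring
      _ ≤ _ := by gcongr
  · refine (d1 w (ball_subset_ball (by linarith) hw)).trans ?_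
    have : 720 * ((C₁ + C₂) * T * L) / (T / 2) = 1440 * (C₁ + C₂) * L := by
      field_simp; ring
    rw [this]
    have : 1440 * (C₁ + C₂) ≤ K + 6 * D + 1 := by linarith
    gcongr
  · gcongr
  · linarith [hph D T Z h hD0.le (by linarith) hsym (hd.mono hsub) hfac hd2 x hx]

end Pool.Agent.MP_ca0a54_nt.H13
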