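import Pool.Agent.MP_ca0a54_nt.H13.Spec

/-!
The Bessel bound for the Gabor system and the averaging step.
-/

open Complex MeasureTheory Filter Topology

namespace Pool.Agent.MP_ca0a54_nt.H13

open Pool.Agent.MP_ca0a54_nt.L0 Pool.Agent.MP_ca0a54_nt.H24

namespace Gab

theorem summ : Summable fun n : ℤ => Real.exp (-(n : ℝ) ^ 2 / 8) := by
  have h : Summable fun n : ℕ => Real.exp (-(n : ℝ) ^ 2 / 8) := by
    refine Summable.of_nonneg_of_le (fun n => (Real.exp_pos _).le) (fun n => ?_)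
      (Real.summable_exp_neg_nat.mul_left (Real.exp 2))
    rw [← Real.exp_add]
    apply Real.exp_le_exp.2
    nlinarith [sq_nonneg ((n : ℝ) - 4)]
  refine Summable.of_nat_of_neg ?_ ?_
  · simpa using h
  · simpa using h

/-- The row bound. -/
noncomputable def B0 : ℝ := ∑' n : ℤ, Real.exp (-(n : ℝ) ^ 2 / 8)

theorem one_le_B0 : 1 ≤ B0 := by
  have := summ.sum_le_tsum {(0 : ℤ)} fun n _ => (Real.exp_pos _).le
  simpa [B0] using this

theorem row (D : ℕ) (j : Fin D) : ∑ j' : Fin D, Real.exp (-((j : ℝ) - j') ^ 2 / 8) ≤ B0 := by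
  classical
  have hinj : Function.Injective fun j' : Fin D => ((j : ℕ) : ℤ) - ((j' : ℕ) : ℤ) := by
    intro a b hab
    apply Fin.ext
    simp only at hab
    omega
  have h := summ.sum_le_tsum (Finset.univ.map ⟨_, hinj⟩) fun n _ => (Real.exp_pos _).le
  rw [Finset.sum_map] at h
  refine le_trans (le_of_eq ?_) h
  refine Finset.sum_congr rfl fun j' _ => ?_
  simp

theorem gb_mul (t ξ t' ξ' x : ℝ) : gb t ξ x * (starRingEnd ℂ) (gb t' ξ' x) =
    exp ((-1 : ℂ) * (x : ℂ) ^ 2 + ((t + t' : ℝ) + I * (ξ - ξ' : ℝ)) * x +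
      ((-(t ^ 2 + t' ^ 2) / 2 : ℝ) : ℂ)) := by
  unfold gb
  rw [← Complex.exp_conj, ← Complex.exp_add]
  congr 1
  simp only [map_sub, map_mul, map_div₀, map_pow, conj_I, conj_ofReal, map_ofNat]
  push_cast
  ring

theorem gb_int (t ξ t' ξ' : ℝ) :
    Integrable fun x : ℝ => gb t ξ x * (starRingEnd ℂ) (gb t' ξ' x) := by
  simp only [gb_mul]
  exact integrable_cexp_quadratic' (by simp) _ _

theorem gb_val (t ξ t' ξ' : ℝ) :
    ‖∫ x : ℝ, gb t ξ x * (starRingEnd ℂ) (gb t' ξ' x)‖ ≤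
      2 * (Real.exp (-(t - t') ^ 2 / 8) * Real.exp (-(ξ - ξ') ^ 2 / 8)) := by
  simp only [gb_mul]
  rw [integral_cexp_quadratic (by simp), norm_mul, Complex.norm_exp, ← Real.exp_add]
  have h1 : ‖((Real.pi : ℂ) / -(-1)) ^ (1 / 2 : ℂ)‖ ≤ 2 := by
    have e : ((Real.pi : ℂ) / -(-1)) ^ (1 / 2 : ℂ) = ((Real.pi ^ (1 / 2 : ℝ) : ℝ) : ℂ) := by
      rw [Complex.ofReal_cpow Real.pi_pos.le]
      simp
    rw [e, Complex.norm_real, Real.norm_eq_abs, ← Real.sqrt_eq_rpow, abs_of_nonneg (Real.sqrt_nonneg _)]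
    apply Real.sqrt_le_iff.2
    exact ⟨by norm_num, by linarith [Real.pi_le_four]⟩
  refine mul_le_mul h1 (Real.exp_le_exp.2 ?_) (Real.exp_pos _).le (by norm_num)
  have e : ((-(t ^ 2 + t' ^ 2) / 2 : ℝ) : ℂ) - (((t + t' : ℝ) : ℂ) + I * (ξ - ξ' : ℝ)) ^ 2 / (4 * -1) =
      ((-(t - t') ^ 2 / 4 - (ξ - ξ') ^ 2 / 4 : ℝ) : ℂ) + (((t + t') * (ξ - ξ') / 2 : ℝ) : ℂ) * I := by
    push_cast
    linear_combination ((ξ - ξ' : ℂ) ^ 2 / 4) * I_sq
  rw [e]
  simp only [add_re, ofReal_re, mul_re, I_re, mul_zero, ofReal_im, I_im, mul_one, sub_self,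
    add_zero]
  nlinarith [sq_nonneg (t - t'), sq_nonneg (ξ - ξ')]

theorem schur {ι : Type} [Fintype ι] (K : ι → ι → ℝ) (B : ℝ) (h0 : ∀ i i', 0 ≤ K i i')
    (hs : ∀ i i', K i i' = K i' i) (hB : ∀ i, ∑ i', K i i' ≤ B) (v : ι → ℝ) :
    ∑ i, ∑ i', v i * v i' * K i i' ≤ B * ∑ i, v i ^ 2 := by
  have h1 : ∑ i, ∑ i', v i * v i' * K i i' ≤
      ∑ i, ∑ i', (v i ^ 2 * K i i' / 2 + v i' ^ 2 * K i' i / 2) := by
    refine Finset.sum_le_sum fun i _ => Finset.sum_le_sum fun i' _ => ?_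
    rw [hs i' i]
    nlinarith [mul_nonneg (sq_nonneg (v i - v i')) (h0 i i')]
  have h2 : ∑ i, ∑ i', (v i ^ 2 * K i i' / 2 + v i' ^ 2 * K i' i / 2) =
      ∑ i, v i ^ 2 * ∑ i', K i i' := by
    simp only [Finset.sum_add_distrib]
    rw [Finset.sum_comm (f := fun i i' => v i' ^ 2 * K i' i / 2), ← Finset.sum_add_distrib]
    refine Finset.sum_congr rfl fun i _ => ?_
    rw [← Finset.sum_add_distrib, Finset.mul_sum]
    refine Finset.sum_congr rfl fun i' _ => by ring
  rw [h2] at h1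
  refine h1.trans ?_
  rw [Finset.mul_sum]
  refine Finset.sum_le_sum fun i _ => ?_
  rw [mul_comm B]
  exact mul_le_mul_of_nonneg_left (hB i) (sq_nonneg _)

theorem bessel (D₁ D₂ : ℕ) (τ : ℝ) (v : Fin D₂ × Fin D₁ → ℂ) :
    ∫ x : ℝ, ‖∑ i, v i * gb (τ + i.1) i.2 x‖ ^ 2 ≤ 2 * B0 ^ 2 * ∑ i, ‖v i‖ ^ 2 := by
  have e : ∀ x : ℝ, ((‖∑ i, v i * gb (τ + i.1) i.2 x‖ ^ 2 : ℝ) : ℂ) =
      ∑ i, ∑ i', v i * (starRingEnd ℂ) (v i') *
        (gb (τ + i.1) i.2 x * (starRingEnd ℂ) (gb (τ + i'.1) i'.2 x)) := by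
    intro x
    rw [Complex.ofReal_pow, ← Complex.mul_conj', map_sum, Finset.sum_mul_sum]
    refine Finset.sum_congr rfl fun i _ => Finset.sum_congr rfl fun i' _ => ?_
    rw [map_mul]
    ring
  have e2 : ((∫ x : ℝ, ‖∑ i, v i * gb (τ + i.1) i.2 x‖ ^ 2 : ℝ) : ℂ) =
      ∑ i, ∑ i', v i * (starRingEnd ℂ) (v i') *
        ∫ x : ℝ, (gb (τ + i.1) i.2 x * (starRingEnd ℂ) (gb (τ + i'.1) i'.2 x)) := by
    rw [← integral_complex_ofReal]
    simp only [e]
    rw [integral_finsetSum _ fun i _ => integrable_finsetSum _ fun i' _ =>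
      (gb_int _ _ _ _).const_mul _]
    refine Finset.sum_congr rfl fun i _ => ?_
    rw [integral_finsetSum _ fun i' _ => (gb_int _ _ _ _).const_mul _]
    refine Finset.sum_congr rfl fun i' _ => ?_
    rw [integral_const_mul]
  have h1 : ∫ x : ℝ, ‖∑ i, v i * gb (τ + i.1) i.2 x‖ ^ 2 ≤
      ‖((∫ x : ℝ, ‖∑ i, v i * gb (τ + i.1) i.2 x‖ ^ 2 : ℝ) : ℂ)‖ := by
    rw [Complex.norm_real]
    exact le_abs_self _
  rw [e2] at h1
  refine h1.trans ((norm_sum_le _ _).trans ?_)
  refine le_trans ?_ (schur (fun i i' : Fin D₂ × Fin D₁ =>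
    2 * (Real.exp (-((i.1 : ℝ) - i'.1) ^ 2 / 8) * Real.exp (-((i.2 : ℝ) - i'.2) ^ 2 / 8)))
    (2 * B0 ^ 2) (fun i i' => by positivity) (fun i i' => ?_) (fun i => ?_) fun i => ‖v i‖)
  · refine Finset.sum_le_sum fun i _ => (norm_sum_le _ _).trans (Finset.sum_le_sum fun i' _ => ?_)
    rw [norm_mul, norm_mul, Complex.norm_conj]
    refine mul_le_mul_of_nonneg_left ?_ (by positivity)
    have := gb_val (τ + i.1) i.2 (τ + i'.1) i'.2
    rwa [add_sub_add_left_eq_sub] at this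
  · rw [← neg_sub (i.1 : ℝ), ← neg_sub (i.2 : ℝ), neg_sq, neg_sq]
  · rw [← Finset.mul_sum, Fintype.sum_prod_type]
    simp only
    rw [← Finset.sum_mul_sum, sq B0]
    refine mul_le_mul_of_nonneg_left ?_ (by norm_num)
    exact mul_le_mul (row _ _) (row _ _) (Finset.sum_nonneg fun _ _ => (Real.exp_pos _).le)
      (by linarith [one_le_B0])

theorem g_int : Integrable fun x : ℝ => Real.exp (-x ^ 2) := by
  simpa using integrable_exp_neg_mul_sq (b := 1) one_pos

theorem g_val : 1 ≤ ∫ x : ℝ, Real.exp (-x ^ 2) := by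
  have h := integral_gaussian 1
  simp only [neg_mul, one_mul, div_one] at h
  rw [h]
  apply Real.le_sqrt_of_sq_le
  linarith [Real.pi_gt_three]

end Gab

open Gab in
theorem gab : GabStmt := by
  have h1 := one_le_B0
  refine ⟨2 * B0 ^ 2, by nlinarith, fun D j => (row D j).trans (by nlinarith), bessel⟩

open Gab in
theorem avg : AvgStmt := by
  intro H M t₀ m D hc hB hm h
  set G : ℝ → ℝ := fun s => ∑ j : Fin D, H (s + j) with hG
  have hGc : Continuous G := by
    rw [hG]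
    fun_prop
  have hGb : ∀ s, |G s| ≤ D * M := by
    intro s
    refine (Finset.abs_sum_le_sum_abs _ _).trans ?_
    refine (Finset.sum_le_sum fun j _ => hB _).trans ?_
    simp
  have hGi : ∀ x : ℝ, m ≤ ∫ s in (t₀ + x)..(t₀ + 1 + x), G s := by
    intro x
    refine (h x).trans (le_of_eq ?_)
    simp only [hG]
    rw [intervalIntegral.integral_finsetSum fun (j : Fin D) _ =>
      (by fun_prop : Continuous fun s : ℝ => H (s + (j : ℕ))).intervalIntegrable _ _]
    have := intervalIntegral.sum_integral_adjacent_intervals (f := H) (μ := volume)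
      (a := fun k : ℕ => t₀ + k + x) (n := D) fun k _ => hc.intervalIntegrable _ _
    simp only [Nat.cast_zero, add_zero] at this
    rw [← this, ← Fin.sum_univ_eq_sum_range
      (fun k : ℕ => ∫ s in (t₀ + k + x)..(t₀ + (k + 1 : ℕ) + x), H s)]
    refine Finset.sum_congr rfl fun j _ => ?_
    rw [intervalIntegral.integral_comp_add_right]
    congr 1
    · ring
    · push_cast
      ring
  have hint : Integrable (Function.uncurry fun t x : ℝ => G (t + x) * Real.exp (-x ^ 2))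
      ((volume.restrict (Set.uIoc t₀ (t₀ + 1))).prod volume) := by
    have : IsFiniteMeasure (volume.restrict (Set.uIoc t₀ (t₀ + 1))) := by
      refine ⟨?_⟩
      rw [Measure.restrict_apply_univ, Set.uIoc]
      exact measure_Ioc_lt_top
    have h1 : Integrable (fun p : ℝ × ℝ => (D * M) * Real.exp (-p.2 ^ 2))
        ((volume.restrict (Set.uIoc t₀ (t₀ + 1))).prod volume) :=
      (integrable_const (D * M)).mul_prod g_int
    refine h1.mono' ?_ (Eventually.of_forall fun p => ?_)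
    · apply Continuous.aestronglyMeasurable
      unfold Function.uncurry
      fun_prop
    · simp only [Function.uncurry]
      rw [Real.norm_eq_abs, abs_mul, abs_of_pos (Real.exp_pos _)]
      exact mul_le_mul_of_nonneg_right (hGb _) (Real.exp_pos _).le
  have hF : m ≤ ∫ t in t₀..(t₀ + 1), (∫ x : ℝ, G (t + x) * Real.exp (-x ^ 2)) := by
    rw [intervalIntegral_integral_swap hint]
    have h2 : ∀ x : ℝ, m * Real.exp (-x ^ 2) ≤
        ∫ t in t₀..(t₀ + 1), G (t + x) * Real.exp (-x ^ 2) := by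
      intro x
      rw [intervalIntegral.integral_mul_const, intervalIntegral.integral_comp_add_right]
      exact mul_le_mul_of_nonneg_right (hGi x) (Real.exp_pos _).le
    have h3 : Integrable fun x : ℝ => ∫ t in t₀..(t₀ + 1), G (t + x) * Real.exp (-x ^ 2) := by
      have := hint.integral_prod_right
      simp only [Function.uncurry] at this
      simp only [intervalIntegral.intervalIntegral_eq_integral_uIoc]
      exact this.smul (if t₀ ≤ t₀ + 1 then (1 : ℝ) else -1)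
    calc m ≤ m * ∫ x : ℝ, Real.exp (-x ^ 2) := le_mul_of_one_le_right hm g_val
      _ = ∫ x : ℝ, m * Real.exp (-x ^ 2) := (integral_const_mul _ _).symm
      _ ≤ _ := integral_mono (g_int.const_mul m) h3 h2
  have hle : t₀ ≤ t₀ + 1 := by linarith
  have hFi : IntegrableOn (fun t => ∫ x : ℝ, G (t + x) * Real.exp (-x ^ 2))
      (Set.Ioc t₀ (t₀ + 1)) volume := by
    have := hint.integral_prod_left
    rw [Set.uIoc_of_le hle] at this
    exact this
  have hv : volume (Set.Ioc t₀ (t₀ + 1)) = 1 := by simp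
  obtain ⟨τ, hτ, hτ2⟩ := exists_setAverage_le (μ := volume) (s := Set.Ioc t₀ (t₀ + 1))
    (by rw [hv]; exact one_ne_zero) (by rw [hv]; exact ENNReal.one_ne_top) hFi
  refine ⟨τ, hτ.1.le, hτ.2, ?_⟩
  rw [setAverage_eq, Measure.real, hv, ← intervalIntegral.integral_of_le hle] at hτ2
  simp only [ENNReal.toReal_one, inv_one, smul_eq_mul, one_mul] at hτ2
  refine hF.trans (hτ2.trans (le_of_eq ?_))
  rw [← integral_finsetSum]
  · refine integral_congr_ae (Eventually.of_forall fun x => ?_)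
    simp only [hG]
    rw [Finset.sum_mul]
    refine Finset.sum_congr rfl fun j _ => ?_
    rw [add_right_comm]
  · intro j _
    refine (g_int.const_mul M).mono' ?_ (Eventually.of_forall fun x => ?_)
    · apply Continuous.aestronglyMeasurable
      fun_prop
    · rw [Real.norm_eq_abs, abs_mul, abs_of_pos (Real.exp_pos _)]
      exact mul_le_mul_of_nonneg_right (hB _) (Real.exp_pos _).le

end Pool.Agent.MP_ca0a54_nt.H13
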