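import Pool.Agent.MP_ca0a54_nt.H13.Spec

/-!
Row INERT: the trace of a form is carried by the complement of a negative subspace.
-/

open Complex MeasureTheory Filter Topology

namespace Pool.Agent.MP_ca0a54_nt.H13

namespace Inert

open scoped InnerProductSpace

variable {ι : Type} [Fintype ι] [DecidableEq ι]

lemma proj (U : Submodule ℂ (EuclideanSpace ℂ ι)) {κ : Type} [Fintype κ]
    (b : OrthonormalBasis κ ℂ U) (i i' : ι) :
    U.starProjection (EuclideanSpace.single i' 1) i
      = ∑ k, (b k : EuclideanSpace ℂ ι) i * (starRingEnd ℂ) ((b k : EuclideanSpace ℂ ι) i') := by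
  rw [b.starProjection_eq_sum_rankOne]
  simp [EuclideanSpace.inner_single_right, mul_comm]

lemma delta (U : Submodule ℂ (EuclideanSpace ℂ ι)) {κ κ' : Type} [Fintype κ] [Fintype κ']
    (b : OrthonormalBasis κ ℂ U) (d : OrthonormalBasis κ' ℂ Uᗮ) (i i' : ι) :
    ∑ k, (b k : EuclideanSpace ℂ ι) i * (starRingEnd ℂ) ((b k : EuclideanSpace ℂ ι) i')
      + ∑ k, (d k : EuclideanSpace ℂ ι) i * (starRingEnd ℂ) ((d k : EuclideanSpace ℂ ι) i')
      = if i = i' then 1 else 0 := by
  rw [← proj U b, ← proj Uᗮ d, ← PiLp.add_apply, U.starProjection_add_starProjection_orthogonal]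
  simp

omit [DecidableEq ι] in
lemma swap {κ : Type} [Fintype κ] (A : ι → ι → ℂ) (e : κ → ι → ℂ) :
    ∑ k, ∑ i, ∑ i', e k i * (starRingEnd ℂ) (e k i') * A i i'
      = ∑ i, ∑ i', (∑ k, e k i * (starRingEnd ℂ) (e k i')) * A i i' := by
  rw [Finset.sum_comm]
  refine Finset.sum_congr rfl fun i _ => ?_
  rw [Finset.sum_comm]
  exact Finset.sum_congr rfl fun i' _ => (Finset.sum_mul _ _ _).symm

end Inert

theorem inert : InertStmt := by
  classical
  intro ι _ A W n hn hW
  let φ := (WithLp.linearEquiv 2 ℂ (ι → ℂ)).symm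
  let U : Submodule ℂ (EuclideanSpace ℂ ι) := W.map φ.toLinearMap
  have hU : Module.finrank ℂ U = Module.finrank ℂ W := φ.finrank_map_eq W
  have hs := U.finrank_add_finrank_orthogonal
  rw [finrank_euclideanSpace] at hs
  let b := stdOrthonormalBasis ℂ U
  let d := stdOrthonormalBasis ℂ Uᗮ
  have od : Orthonormal ℂ fun k => (d k : EuclideanSpace ℂ ι) :=
    d.orthonormal.comp_linearIsometry Uᗮ.subtypeₗᵢ
  refine ⟨_, fun k i => (d k : EuclideanSpace ℂ ι) i, by omega, by omega, fun k => ?_,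
    fun v => ?_, ?_⟩
  · rw [← EuclideanSpace.norm_sq_eq, od.1 k, one_pow]
  · have h := od.sum_inner_products_le (s := Finset.univ)
      (WithLp.toLp 2 fun i => (starRingEnd ℂ) (v i))
    rw [EuclideanSpace.norm_sq_eq] at h
    simp only [PiLp.inner_apply, RCLike.inner_apply, ← map_mul, ← map_sum, RCLike.norm_conj] at h
    simpa only [mul_comm] using h
  · have e : ∑ i, A i i = ∑ k, ∑ i, ∑ i', (b k : EuclideanSpace ℂ ι) i *
          (starRingEnd ℂ) ((b k : EuclideanSpace ℂ ι) i') * A i i'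
        + ∑ k, ∑ i, ∑ i', (d k : EuclideanSpace ℂ ι) i *
          (starRingEnd ℂ) ((d k : EuclideanSpace ℂ ι) i') * A i i' := by
      rw [Inert.swap A fun k i => (b k : EuclideanSpace ℂ ι) i,
        Inert.swap A fun k i => (d k : EuclideanSpace ℂ ι) i, ← Finset.sum_add_distrib]
      refine Finset.sum_congr rfl fun i _ => ?_
      rw [← Finset.sum_add_distrib]
      simp only [← add_mul, Inert.delta U b d]
      simp
    rw [e, add_im, im_sum, im_sum]
    refine add_le_of_nonpos_left (Finset.sum_nonpos fun k _ => hW _ ?_)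
    obtain ⟨w, hw, ew⟩ := (b k).2
    rw [← ew]
    exact hw

end Pool.Agent.MP_ca0a54_nt.H13
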