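import Pool.Agent.MP_ca0a54_nt.H13.Spec

/-!
The trace inequality for the compression of a multiplication operator to a Gabor system.
-/

open Complex MeasureTheory Filter Topology

namespace Pool.Agent.MP_ca0a54_nt.H13

open Pool.Agent.MP_ca0a54_nt.L0 Pool.Agent.MP_ca0a54_nt.H24

namespace Key

lemma norm_gb (t ξ x : ℝ) : ‖gb t ξ x‖ = Real.exp (-(x - t) ^ 2 / 2) := by
  have h : I * ξ * x - ((x : ℂ) - t) ^ 2 / 2 = ((-(x - t) ^ 2 / 2 : ℝ) : ℂ) + ((ξ * x : ℝ) : ℂ) * I := by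
    push_cast; ring
  rw [gb, h, exp_add, norm_mul, norm_exp_ofReal_mul_I, mul_one, norm_exp_ofReal]

lemma sq_gb (t ξ x : ℝ) : ‖gb t ξ x‖ ^ 2 = Real.exp (-(x - t) ^ 2) := by
  rw [norm_gb, ← Real.exp_nat_mul]; congr 1; push_cast; ring

lemma gb_conj (t ξ x : ℝ) :
    gb t ξ x * (starRingEnd ℂ) (gb t ξ x) = ((Real.exp (-(x - t) ^ 2) : ℝ) : ℂ) := by
  rw [mul_conj, normSq_eq_norm_sq, sq_gb]

lemma cont_gb (t ξ : ℝ) : Continuous fun x : ℝ => gb t ξ x := by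
  unfold gb; fun_prop

lemma int_w (t : ℝ) : Integrable fun x : ℝ => Real.exp (-(x - t) ^ 2) := by
  have h := (integrable_exp_neg_mul_sq (b := 1) one_pos).comp_sub_right t
  simpa using h

lemma int_w2 (t : ℝ) : Integrable fun x : ℝ => Real.exp (-(x - t) ^ 2 / 2) := by
  have h := (integrable_exp_neg_mul_sq (b := 1 / 2) (by norm_num)).comp_sub_right t
  refine h.congr (Eventually.of_forall fun x => ?_)
  simp only
  congr 1; ring

lemma int_K (K : ℝ → ℂ) (hK : Continuous K) (M : ℝ) (hM : ∀ x, ‖K x‖ ≤ M) (t ξ t' ξ' : ℝ) :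
    Integrable fun x : ℝ => K x * (gb t ξ x * (starRingEnd ℂ) (gb t' ξ' x)) := by
  refine ((int_w2 t).const_mul M).mono' ?_ (Eventually.of_forall fun x => ?_)
  · exact (hK.mul ((cont_gb t ξ).mul (continuous_conj.comp (cont_gb t' ξ')))).aestronglyMeasurable
  · rw [norm_mul, norm_mul, RCLike.norm_conj, norm_gb, norm_gb]
    have h1 : Real.exp (-(x - t') ^ 2 / 2) ≤ 1 := Real.exp_le_one_iff.2 (by nlinarith [sq_nonneg (x - t')])
    have h2 := Real.exp_pos (-(x - t) ^ 2 / 2)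
    have h3 : Real.exp (-(x - t) ^ 2 / 2) * Real.exp (-(x - t') ^ 2 / 2) ≤ Real.exp (-(x - t) ^ 2 / 2) := by
      nlinarith
    exact mul_le_mul (hM x) h3 (by positivity) ((norm_nonneg _).trans (hM x))

lemma int_F (F : ℝ → ℝ) (hF : Continuous F) (M : ℝ) (hM : ∀ x, |F x| ≤ M) (t : ℝ) :
    Integrable fun x : ℝ => F x * Real.exp (-(x - t) ^ 2) := by
  refine ((int_w t).const_mul M).mono' ?_ (Eventually.of_forall fun x => ?_)
  · exact (hF.mul (by fun_prop)).aestronglyMeasurable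
  · rw [norm_mul, Real.norm_eq_abs, Real.norm_eq_abs, abs_of_pos (Real.exp_pos _)]
    exact mul_le_mul_of_nonneg_right (hM x) (Real.exp_pos _).le

lemma shift (F : ℝ → ℝ) (t : ℝ) :
    ∫ x : ℝ, F (t + x) * Real.exp (-x ^ 2) = ∫ x : ℝ, F x * Real.exp (-(x - t) ^ 2) := by
  rw [← integral_add_left_eq_self (fun x : ℝ => F x * Real.exp (-(x - t) ^ 2)) t]
  simp

/-- The sesquilinear form of an integral kernel. -/
lemma form {ι : Type} [Fintype ι] (K : ℝ → ℂ) (g : ι → ℝ → ℂ)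
    (hi : ∀ i i', Integrable fun x : ℝ => K x * (g i x * (starRingEnd ℂ) (g i' x))) (u v : ι → ℂ) :
    ∑ i, ∑ i', u i * (starRingEnd ℂ) (v i') * ∫ x : ℝ, K x * (g i x * (starRingEnd ℂ) (g i' x)) =
      ∫ x : ℝ, K x * ((∑ i, u i * g i x) * (starRingEnd ℂ) (∑ i, v i * g i x)) := by
  have h1 : ∀ x, K x * ((∑ i, u i * g i x) * (starRingEnd ℂ) (∑ i, v i * g i x)) =
      ∑ i, ∑ i', u i * (starRingEnd ℂ) (v i') * (K x * (g i x * (starRingEnd ℂ) (g i' x))) := by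
    intro x
    rw [map_sum, Finset.sum_mul_sum, Finset.mul_sum]
    refine Finset.sum_congr rfl fun i _ => ?_
    rw [Finset.mul_sum]
    refine Finset.sum_congr rfl fun i' _ => ?_
    rw [map_mul]; ring
  simp_rw [h1]
  rw [integral_finsetSum _ fun i _ => integrable_finsetSum _ fun i' _ => (hi i i').const_mul _]
  refine Finset.sum_congr rfl fun i _ => ?_
  rw [integral_finsetSum _ fun i' _ => (hi i i').const_mul _]
  refine Finset.sum_congr rfl fun i' _ => ?_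
  rw [integral_const_mul]

/-- The Schur test. -/
lemma schur {ι : Type} [Fintype ι] (e : ι → ℂ) (E : ι → ι → ℂ) (ω : ι → ι → ℝ) (β : ℝ)
    (he : ∑ i, ‖e i‖ ^ 2 = 1) (hE : ∀ i i', ‖E i i'‖ ≤ ω i i') (hs : ∀ i i', ω i i' = ω i' i)
    (hβ : ∀ i, ∑ i', ω i i' ≤ β) :
    ‖∑ i, ∑ i', e i * (starRingEnd ℂ) (e i') * E i i'‖ ≤ β := by
  have h0 : ∀ i i', 0 ≤ ω i i' := fun i i' => (norm_nonneg _).trans (hE i i')
  have h1 : ∀ i i', ‖e i * (starRingEnd ℂ) (e i') * E i i'‖ ≤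
      ‖e i‖ ^ 2 * ω i i' / 2 + ‖e i'‖ ^ 2 * ω i' i / 2 := by
    intro i i'
    rw [norm_mul, norm_mul, RCLike.norm_conj, hs i' i]
    have h2 : ‖e i‖ * ‖e i'‖ * ‖E i i'‖ ≤ ‖e i‖ * ‖e i'‖ * ω i i' :=
      mul_le_mul_of_nonneg_left (hE i i') (by positivity)
    nlinarith [mul_nonneg (sq_nonneg (‖e i‖ - ‖e i'‖)) (h0 i i')]
  have h3 : ∑ i, ∑ i', ‖e i‖ ^ 2 * ω i i' / 2 ≤ β / 2 := by
    calc ∑ i, ∑ i', ‖e i‖ ^ 2 * ω i i' / 2 ≤ ∑ i, ‖e i‖ ^ 2 * (β / 2) := by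
          refine Finset.sum_le_sum fun i _ => ?_
          rw [← Finset.sum_div, ← Finset.mul_sum]
          have := mul_le_mul_of_nonneg_left (hβ i) (sq_nonneg ‖e i‖)
          linarith
      _ = β / 2 := by rw [← Finset.sum_mul, he, one_mul]
  calc ‖∑ i, ∑ i', e i * (starRingEnd ℂ) (e i') * E i i'‖
      ≤ ∑ i, ∑ i', (‖e i‖ ^ 2 * ω i i' / 2 + ‖e i'‖ ^ 2 * ω i' i / 2) := by
        refine (norm_sum_le _ _).trans (Finset.sum_le_sum fun i _ => ?_)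
        exact (norm_sum_le _ _).trans (Finset.sum_le_sum fun i' _ => h1 i i')
    _ = ∑ i, ∑ i', ‖e i‖ ^ 2 * ω i i' / 2 + ∑ i, ∑ i', ‖e i'‖ ^ 2 * ω i' i / 2 := by
        rw [← Finset.sum_add_distrib]
        exact Finset.sum_congr rfl fun i _ => Finset.sum_add_distrib
    _ ≤ β := by
        rw [Finset.sum_comm (f := fun i i' => ‖e i'‖ ^ 2 * ω i' i / 2)]
        linarith

/-- The main terms, summed over an orthonormal family. -/
lemma main {m : ℕ} (P R : ℝ → ℂ) (U G : ℝ → ℝ) (Φ Ψ : Fin m → ℝ → ℂ) (a Λ M β : ℝ) (ha : 0 < a)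
    (hΛ : 0 ≤ Λ) (hP : Continuous P) (hU : Continuous U)
    (hΦ : ∀ k, Continuous (Φ k)) (hΨ : ∀ k, Continuous (Ψ k)) (hG : Integrable G)
    (hb : ∀ x, ‖P x‖ ≤ M ∧ ‖R x‖ ≤ M ∧ 0 ≤ U x ∧ U x ≤ M ∧ ‖R x‖ ^ 2 ≤ Λ + U x)
    (h1 : ∀ x, ∑ k, ‖Φ k x‖ ^ 2 ≤ G x) (h2 : ∀ x, ∑ k, ‖Ψ k x‖ ^ 2 ≤ G x)
    (h3 : ∀ k, ∫ x : ℝ, ‖Ψ k x‖ ^ 2 ≤ β) :
    ∑ k, (∫ x : ℝ, P x * (starRingEnd ℂ) (R x) * (Φ k x * (starRingEnd ℂ) (Ψ k x))).im ≤
      (∫ x : ℝ, (a * ‖P x‖ ^ 2 + U x / a) * G x) + Λ / a * β * m := by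
  have hM : 0 ≤ M := (norm_nonneg _).trans (hb 0).1
  have hG0 : ∀ x, 0 ≤ G x := fun x => (Finset.sum_nonneg fun k _ => sq_nonneg _).trans (h1 x)
  have l1 : ∀ k x, ‖Φ k x‖ ^ 2 ≤ G x := fun k x =>
    (Finset.single_le_sum (f := fun k => ‖Φ k x‖ ^ 2) (fun k _ => sq_nonneg _)
      (Finset.mem_univ k)).trans (h1 x)
  have l2 : ∀ k x, ‖Ψ k x‖ ^ 2 ≤ G x := fun k x =>
    (Finset.single_le_sum (f := fun k => ‖Ψ k x‖ ^ 2) (fun k _ => sq_nonneg _)
      (Finset.mem_univ k)).trans (h2 x)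
  have hP2 : ∀ x, ‖P x‖ ^ 2 ≤ M ^ 2 := fun x => pow_le_pow_left₀ (norm_nonneg _) (hb x).1 2
  have i2 : ∀ k, Integrable fun x => ‖Ψ k x‖ ^ 2 := fun k =>
    hG.mono' (((hΨ k).norm.pow 2).aestronglyMeasurable) (Eventually.of_forall fun x => by
      rw [Real.norm_eq_abs, abs_of_nonneg (sq_nonneg _)]; exact l2 k x)
  have i1 : ∀ k, Integrable fun x => a * ‖P x‖ ^ 2 * ‖Φ k x‖ ^ 2 + U x / a * ‖Ψ k x‖ ^ 2 := by
    intro k
    refine (hG.const_mul (a * M ^ 2 + M / a)).mono' ?_ (Eventually.of_forall fun x => ?_)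
    · have := hΦ k
      have := hΨ k
      exact Continuous.aestronglyMeasurable (by fun_prop)
    · have hU0 := (hb x).2.2.1
      rw [Real.norm_eq_abs, abs_of_nonneg (by positivity), add_mul]
      refine add_le_add ?_ ?_
      · exact mul_le_mul (mul_le_mul_of_nonneg_left (hP2 x) ha.le) (l1 k x) (sq_nonneg _)
          (by positivity)
      · exact mul_le_mul (div_le_div_of_nonneg_right (hb x).2.2.2.1 ha.le) (l2 k x) (sq_nonneg _)
          (by positivity)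
  have i3 : Integrable fun x => (a * ‖P x‖ ^ 2 + U x / a) * G x := by
    refine (hG.const_mul (a * M ^ 2 + M / a)).mono' ?_ (Eventually.of_forall fun x => ?_)
    · exact (Continuous.aestronglyMeasurable (by fun_prop)).mul hG.aestronglyMeasurable
    · have hU0 := (hb x).2.2.1
      have := hG0 x
      rw [Real.norm_eq_abs, abs_of_nonneg (by positivity)]
      exact mul_le_mul_of_nonneg_right (add_le_add (mul_le_mul_of_nonneg_left (hP2 x) ha.le)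
        (div_le_div_of_nonneg_right (hb x).2.2.2.1 ha.le)) this
  have k1 : ∀ k, (∫ x : ℝ, P x * (starRingEnd ℂ) (R x) * (Φ k x * (starRingEnd ℂ) (Ψ k x))).im ≤
      (∫ x : ℝ, (a * ‖P x‖ ^ 2 * ‖Φ k x‖ ^ 2 + U x / a * ‖Ψ k x‖ ^ 2)) + Λ / a * β := by
    intro k
    refine (im_le_norm _).trans ?_
    have hle := norm_integral_le_of_norm_le ((i1 k).add ((i2 k).const_mul (Λ / a)))
      (f := fun x : ℝ => P x * (starRingEnd ℂ) (R x) * (Φ k x * (starRingEnd ℂ) (Ψ k x)))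
      (Eventually.of_forall fun x => by
        simp only [Pi.add_apply]
        rw [norm_mul, norm_mul, norm_mul, RCLike.norm_conj, RCLike.norm_conj]
        have e1 : ‖P x‖ * ‖R x‖ * (‖Φ k x‖ * ‖Ψ k x‖) ≤
            a * ‖P x‖ ^ 2 * ‖Φ k x‖ ^ 2 + ‖R x‖ ^ 2 / a * ‖Ψ k x‖ ^ 2 := by
          have e2 : 0 ≤ (a * ‖P x‖ * ‖Φ k x‖ - ‖R x‖ * ‖Ψ k x‖) ^ 2 / a := by positivity
          have e3 : (a * ‖P x‖ * ‖Φ k x‖ - ‖R x‖ * ‖Ψ k x‖) ^ 2 / a =
              a * ‖P x‖ ^ 2 * ‖Φ k x‖ ^ 2 + ‖R x‖ ^ 2 / a * ‖Ψ k x‖ ^ 2 -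
                2 * (‖P x‖ * ‖R x‖ * (‖Φ k x‖ * ‖Ψ k x‖)) := by
            field_simp; ring
          have e4 : 0 ≤ ‖P x‖ * ‖R x‖ * (‖Φ k x‖ * ‖Ψ k x‖) := by positivity
          linarith
        have e5 : ‖R x‖ ^ 2 / a * ‖Ψ k x‖ ^ 2 ≤ (Λ + U x) / a * ‖Ψ k x‖ ^ 2 :=
          mul_le_mul_of_nonneg_right (div_le_div_of_nonneg_right (hb x).2.2.2.2 ha.le) (sq_nonneg _)
        have e6 : (Λ + U x) / a * ‖Ψ k x‖ ^ 2 = U x / a * ‖Ψ k x‖ ^ 2 + Λ / a * ‖Ψ k x‖ ^ 2 := by ring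
        linarith)
    refine hle.trans ?_
    simp only [Pi.add_apply]
    rw [integral_add (i1 k) ((i2 k).const_mul (Λ / a)), integral_const_mul]
    have := mul_le_mul_of_nonneg_left (h3 k) (div_nonneg hΛ ha.le)
    linarith
  refine (Finset.sum_le_sum fun k _ => k1 k).trans ?_
  rw [Finset.sum_add_distrib, ← integral_finsetSum _ fun k _ => i1 k]
  simp only [Finset.sum_const, Finset.card_univ, Fintype.card_fin, nsmul_eq_mul]
  have : ∫ x : ℝ, ∑ k, (a * ‖P x‖ ^ 2 * ‖Φ k x‖ ^ 2 + U x / a * ‖Ψ k x‖ ^ 2) ≤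
      ∫ x : ℝ, (a * ‖P x‖ ^ 2 + U x / a) * G x := by
    refine integral_mono (integrable_finsetSum _ fun k _ => i1 k) i3 fun x => ?_
    have hU0 := (hb x).2.2.1
    simp only
    rw [Finset.sum_add_distrib, ← Finset.mul_sum, ← Finset.mul_sum, add_mul]
    exact add_le_add (mul_le_mul_of_nonneg_left (h1 x) (by positivity))
      (mul_le_mul_of_nonneg_left (h2 x) (by positivity))
  linarith

/-- Rescaling the coordinates keeps the dimension of the negative subspace. -/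
lemma resc {ι : Type} [Fintype ι] (s : ι → ℝ) (hs : ∀ i, s i ≠ 0) (W : Submodule ℂ (ι → ℂ)) :
    ∃ W' : Submodule ℂ (ι → ℂ), Module.finrank ℂ W' = Module.finrank ℂ W ∧
      ∀ v ∈ W', (fun i => v i * (s i : ℂ)) ∈ W := by
  let L : (ι → ℂ) ≃ₗ[ℂ] (ι → ℂ) := LinearEquiv.piCongrRight fun i =>
    LinearEquiv.smulOfNeZero ℂ ℂ (s i : ℂ) (by exact_mod_cast hs i)
  refine ⟨W.map (L.symm : (ι → ℂ) →ₗ[ℂ] (ι → ℂ)), LinearEquiv.finrank_map_eq _ _, ?_⟩
  rintro v ⟨w, hw, rfl⟩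
  have h : L (L.symm w) = w := L.apply_symm_apply w
  have h2 : (fun i => L.symm w i * (s i : ℂ)) = L (L.symm w) := by
    funext i
    simp [L, LinearEquiv.smulOfNeZero_apply, mul_comm]
  change (fun i => L.symm w i * (s i : ℂ)) ∈ W
  rw [h2, h]
  exact hw

lemma sum_fst {D₁ D₂ : ℕ} (f : Fin D₂ → ℝ) :
    ∑ i : Fin D₂ × Fin D₁, f i.1 = D₁ * ∑ j, f j := by
  rw [Fintype.sum_prod_type, Finset.mul_sum]
  refine Finset.sum_congr rfl fun j _ => ?_
  simp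

end Key

open Key in
theorem key : InertStmt → GabStmt → KeyStmt := by
  rintro hI ⟨B, hB, hB1, hB2⟩
  refine ⟨B, hB, ?_⟩
  intro D₁ D₂ n τ C δ lam Λ M ϑ A P R U W hC hδ hl hΛ hϑ hP hR hU hb hA hW hneg
  have hC0 : 0 < C := by linarith
  have hϑ0 : ∀ j, 0 < ‖ϑ j‖ := fun j => lt_of_lt_of_le (by positivity) (hϑ j).1
  have hM : 0 ≤ M := (norm_nonneg _).trans (hb 0).1
  obtain ⟨s, hs0, hs1⟩ : ∃ s : Fin D₂ → ℝ, (∀ j, 0 < s j) ∧ ∀ j, s j * s j = 1 / ‖ϑ j‖ :=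
    ⟨fun j => √(1 / ‖ϑ j‖), fun j => Real.sqrt_pos.2 (by have := hϑ0 j; positivity),
      fun j => Real.mul_self_sqrt (by positivity)⟩
  have hs2 : ∀ j, s j * s j ≤ C := fun j => by
    rw [hs1, div_le_iff₀ (hϑ0 j)]
    have := (div_le_iff₀ hC0).1 (hϑ j).1
    linarith
  have hs3 : ∀ j j', s j * s j' ≤ C := fun j j' => by
    nlinarith [hs2 j, hs2 j', sq_nonneg (s j - s j')]
  obtain ⟨W', hW1, hW2⟩ := resc (fun i : Fin D₂ × Fin D₁ => s i.1) (fun i => (hs0 i.1).ne') W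
  obtain ⟨m, e, hmn, hmD, he, hbes, htr⟩ := hI (Fin D₂ × Fin D₁)
    (fun i i' => (s i.1 : ℂ) * s i'.1 * A i i') W' n (by simpa [hW1] using hW) (by
      intro v hv
      have h := hneg _ (hW2 v hv)
      refine le_of_eq_of_le ?_ h
      congr 1
      refine Finset.sum_congr rfl fun i _ => Finset.sum_congr rfl fun i' _ => ?_
      rw [map_mul, conj_ofReal]; ring)
  set K : ℝ → ℂ := fun x => P x * (starRingEnd ℂ) (R x) with hK
  have hKc : Continuous K := hP.mul (continuous_conj.comp hR)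
  have hKb : ∀ x, ‖K x‖ ≤ M * M := fun x => by
    rw [hK]; simp only
    rw [norm_mul, RCLike.norm_conj]
    exact mul_le_mul (hb x).1 (hb x).2.1 (norm_nonneg _) hM
  set g : Fin D₂ × Fin D₁ → ℝ → ℂ := fun i x => gb (τ + i.1) i.2 x with hg
  have hgi : ∀ i i', Integrable fun x : ℝ => K x * (g i x * (starRingEnd ℂ) (g i' x)) :=
    fun i i' => int_K K hKc _ hKb _ _ _ _
  set J : Fin D₂ × Fin D₁ → Fin D₂ × Fin D₁ → ℂ :=
    fun i i' => ∫ x : ℝ, K x * (g i x * (starRingEnd ℂ) (g i' x)) with hJ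
  have hA' : ∀ i i', ‖(s i.1 : ℂ) * s i'.1 * (A i i' - ϑ i.1 * J i i')‖ ≤
      C * δ * Real.exp (-((i.1 : ℝ) - i'.1) ^ 2 / 8) := by
    intro i i'
    rw [norm_mul, norm_mul, norm_real, norm_real, Real.norm_eq_abs, Real.norm_eq_abs,
      abs_of_pos (hs0 _), abs_of_pos (hs0 _), mul_assoc C]
    exact mul_le_mul (hs3 _ _) (hA i i') (norm_nonneg _) hC0.le
  -- the trace
  set X : Fin D₂ → ℝ := fun j => ∫ x : ℝ, (ϑ j / ‖ϑ j‖ * K x).im * Real.exp (-(x - (τ + j)) ^ 2)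
    with hX
  set Y : Fin D₂ → ℝ := fun j => ∫ x : ℝ, (lam * ‖P x‖ ^ 2 + B * C ^ 2 / lam * U x) *
    Real.exp (-(x - (τ + j)) ^ 2) with hY
  have iX : ∀ j : Fin D₂, Integrable fun x : ℝ =>
      (ϑ j / ‖ϑ j‖ * K x).im * Real.exp (-(x - (τ + j)) ^ 2) := fun j =>
    int_F (fun x => (ϑ j / ‖ϑ j‖ * K x).im) (continuous_im.comp (continuous_const.mul hKc))
      (‖ϑ j / ‖ϑ j‖‖ * (M * M)) (fun x => by
      refine (abs_im_le_norm _).trans ?_
      rw [norm_mul]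
      exact mul_le_mul_of_nonneg_left (hKb x) (norm_nonneg _)) _
  have hP2 : ∀ x, ‖P x‖ ^ 2 ≤ M ^ 2 := fun x => pow_le_pow_left₀ (norm_nonneg _) (hb x).1 2
  have iY : ∀ (b : ℝ), 0 ≤ b → ∀ j : Fin D₂, Integrable fun x : ℝ =>
      (lam * ‖P x‖ ^ 2 + b * U x) * Real.exp (-(x - (τ + j)) ^ 2) := fun b hb0 j =>
    int_F _ (by fun_prop) (lam * M ^ 2 + b * M) (fun x => by
      have hU0 := (hb x).2.2.1
      rw [abs_of_nonneg (by positivity)]
      exact add_le_add (mul_le_mul_of_nonneg_left (hP2 x) hl.le)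
        (mul_le_mul_of_nonneg_left (hb x).2.2.2.1 hb0)) _
  have hBl : 0 ≤ B * C ^ 2 / lam := by positivity
  have hL : ∀ j : Fin D₂, ∫ x : ℝ, ((ϑ j / ‖ϑ j‖ * (P (τ + j + x) *
      (starRingEnd ℂ) (R (τ + j + x)))).im - lam * ‖P (τ + j + x)‖ ^ 2 -
      B * C ^ 2 / lam * U (τ + j + x)) * Real.exp (-x ^ 2) = X j - Y j := by
    intro j
    have h := shift (fun x => (ϑ j / ‖ϑ j‖ * K x).im - lam * ‖P x‖ ^ 2 - B * C ^ 2 / lam * U x)
      (τ + j)
    refine h.trans ?_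
    rw [hX, hY]
    simp only
    rw [← integral_sub (iX j) (iY _ hBl j)]
    congr 1; funext x; ring
  have hd : ∀ i : Fin D₂ × Fin D₁, X i.1 - C * δ ≤ ((s i.1 : ℂ) * s i.1 * A i i).im := by
    intro i
    have h1 : ((s i.1 : ℂ) * s i.1 * (ϑ i.1 * J i i)).im = X i.1 := by
      have h2 : (s i.1 : ℂ) * s i.1 * (ϑ i.1 * J i i) =
          ∫ x : ℝ, ϑ i.1 / ‖ϑ i.1‖ * (K x * (g i x * (starRingEnd ℂ) (g i x))) := by
        rw [integral_const_mul, ← ofReal_mul, hs1]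
        push_cast; ring
      rw [h2]
      have h3 := integral_im ((hgi i i).const_mul (ϑ i.1 / ‖ϑ i.1‖))
      simp only [RCLike.im_to_complex] at h3
      rw [← h3, hX]
      congr 1; funext x
      simp only [hg]
      rw [gb_conj, ← mul_assoc, im_mul_ofReal]
    have h4 := hA' i i
    have h5 : Real.exp (-((i.1 : ℝ) - i.1) ^ 2 / 8) = 1 := by simp
    rw [h5, mul_one] at h4
    have h6 := (abs_im_le_norm _).trans h4
    have h7 : (s i.1 : ℂ) * s i.1 * A i i =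
        (s i.1 : ℂ) * s i.1 * (A i i - ϑ i.1 * J i i) + (s i.1 : ℂ) * s i.1 * (ϑ i.1 * J i i) := by
      ring
    rw [h7, add_im, h1]
    linarith [neg_abs_le ((s i.1 : ℂ) * s i.1 * (A i i - ϑ i.1 * J i i)).im]
  have htr1 : D₁ * ∑ j, X j - D₂ * D₁ * (C * δ) ≤
      (∑ i : Fin D₂ × Fin D₁, (s i.1 : ℂ) * s i.1 * A i i).im := by
    rw [im_sum]
    refine le_of_eq_of_le ?_ (Finset.sum_le_sum fun i _ => hd i)
    rw [Finset.sum_sub_distrib, sum_fst]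
    simp
  -- the form at the vectors `e k`
  set Φ : Fin m → ℝ → ℂ := fun k x => ∑ i, e k i * (s i.1 * ϑ i.1) * g i x with hΦ
  set Ψ : Fin m → ℝ → ℂ := fun k x => ∑ i, e k i * s i.1 * g i x with hΨ
  have hq : ∀ k, (∑ i, ∑ i', e k i * (starRingEnd ℂ) (e k i') * ((s i.1 : ℂ) * s i'.1 * A i i')).im ≤
      (∫ x : ℝ, K x * (Φ k x * (starRingEnd ℂ) (Ψ k x))).im + C * δ * (D₁ * B) := by
    intro k
    have h1 := form K g hgi (fun i => e k i * (s i.1 * ϑ i.1)) fun i => e k i * s i.1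
    have h2 := schur (e k) (fun i i' => (s i.1 : ℂ) * s i'.1 * (A i i' - ϑ i.1 * J i i'))
      (fun i i' => C * δ * Real.exp (-((i.1 : ℝ) - i'.1) ^ 2 / 8)) (C * δ * (D₁ * B)) (he k) hA'
      (fun i i' => by congr 2; ring) (fun i => by
        rw [← Finset.mul_sum, sum_fst fun j : Fin D₂ => Real.exp (-((i.1 : ℝ) - j) ^ 2 / 8)]
        exact mul_le_mul_of_nonneg_left (mul_le_mul_of_nonneg_left (hB1 D₂ i.1) (by positivity))
          (by positivity))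
    have h3 : ∑ i, ∑ i', e k i * (starRingEnd ℂ) (e k i') * ((s i.1 : ℂ) * s i'.1 * A i i') =
        (∫ x : ℝ, K x * (Φ k x * (starRingEnd ℂ) (Ψ k x))) + ∑ i, ∑ i', e k i *
          (starRingEnd ℂ) (e k i') * ((s i.1 : ℂ) * s i'.1 * (A i i' - ϑ i.1 * J i i')) := by
      rw [hΦ, hΨ]
      simp only
      rw [← h1, ← Finset.sum_add_distrib]
      refine Finset.sum_congr rfl fun i _ => ?_
      rw [← Finset.sum_add_distrib]
      refine Finset.sum_congr rfl fun i' _ => ?_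
      rw [map_mul, conj_ofReal]
      simp only [hJ]
      ring
    rw [h3, add_im]
    linarith [(im_le_norm _).trans h2]
  have hgc : ∀ i, Continuous (g i) := fun i => cont_gb _ _
  have hG : ∀ (c : Fin D₂ → ℂ), (∀ j, ‖c j‖ ^ 2 ≤ C) → ∀ x, ∑ k, ‖∑ i, e k i * c i.1 * g i x‖ ^ 2 ≤
      C * D₁ * ∑ j : Fin D₂, Real.exp (-(x - (τ + j)) ^ 2) := by
    intro c hc x
    have h1 := hbes fun i => c i.1 * g i x
    simp only [← mul_assoc] at h1
    refine h1.trans ?_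
    rw [mul_assoc, ← sum_fst fun j : Fin D₂ => Real.exp (-(x - (τ + j)) ^ 2), Finset.mul_sum]
    refine Finset.sum_le_sum fun i _ => ?_
    rw [norm_mul, mul_pow]
    simp only [hg]
    rw [sq_gb]
    exact mul_le_mul_of_nonneg_right (hc _) (Real.exp_pos _).le
  have hsn : ∀ j, ‖(s j : ℂ)‖ ^ 2 = s j * s j := fun j => by
    rw [norm_real, Real.norm_eq_abs, sq_abs, sq]
  have hmain := main P R U (fun x => C * D₁ * ∑ j : Fin D₂, Real.exp (-(x - (τ + j)) ^ 2)) Φ Ψ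
    (lam / C) Λ M (B * C) (by positivity) hΛ hP hU
    (fun k => continuous_finsetSum _ fun i _ => continuous_const.mul (hgc i))
    (fun k => continuous_finsetSum _ fun i _ => continuous_const.mul (hgc i))
    ((integrable_finsetSum _ fun j _ => int_w _).const_mul _) hb
    (hG (fun j => s j * ϑ j) fun j => by
      rw [norm_mul, mul_pow, hsn, hs1]
      have := hϑ0 j
      have h2 : 1 / ‖ϑ j‖ * ‖ϑ j‖ ^ 2 = ‖ϑ j‖ := by field_simp
      rw [h2]; exact (hϑ j).2)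
    (hG (fun j => s j) fun j => by rw [hsn]; exact hs2 j)
    (fun k => by
      refine (hB2 D₁ D₂ τ fun i => e k i * s i.1).trans (mul_le_mul_of_nonneg_left ?_ (by linarith))
      calc ∑ i : Fin D₂ × Fin D₁, ‖e k i * s i.1‖ ^ 2 ≤ ∑ i, ‖e k i‖ ^ 2 * C := by
            refine Finset.sum_le_sum fun i _ => ?_
            rw [norm_mul, mul_pow, hsn]
            exact mul_le_mul_of_nonneg_left (hs2 _) (sq_nonneg _)
        _ = C := by rw [← Finset.sum_mul, he, one_mul])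
  have hY1 : ∫ x : ℝ, (lam / C * ‖P x‖ ^ 2 + U x / (lam / C)) *
      (C * D₁ * ∑ j : Fin D₂, Real.exp (-(x - (τ + j)) ^ 2)) ≤ D₁ * ∑ j, Y j := by
    have h1 : ∀ x, (lam / C * ‖P x‖ ^ 2 + U x / (lam / C)) *
        (C * D₁ * ∑ j : Fin D₂, Real.exp (-(x - (τ + j)) ^ 2)) = D₁ * ∑ j : Fin D₂,
          (lam * ‖P x‖ ^ 2 + C ^ 2 / lam * U x) * Real.exp (-(x - (τ + j)) ^ 2) := by
      intro x
      rw [← Finset.mul_sum]
      field_simp
    simp_rw [h1]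
    have h2 : 0 ≤ C ^ 2 / lam := by positivity
    rw [integral_const_mul, integral_finsetSum _ fun j _ => iY _ h2 j]
    refine mul_le_mul_of_nonneg_left (Finset.sum_le_sum fun j _ => ?_) (by positivity)
    refine integral_mono (iY _ h2 j) (iY _ hBl j) fun x => ?_
    have h3 : C ^ 2 / lam ≤ B * C ^ 2 / lam :=
      div_le_div_of_nonneg_right (by nlinarith [sq_nonneg C]) hl.le
    exact mul_le_mul_of_nonneg_right (add_le_add le_rfl
      (mul_le_mul_of_nonneg_right h3 (hb x).2.2.1)) (Real.exp_pos _).le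
  have hsum := htr.trans (Finset.sum_le_sum fun k _ => hq k)
  rw [Finset.sum_add_distrib] at hsum
  simp only [Finset.sum_const, Finset.card_univ, Fintype.card_fin, nsmul_eq_mul] at hsum
  have hm1 : (m : ℝ) ≤ n := by exact_mod_cast hmn
  have hm2 : (m : ℝ) ≤ D₂ * D₁ := by
    have : m ≤ D₂ * D₁ := by simpa using hmD
    exact_mod_cast this
  have e1 : Λ / (lam / C) * (B * C) * m ≤ B * C ^ 2 / lam * Λ * n := by
    have h : Λ / (lam / C) * (B * C) = B * C ^ 2 / lam * Λ := by field_simp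
    rw [h]
    exact mul_le_mul_of_nonneg_left hm1 (by positivity)
  have e2 : m * (C * δ * (D₁ * B)) ≤ D₂ * D₁ * (C * δ * (D₁ * B)) :=
    mul_le_mul_of_nonneg_right hm2 (by positivity)
  have e3 : D₂ * D₁ * (C * δ) ≤ D₂ * D₁ * (C * δ) * B :=
    le_mul_of_one_le_right (by positivity) hB
  simp_rw [hL]
  rw [Finset.sum_sub_distrib, mul_sub]
  have e4 : B * C * (D₂ * D₁ * (D₁ + 1) * δ) =
      D₂ * D₁ * (C * δ * (D₁ * B)) + D₂ * D₁ * (C * δ) * B := by ring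
  rw [e4]
  simp only [hK] at hsum
  linarith

end Pool.Agent.MP_ca0a54_nt.H13
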