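import Pool.Agent.MP_ca0a54_nt.H13.Spec

/-!
Row MOM: a product of prime polynomials is a Dirichlet polynomial with bounded coefficients.
-/

open Complex MeasureTheory Filter Topology

namespace Pool.Agent.MP_ca0a54_nt.H13

open Pool.Agent.MP_ca0a54_nt.L0 Pool.Agent.MP_ca0a54_nt.H24

namespace Mom

/-- `f` is a Dirichlet polynomial of length `Y` and weight `u`. -/
def Poly (Λ Y : ℝ) (u : ℕ) (f : ℂ → ℂ) : Prop :=
  ∃ (c : ℕ → ℂ) (S : Finset ℕ), (∀ w : ℂ, f w = ds c S w) ∧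
    (∀ n ∈ S, 1 ≤ n ∧ (n : ℝ) ≤ Y ∧ n.primeFactors.card ≤ u ∧ ‖c n‖ ≤ Λ ^ u) ∧
    ∑ n ∈ S, ‖c n‖ ^ 2 / n ≤ Λ ^ u

lemma np_mul (z : ℂ) {m n : ℕ} (hm : 1 ≤ m) (hn : 1 ≤ n) : np z (m * n) = np z m * np z n := by
  unfold np
  have hm0 : (m : ℝ) ≠ 0 := by positivity
  have hn0 : (n : ℝ) ≠ 0 := by positivity
  rw [← exp_add, Nat.cast_mul, Real.log_mul hm0 hn0]
  congr 1
  push_cast
  ring

lemma poly_one (Λ : ℝ) : Poly Λ 1 0 fun _ => 1 := by
  refine ⟨fun _ => 1, {1}, fun t => ?_, fun n hn => ?_, ?_⟩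
  · simp [ds, np]
  · rw [Finset.mem_singleton.1 hn]
    simp
  · simp

lemma step {G : ℕ} {Γ Y Y' : ℝ} {u : ℕ} {f : ℂ → ℂ} (huj : u + 1 ≤ G)
    (P : Finset ℕ) (ρ : ℕ → ℂ) (hP : ∀ p ∈ P, p.Prime ∧ (p : ℝ) ≤ Y' ∧ ‖ρ p‖ ≤ Γ)
    (hs : ∑ p ∈ P, ‖ρ p‖ ^ 2 / p ≤ Γ) (h : Poly ((G + 1) * max 1 Γ) Y u f) :
    Poly ((G + 1) * max 1 Γ) (Y * Y') (u + 1) fun t => f t * ds ρ P t := by
  obtain ⟨c, S, hf, hS, hsum⟩ := h
  set Λ : ℝ := (G + 1) * max 1 Γ with hΛ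
  have hG0 : (0 : ℝ) ≤ G := Nat.cast_nonneg G
  have hm1 : (1 : ℝ) ≤ max 1 Γ := le_max_left _ _
  have hmΓ : Γ ≤ max 1 Γ := le_max_right _ _
  have hΛ1 : 1 ≤ Λ := by rw [hΛ]; nlinarith
  have hΛ0 : 0 ≤ Λ ^ u := by positivity
  have hkey : ∀ x : ℝ, x ≤ G * (Λ ^ u * max 1 Γ) → x ≤ Λ ^ (u + 1) := by
    intro x hx
    calc x ≤ G * (Λ ^ u * max 1 Γ) := hx
      _ ≤ Λ ^ u * Λ := by rw [hΛ] at *; nlinarith
      _ = Λ ^ (u + 1) := (pow_succ _ _).symm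
  set g : ℕ × ℕ → ℕ := fun x => x.1 * x.2 with hg
  set Fb : ℕ → Finset (ℕ × ℕ) := fun n => (S ×ˢ P).filter fun x => g x = n with hFb
  have hmaps : ∀ x ∈ S ×ˢ P, g x ∈ (S ×ˢ P).image g := fun x hx => Finset.mem_image_of_mem g hx
  have hpf : ∀ n ∈ (S ×ˢ P).image g, 1 ≤ n ∧ (n : ℝ) ≤ Y * Y' ∧
      n.primeFactors.card ≤ u + 1 := by
    intro n hn
    obtain ⟨x, hx, rfl⟩ := Finset.mem_image.1 hn
    obtain ⟨hx1, hx2⟩ := Finset.mem_product.1 hx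
    obtain ⟨h1, h2, h3, -⟩ := hS _ hx1
    obtain ⟨p1, p2, -⟩ := hP _ hx2
    have hp1 := p1.one_le
    refine ⟨Nat.mul_pos h1 hp1, ?_, ?_⟩
    · simp only [hg]
      rw [Nat.cast_mul]
      exact mul_le_mul h2 p2 (Nat.cast_nonneg _) ((Nat.cast_nonneg _).trans h2)
    · simp only [hg]
      rw [Nat.primeFactors_mul (by omega) (by omega), p1.primeFactors]
      exact (Finset.card_union_le _ _).trans (by rw [Finset.card_singleton]; omega)
  have hcard : ∀ n ∈ (S ×ˢ P).image g, ((Fb n).card : ℝ) ≤ G := by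
    intro n hn
    obtain ⟨h1, -, h3⟩ := hpf n hn
    have : (Fb n).card ≤ n.primeFactors.card := by
      refine Finset.card_le_card_of_injOn Prod.snd (fun x hx => ?_) (fun x hx y hy hxy => ?_)
      · obtain ⟨hx1, hx2⟩ := Finset.mem_filter.1 (Finset.mem_coe.1 hx)
        have hp := (hP _ (Finset.mem_product.1 hx1).2).1
        exact Finset.mem_coe.2 (Nat.mem_primeFactors.2 ⟨hp, hx2 ▸ Dvd.intro_left _ rfl, by omega⟩)
      · obtain ⟨hx1, hx2⟩ := Finset.mem_filter.1 (Finset.mem_coe.1 hx)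
        obtain ⟨-, hy2⟩ := Finset.mem_filter.1 (Finset.mem_coe.1 hy)
        have hp := (hP _ (Finset.mem_product.1 hx1).2).1.pos
        refine Prod.ext ?_ hxy
        have e : x.1 * x.2 = y.1 * x.2 := by
          have := hx2.trans hy2.symm
          simp only [hg] at this
          rw [this, hxy]
        exact Nat.eq_of_mul_eq_mul_right hp e
    exact_mod_cast (by omega : (Fb n).card ≤ G)
  refine ⟨fun n => ∑ x ∈ Fb n, c x.1 * ρ x.2, (S ×ˢ P).image g, fun t => ?_, fun n hn => ?_, ?_⟩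
  · simp only [hf]
    unfold ds
    rw [Finset.sum_mul_sum, ← Finset.sum_product',
      ← Finset.sum_fiberwise_of_maps_to hmaps]
    refine Finset.sum_congr rfl fun n _ => ?_
    rw [Finset.sum_mul]
    refine Finset.sum_congr rfl fun x hx => ?_
    obtain ⟨hx1, hx2⟩ := Finset.mem_filter.1 hx
    obtain ⟨h1, h2⟩ := Finset.mem_product.1 hx1
    rw [← hx2]
    simp only [hg]
    rw [np_mul _ (hS _ h1).1 (hP _ h2).1.one_le]
    ring
  · obtain ⟨h1, h2, h3⟩ := hpf n hn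
    refine ⟨h1, h2, h3, hkey _ ?_⟩
    refine (norm_sum_le _ _).trans ?_
    have : ∀ x ∈ Fb n, ‖c x.1 * ρ x.2‖ ≤ Λ ^ u * max 1 Γ := by
      intro x hx
      obtain ⟨a1, a2⟩ := Finset.mem_product.1 (Finset.mem_filter.1 hx).1
      rw [norm_mul]
      exact mul_le_mul (hS _ a1).2.2.2 ((hP _ a2).2.2.trans hmΓ) (norm_nonneg _) hΛ0
    refine (Finset.sum_le_card_nsmul _ _ _ this).trans ?_
    rw [nsmul_eq_mul]
    exact mul_le_mul_of_nonneg_right (hcard n hn) (by positivity)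
  · refine hkey _ ?_
    have h1 : ∀ n ∈ (S ×ˢ P).image g, ‖∑ x ∈ Fb n, c x.1 * ρ x.2‖ ^ 2 / n ≤
        ∑ x ∈ Fb n, G * (‖c x.1‖ ^ 2 / x.1 * (‖ρ x.2‖ ^ 2 / x.2)) := by
      intro n hn
      have hn0 : (0 : ℝ) < n := by exact_mod_cast (hpf n hn).1
      have a1 : ‖∑ x ∈ Fb n, c x.1 * ρ x.2‖ ^ 2 ≤ G * ∑ x ∈ Fb n, ‖c x.1 * ρ x.2‖ ^ 2 :=
        calc _ ≤ (∑ x ∈ Fb n, ‖c x.1 * ρ x.2‖) ^ 2 := by
              gcongr
              exact norm_sum_le _ _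
          _ ≤ (Fb n).card * ∑ x ∈ Fb n, ‖c x.1 * ρ x.2‖ ^ 2 := sq_sum_le_card_mul_sum_sq
          _ ≤ _ := mul_le_mul_of_nonneg_right (hcard n hn)
              (Finset.sum_nonneg fun _ _ => by positivity)
      refine (div_le_div_of_nonneg_right a1 hn0.le).trans (le_of_eq ?_)
      rw [Finset.mul_sum, Finset.sum_div]
      refine Finset.sum_congr rfl fun x hx => ?_
      rw [← (Finset.mem_filter.1 hx).2]
      simp only [hg]
      rw [norm_mul, Nat.cast_mul, mul_pow, div_mul_div_comm, mul_div_assoc]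
    refine (Finset.sum_le_sum h1).trans ?_
    rw [Finset.sum_fiberwise_of_maps_to hmaps, ← Finset.mul_sum,
      Finset.sum_product' S P fun m p => ‖c m‖ ^ 2 / m * (‖ρ p‖ ^ 2 / p), ← Finset.sum_mul_sum]
    refine mul_le_mul_of_nonneg_left ?_ hG0
    exact mul_le_mul hsum (hs.trans hmΓ) (Finset.sum_nonneg fun _ _ => by positivity) hΛ0

lemma step_pow {G : ℕ} {Γ Y Y' : ℝ} {u : ℕ} {f : ℂ → ℂ}
    (P : Finset ℕ) (ρ : ℕ → ℂ) (hP : ∀ p ∈ P, p.Prime ∧ (p : ℝ) ≤ Y' ∧ ‖ρ p‖ ≤ Γ)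
    (hs : ∑ p ∈ P, ‖ρ p‖ ^ 2 / p ≤ Γ) (h : Poly ((G + 1) * max 1 Γ) Y u f) (k : ℕ)
    (hk : u + k ≤ G) :
    Poly ((G + 1) * max 1 Γ) (Y * Y' ^ k) (u + k) fun t => f t * ds ρ P t ^ k := by
  induction k with
  | zero => simpa using h
  | succ k ih =>
    have := step (by omega) P ρ hP hs (ih (by omega))
    simpa only [pow_succ, mul_assoc, add_assoc] using this

lemma step_prod {J G : ℕ} {Γ : ℝ} (i : Fin J → ℕ) (S : Fin J → Finset ℕ) (x : Fin J → ℕ → ℂ)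
    (Y : Fin J → ℝ) (hS : ∀ j, ∀ p ∈ S j, p.Prime ∧ (p : ℝ) ≤ Y j ∧ ‖x j p‖ ≤ Γ)
    (hs : ∀ j, ∑ p ∈ S j, ‖x j p‖ ^ 2 / p ≤ Γ) (s : Finset (Fin J)) (hG : ∑ j ∈ s, i j ≤ G) :
    Poly ((G + 1) * max 1 Γ) (∏ j ∈ s, Y j ^ i j) (∑ j ∈ s, i j)
      fun t => ∏ j ∈ s, ds (x j) (S j) t ^ i j := by
  induction s using Finset.induction_on with
  | empty => simpa using poly_one _
  | insert a s ha ih =>
    rw [Finset.sum_insert ha] at hG
    have := step_pow (S a) (x a) (hS a) (hs a) (ih (by omega)) (i a) (by omega)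
    simpa only [Finset.sum_insert ha, Finset.prod_insert ha, mul_comm, add_comm] using this

end Mom

theorem mom : MomStmt := by
  classical
  intro J i M
  have h1 : (1 : ℝ) ≤ ((∑ j, i j : ℕ) + 1) * max 1 M := by
    have : (0 : ℝ) ≤ (∑ j, i j : ℕ) := Nat.cast_nonneg _
    nlinarith [le_max_left 1 M]
  refine ⟨_, one_le_pow₀ (n := ∑ j, i j) h1, fun S x Y N hS _ hs hN => ?_⟩
  obtain ⟨c, T, e, hT, hsum⟩ := Mom.step_prod i S x Y hS hs Finset.univ le_rfl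
  have sub : T ⊆ Finset.Icc 1 N := fun n hn =>
    Finset.mem_Icc.2 ⟨(hT n hn).1, (Nat.le_floor (hT n hn).2.1).trans hN⟩
  refine ⟨fun n => if n ∈ T then c n else 0, fun n => ?_, ?_, fun w => ?_⟩
  · by_cases h : n ∈ T
    · simpa only [h, if_true] using (hT n h).2.2.2
    · simp only [h, if_false, norm_zero]
      positivity
  · rw [← Finset.sum_subset sub fun n _ hn => by simp [hn]]
    exact (Finset.sum_congr rfl fun n hn => by simp only [hn, if_true]).trans_le hsum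
  · rw [show ∏ j, ds (x j) (S j) w ^ i j = ds c T w from e w]
    unfold dp ds
    rw [← Finset.sum_subset sub fun n _ hn => by simp [hn]]
    exact Finset.sum_congr rfl fun n hn => by simp only [hn, if_true]

end Pool.Agent.MP_ca0a54_nt.H13
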