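import Pool.Agent.MP_ca0a54_nt.H13.Spec

/-! Row NEG: a large subspace on which the form has nonpositive imaginary part. -/

open Complex MeasureTheory Filter Topology

namespace Pool.Agent.MP_ca0a54_nt.H13

open Pool.Agent.MP_ca0a54_nt.L0 Pool.Agent.MP_ca0a54_nt.H24

namespace Neg

theorem rank_inf_ker {E : Type} [AddCommGroup E] [Module ℂ E] [FiniteDimensional ℂ E]
    (W : Submodule ℂ E) (f : E →ₗ[ℂ] ℂ) :
    Module.finrank ℂ W ≤ Module.finrank ℂ (W ⊓ LinearMap.ker f : Submodule ℂ E) + 1 := by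
  have h1 := Submodule.finrank_sup_add_finrank_inf_eq W (LinearMap.ker f)
  have h2 := LinearMap.finrank_range_add_finrank_ker f
  have h3 : Module.finrank ℂ (LinearMap.range f) ≤ 1 := by
    have := Submodule.finrank_le (LinearMap.range f)
    simpa using this
  have h4 := Submodule.finrank_le (W ⊔ LinearMap.ker f)
  omega

/-- Evaluation of the combination at a point. -/
noncomputable def ev {ι : Type} [Fintype ι] (y : ι → ℂ) : (ι → ℂ) →ₗ[ℂ] ℂ where
  toFun c := ∑ i, c i * y i
  map_add' c d := by simp [add_mul, Finset.sum_add_distrib]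
  map_smul' r c := by simp [Finset.mul_sum, mul_assoc]

theorem diff_dslope {f : ℂ → ℂ} (hf : Differentiable ℂ f) (v : ℂ) :
    Differentiable ℂ (dslope f v) :=
  differentiableOn_univ.1
    ((Complex.differentiableOn_dslope (s := Set.univ) univ_mem).2 hf.differentiableOn)

theorem pz_cons (v : ℂ) (V : Multiset ℂ) (z : ℂ) : pz (v ::ₘ V) z = (z - v) * pz V z := by
  simp [pz]

theorem pz_shift (Z : Multiset ℂ) (a z : ℂ) : pz (Z.map fun w => w - a) z = pz Z (z + a) := by
  unfold pz
  rw [Multiset.map_map]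
  congr 1
  refine Multiset.map_congr rfl fun w _ => ?_
  simp only [Function.comp]
  ring

theorem dec_sum {ι : Type} [Fintype ι] {φ : ι → ℂ → ℂ} (h : ∀ i, Dec (φ i)) (v : ι → ℂ) :
    Dec fun z => ∑ i, v i * φ i z := by
  choose M hM using h
  refine ⟨∑ i, ‖v i‖ * M i, fun z hz => ?_⟩
  rw [Finset.sum_mul]
  refine (norm_sum_le _ _).trans (Finset.sum_le_sum fun i _ => ?_)
  rw [norm_mul, mul_assoc]
  exact mul_le_mul_of_nonneg_left (hM i z hz) (norm_nonneg _)

theorem st_sum {ι : Type} [Fintype ι] (φ : ι → ℂ → ℂ) (v : ι → ℂ) (z : ℂ) :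
    st (fun z => ∑ i, v i * φ i z) z = ∑ i, (starRingEnd ℂ) (v i) * st (φ i) z := by
  simp [st]

theorem dec_st {F : ℂ → ℂ} (h : Dec F) : Dec (st F) := by
  obtain ⟨M, hM⟩ := h
  refine ⟨M, fun z hz => ?_⟩
  have := hM ((starRingEnd ℂ) z) (by simpa using hz)
  simpa [st] using this

theorem cont_st {F : ℂ → ℂ} (h : Continuous F) : Continuous (st F) :=
  continuous_conj.comp (h.comp continuous_conj)

theorem intg {V F G : ℂ → ℂ} {c : ℝ} (hc : 0 ≤ c) (hc1 : c ≤ 1) (hV : H10.Bd V (-c) (-c))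
    (hF : Continuous F) (hG : Continuous G) (dF : Dec F) (dG : Dec G) :
    Integrable fun x : ℝ => V (x - c * I) * (F (x - c * I) * G (x - c * I)) := by
  have hcV : Continuous fun x : ℝ => V (x - c * I) := by
    have := hV.cont
    simpa [sub_eq_add_neg] using this
  obtain ⟨-, M, h0, h1⟩ := hV
  obtain ⟨M₁, hM₁⟩ := dF
  obtain ⟨M₂, hM₂⟩ := dG
  have hl : Continuous fun x : ℝ => (x : ℂ) - c * I := by fun_prop
  refine Integrable.mono'
    ((integrable_exp_neg_mul_sq (by norm_num : (0 : ℝ) < 2 / 3)).const_mul (M * (M₁ * M₂)))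
    (hcV.mul ((hF.comp hl).mul (hG.comp hl))).aestronglyMeasurable
    (Eventually.of_forall fun x => ?_)
  have him : ((x : ℂ) - c * I).im = -c := by simp
  have hre : ((x : ℂ) - c * I).re = x := by simp
  have hab : |((x : ℂ) - c * I).im| ≤ 1 := by
    rw [him, abs_neg, abs_of_nonneg hc]
    exact hc1
  have a1 := h1 ((x : ℂ) - c * I) ⟨him.ge, him.le⟩
  have a2 := hM₁ _ hab
  have a3 := hM₂ _ hab
  rw [hre] at a2 a3
  have e : Real.exp (-(2 / 3) * x ^ 2) = Real.exp (-x ^ 2 / 3) * Real.exp (-x ^ 2 / 3) := by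
    rw [← Real.exp_add]
    congr 1
    ring
  rw [norm_mul, norm_mul, e]
  calc ‖V (x - c * I)‖ * (‖F (x - c * I)‖ * ‖G (x - c * I)‖)
      ≤ M * ((M₁ * Real.exp (-x ^ 2 / 3)) * (M₂ * Real.exp (-x ^ 2 / 3))) :=
        mul_le_mul a1 (mul_le_mul a2 a3 (norm_nonneg _) ((norm_nonneg _).trans a2))
          (by positivity) h0
    _ = _ := by ring

theorem good_le {Z : Multiset ℂ} {a : ℝ} {G : Finset ℝ} (h : Good Z a G) :
    (G.val.map fun u : ℝ => (u : ℂ)) ≤ Z := by
  refine (Multiset.le_iff_subset (G.nodup.map ofReal_injective)).2 fun z hz => ?_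
  obtain ⟨u, hu, rfl⟩ := Multiset.mem_map.1 hz
  refine Multiset.count_pos.1 ?_
  rw [(h u hu).1]
  exact one_pos

end Neg

open _root_.Pool.Agent.MP_ca0a54_nt.H13.Neg

theorem sub : SubStmt := by
  intro ι _ φ V
  induction V using Multiset.induction_on generalizing φ with
  | empty =>
    intro hφ
    refine ⟨⊤, by simp, fun c _ => ⟨fun z => ∑ i, c i * φ i z, ?_, fun z => by simp [pz]⟩⟩
    exact Differentiable.fun_sum fun i _ => (hφ i).const_mul _
  | cons v V ih =>
    intro hφ
    obtain ⟨W, hW, hc⟩ := ih (fun i => dslope (φ i) v) fun i => diff_dslope (hφ i) v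
    refine ⟨W ⊓ LinearMap.ker (ev fun i => φ i v), ?_, fun c hcW => ?_⟩
    · have := rank_inf_ker W (ev fun i => φ i v)
      rw [Multiset.card_cons]
      omega
    · obtain ⟨Ψ, hΨ, hz⟩ := hc c hcW.1
      refine ⟨Ψ, hΨ, fun z => ?_⟩
      have h0 : ∑ i, c i * φ i v = 0 := hcW.2
      rw [pz_cons, mul_assoc, ← hz z, Finset.mul_sum, ← sub_zero (∑ i, c i * φ i z), ← h0,
        ← Finset.sum_sub_distrib]
      refine Finset.sum_congr rfl fun i _ => ?_
      have := sub_smul_dslope (φ i) v z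
      rw [smul_eq_mul] at this
      rw [← mul_sub, ← this]
      ring

theorem neg : ResStmt → SubStmt → NegStmt := by
  intro hres hsub ι _ φ Z G a c ha hc hc1 hsym him hG hV hφ hdec
  obtain ⟨W, hW, hWc⟩ := hsub ι φ
    ((Z - G.val.map fun u : ℝ => (u : ℂ)).map fun w => w - (a : ℂ)) hφ
  refine ⟨W, _, ?_, hW, fun v hv => ?_⟩
  · have hle := good_le hG
    rw [Multiset.card_map, Multiset.card_sub hle, Nat.cast_sub (Multiset.card_le_card hle),
      Multiset.card_map, Finset.card_val]
  · obtain ⟨Ψ, hΨ, hz⟩ := hWc v hv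
    have key := hres Z G a c (fun z => ∑ i, v i * φ i z) Ψ ha hc hc1 hsym him hG hΨ
      (fun z => by rw [hz z, pz_shift]) (dec_sum hdec v)
    have hI : ∀ i i', Integrable fun x : ℝ =>
        vq Z a (x - c * I) * (φ i (x - c * I) * st (φ i') (x - c * I)) := fun i i' =>
      intg (by linarith) hc1 hV (hφ i).continuous (cont_st (hφ i').continuous) (hdec i)
        (dec_st (hdec i'))
    refine le_of_eq_of_le (congrArg Complex.im ?_) key
    simp only [← integral_const_mul]
    rw [Finset.sum_congr rfl fun i _ =>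
      (integral_finsetSum Finset.univ fun i' _ => (hI i i').const_mul _).symm,
      ← integral_finsetSum Finset.univ fun i _ =>
        integrable_finsetSum Finset.univ fun i' _ => (hI i i').const_mul _]
    refine integral_congr_ae (Eventually.of_forall fun x => ?_)
    simp only [st_sum]
    rw [Finset.sum_mul_sum]
    simp only [Finset.mul_sum]
    refine Finset.sum_congr rfl fun i _ => Finset.sum_congr rfl fun i' _ => ?_
    ring

end Pool.Agent.MP_ca0a54_nt.H13
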