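import Pool.Agent.MP_ca0a54_nt.H13.Spec
import Pool.Agent.MP_ca0a54_nt.H47.PrA

/-! The weights `log p / p / log T` at the points `log p / log T` tend to the uniform measure. -/

open Finset Filter Topology

namespace Pool.Agent.MP_ca0a54_nt.H13

open Pool.Agent.MP_ca0a54_nt.L0 Pool.Agent.MP_ca0a54_nt.H24

namespace PrimeRow

open ArithmeticFunction

lemma upp {N : ℕ} (hN : 1 ≤ N) : ∑ d ∈ Icc 1 N, vonMangoldt d / d ≤ Real.log N + 6 := by
  have hN0 : (0 : ℝ) < N := by exact_mod_cast hN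
  have h2 : ∑ n ∈ Icc 1 N, Real.log n =
      ∑ d ∈ Icc 1 N, vonMangoldt d * (((Ioc 0 N).filter fun n => d ∣ n).card : ℝ) := by
    have : ∀ n ∈ Icc 1 N, Real.log n = ∑ d ∈ Icc 1 N, if d ∣ n then vonMangoldt d else 0 := by
      intro n hn
      rw [mem_Icc] at hn
      rw [← vonMangoldt_sum, ← sum_filter]
      congr 1
      ext d
      simp only [Nat.mem_divisors, mem_filter, mem_Icc]
      constructor
      · rintro ⟨h, h0⟩
        exact ⟨⟨Nat.pos_of_dvd_of_pos h hn.1, (Nat.le_of_dvd hn.1 h).trans hn.2⟩, h⟩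
      · rintro ⟨_, h⟩
        exact ⟨h, by omega⟩
    rw [sum_congr rfl this, sum_comm]
    refine sum_congr rfl fun d _ => ?_
    rw [← sum_filter, sum_const, nsmul_eq_mul, mul_comm]
    rfl
  have h3 : N * ∑ d ∈ Icc 1 N, vonMangoldt d / d - ∑ d ∈ Icc 1 N, vonMangoldt d ≤
      ∑ d ∈ Icc 1 N, vonMangoldt d * (((Ioc 0 N).filter fun n => d ∣ n).card : ℝ) := by
    rw [mul_sum, ← sum_sub_distrib]
    refine sum_le_sum fun d hd => ?_
    rw [Nat.Ioc_filter_dvd_card_eq_div]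
    have hd0 : (0 : ℝ) < d := by exact_mod_cast (mem_Icc.1 hd).1
    have h5 : (N : ℝ) / d - 1 ≤ ((N / d : ℕ) : ℝ) := by
      have := Nat.lt_floor_add_one ((N : ℝ) / d)
      rw [Nat.floor_div_eq_div] at this
      linarith
    calc N * (vonMangoldt d / d) - vonMangoldt d = vonMangoldt d * ((N : ℝ) / d - 1) := by ring
      _ ≤ _ := mul_le_mul_of_nonneg_left h5 vonMangoldt_nonneg
  have h4 : ∑ n ∈ Icc 1 N, Real.log n ≤ N * Real.log N := by
    calc ∑ n ∈ Icc 1 N, Real.log n ≤ ∑ _n ∈ Icc 1 N, Real.log N := by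
          refine sum_le_sum fun n hn => ?_
          rw [mem_Icc] at hn
          exact Real.log_le_log (by exact_mod_cast hn.1) (by exact_mod_cast hn.2)
      _ = _ := by simp
  have h5 : ∑ d ∈ Icc 1 N, vonMangoldt d ≤ 6 * N := by
    have h6 := Chebyshev.psi_le_const_mul_self hN0.le
    have h7 : Chebyshev.psi N = ∑ d ∈ Icc 1 N, vonMangoldt d := by
      simp [Chebyshev.psi, ← Icc_add_one_left_eq_Ioc]
    have h8 : Real.log 4 ≤ 2 := by
      rw [show (4 : ℝ) = 2 ^ 2 by norm_num, Real.log_pow]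
      push_cast
      linarith [Real.log_two_lt_d9]
    rw [← h7]
    nlinarith
  have : N * ∑ d ∈ Icc 1 N, vonMangoldt d / d ≤ N * (Real.log N + 6) := by linarith
  exact le_of_mul_le_mul_left this hN0

/-- The sum of `log p / p` over primes up to `x`. -/
noncomputable def Ms (x : ℝ) : ℝ := ∑ p ∈ (Icc 1 ⌊x⌋₊).filter Nat.Prime, Real.log p / p

lemma mertens : ∃ K : ℝ, 0 ≤ K ∧ ∀ x : ℝ, 1 ≤ x → |Ms x - Real.log x| ≤ K := by
  obtain ⟨C₀, hC0, hC⟩ := H47.pp
  refine ⟨C₀ + 6, by linarith, fun x hx => ?_⟩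
  have hN : 1 ≤ ⌊x⌋₊ := Nat.le_floor (by simpa using hx)
  have hN0 : (1 : ℝ) ≤ ⌊x⌋₊ := by exact_mod_cast hN
  have h1 := upp hN
  have h2 := H47.low hN
  have h3 := hC ⌊x⌋₊
  have h4 : Ms x + ∑ d ∈ (Icc 1 ⌊x⌋₊).filter (fun d => ¬ d.Prime), vonMangoldt d / d =
      ∑ d ∈ Icc 1 ⌊x⌋₊, vonMangoldt d / d := by
    rw [← sum_filter_add_sum_filter_not (Icc 1 ⌊x⌋₊) Nat.Prime]
    congr 1
    refine sum_congr rfl fun p hp => ?_
    rw [vonMangoldt_apply_prime (mem_filter.1 hp).2]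
  have h5 : 0 ≤ ∑ d ∈ (Icc 1 ⌊x⌋₊).filter (fun d => ¬ d.Prime), vonMangoldt d / (d : ℝ) :=
    sum_nonneg fun d _ => div_nonneg vonMangoldt_nonneg (Nat.cast_nonneg _)
  have h6 : Real.log ⌊x⌋₊ ≤ Real.log x := Real.log_le_log (by linarith) (Nat.floor_le (by linarith))
  have h7 : Real.log x ≤ Real.log ⌊x⌋₊ + 1 := by
    have h8 : x ≤ 2 * (⌊x⌋₊ : ℝ) := by
      have := Nat.lt_floor_add_one x
      linarith
    have h9 := Real.log_le_log (by linarith) h8
    rw [Real.log_mul (by norm_num) (by linarith)] at h9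
    linarith [Real.log_two_lt_d9]
  rw [abs_le]
  constructor <;> linarith

lemma mem_pr {T u v : ℝ} (hT : 0 ≤ T) {p : ℕ} :
    p ∈ pr T u v ↔ p.Prime ∧ T ^ u < (p : ℝ) ∧ (p : ℝ) ≤ T ^ v :=
  H47.mem_prs (Real.rpow_nonneg hT v)

lemma pr_add {T u v w : ℝ} (hT : 1 ≤ T) (huv : u ≤ v) (hvw : v ≤ w) (f : ℕ → ℝ) :
    ∑ p ∈ pr T u w, f p = ∑ p ∈ pr T u v, f p + ∑ p ∈ pr T v w, f p := by
  have hT0 : 0 ≤ T := by linarith
  have ha := Real.rpow_le_rpow_of_exponent_le hT huv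
  have hc := Real.rpow_le_rpow_of_exponent_le hT hvw
  rw [← sum_union]
  · congr 1
    ext p
    simp only [mem_union, mem_pr hT0]
    constructor
    · rintro ⟨h1, h2, h3⟩
      rcases le_or_gt (p : ℝ) (T ^ v) with h | h
      · exact Or.inl ⟨h1, h2, h⟩
      · exact Or.inr ⟨h1, h, h3⟩
    · rintro (⟨h1, h2, h3⟩ | ⟨h1, h2, h3⟩)
      · exact ⟨h1, h2, h3.trans hc⟩
      · exact ⟨h1, ha.trans_lt h2, h3⟩
  · rw [disjoint_left]
    intro p h1 h2
    rw [mem_pr hT0] at h1 h2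
    linarith [h1.2.2, h2.2.1]

lemma pr_zero (T v : ℝ) : ∑ p ∈ pr T 0 v, Real.log p / p = Ms (T ^ v) := by
  unfold Ms pr
  congr 1
  refine filter_congr fun p _ => ?_
  rw [Real.rpow_zero]
  exact ⟨fun h => h.1, fun h => ⟨h, by exact_mod_cast h.one_lt⟩⟩

lemma mass {K T u v : ℝ} (hK : ∀ x : ℝ, 1 ≤ x → |Ms x - Real.log x| ≤ K) (hT : 1 < T)
    (hu : 0 ≤ u) (huv : u ≤ v) :
    |∑ p ∈ pr T u v, Real.log p / p / Real.log T - (v - u)| ≤ 2 * K / Real.log T := by
  have hT0 : 0 < T := by linarith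
  have hL : 0 < Real.log T := Real.log_pos hT
  have h1 := pr_add hT.le hu huv fun p => Real.log p / p
  rw [pr_zero, pr_zero] at h1
  have h2 := hK _ (Real.one_le_rpow hT.le hu)
  have h3 := hK _ (Real.one_le_rpow hT.le (hu.trans huv))
  rw [Real.log_rpow hT0] at h2 h3
  rw [← sum_div, show (∑ p ∈ pr T u v, Real.log p / p) / Real.log T - (v - u) =
    ((Ms (T ^ v) - v * Real.log T) - (Ms (T ^ u) - u * Real.log T)) / Real.log T by
      rw [h1]; field_simp; ring, abs_div, abs_of_pos hL]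
  gcongr
  rw [abs_le] at h2 h3 ⊢
  constructor <;> linarith [h2.1, h2.2, h3.1, h3.2]

lemma piece {K T u v ε M : ℝ} {φ : ℝ → ℝ} (hK : ∀ x : ℝ, 1 ≤ x → |Ms x - Real.log x| ≤ K)
    (hT : 1 < T) (hu : 0 ≤ u) (huv : u ≤ v) (hφ : Continuous φ) (hε : 0 ≤ ε)
    (hc : ∀ x, u ≤ x → x ≤ v → |φ x - φ u| ≤ ε) (hM : |φ u| ≤ M) :
    |∑ p ∈ pr T u v, Real.log p / p / Real.log T * φ (Real.log p / Real.log T) -
      ∫ x in u..v, φ x| ≤ 2 * ε * (v - u) + (ε + M) * (2 * K / Real.log T) := by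
  have hT0 : 0 < T := by linarith
  have hL : 0 < Real.log T := Real.log_pos hT
  have h1 := mass hK hT hu huv
  set m := ∑ p ∈ pr T u v, Real.log p / p / Real.log T with hm
  set e := 2 * K / Real.log T
  have h2 : |∑ p ∈ pr T u v, Real.log p / p / Real.log T * φ (Real.log p / Real.log T) -
      m * φ u| ≤ m * ε := by
    rw [hm, sum_mul, sum_mul, ← sum_sub_distrib]
    refine (abs_sum_le_sum_abs _ _).trans (sum_le_sum fun p hp => ?_)
    rw [mem_pr hT0.le] at hp
    have hp0 : (0 : ℝ) < p := by exact_mod_cast hp.1.pos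
    have hw : 0 ≤ Real.log p / p / Real.log T :=
      div_nonneg (div_nonneg (Real.log_natCast_nonneg p) hp0.le) hL.le
    rw [← mul_sub, abs_mul, abs_of_nonneg hw]
    refine mul_le_mul_of_nonneg_left (hc _ ?_ ?_) hw
    · rw [le_div_iff₀ hL, ← Real.log_rpow hT0]
      exact Real.log_le_log (Real.rpow_pos_of_pos hT0 u) hp.2.1.le
    · rw [div_le_iff₀ hL, ← Real.log_rpow hT0]
      exact Real.log_le_log hp0 hp.2.2
  have h3 : |(∫ x in u..v, φ x) - (v - u) * φ u| ≤ ε * (v - u) := by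
    have h4 : (∫ x in u..v, φ x) - (v - u) * φ u = ∫ x in u..v, (φ x - φ u) := by
      rw [intervalIntegral.integral_sub (hφ.intervalIntegrable _ _) (by simp),
        intervalIntegral.integral_const, smul_eq_mul]
    rw [h4]
    have h5 := intervalIntegral.norm_integral_le_of_norm_le_const (a := u) (b := v) (C := ε)
      (f := fun x => φ x - φ u) fun x hx => by
        rw [Set.uIoc_of_le huv] at hx
        exact hc x hx.1.le hx.2
    rwa [abs_of_nonneg (sub_nonneg.2 huv)] at h5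
  have h4 : |(m - (v - u)) * φ u| ≤ e * M := by
    rw [abs_mul]
    exact mul_le_mul h1 hM (abs_nonneg _) ((abs_nonneg _).trans h1)
  have h5 : m * ε ≤ (v - u + e) * ε :=
    mul_le_mul_of_nonneg_right (by linarith [(abs_le.1 h1).2]) hε
  rw [abs_le] at h2 h3 h4 ⊢
  constructor <;> nlinarith [h2.1, h2.2, h3.1, h3.2, h4.1, h4.2]

lemma chain {K T α h ε M : ℝ} {φ : ℝ → ℝ} (hK : ∀ x : ℝ, 1 ≤ x → |Ms x - Real.log x| ≤ K)
    (hT : 1 < T) (hα : 0 ≤ α) (hh : 0 ≤ h) (hφ : Continuous φ) (hε : 0 ≤ ε) (n : ℕ)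
    (hc : ∀ x y, α ≤ y → y ≤ x → x ≤ α + n * h → x ≤ y + h → |φ x - φ y| ≤ ε)
    (hM : ∀ x, α ≤ x → x ≤ α + n * h → |φ x| ≤ M) :
    |∑ p ∈ pr T α (α + n * h), Real.log p / p / Real.log T * φ (Real.log p / Real.log T) -
      ∫ x in α..α + n * h, φ x| ≤ n * (2 * ε * h + (ε + M) * (2 * K / Real.log T)) := by
  induction n with
  | zero =>
    have : pr T α α = ∅ := by
      ext p
      rw [mem_pr (by linarith)]
      simp only [notMem_empty, iff_false]
      rintro ⟨_, h2, h3⟩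
      linarith
    simp [this]
  | succ n ih =>
    have h0 : 0 ≤ (n : ℝ) * h := by positivity
    push_cast at hc hM ⊢
    have h1 := ih (fun x y a b c d => hc x y a b (by linarith) d)
      fun x a b => hM x a (by linarith)
    have h2 := piece (u := α + n * h) (v := α + (n + 1) * h) hK hT (by linarith) (by linarith) hφ hε
      (fun x a b => hc x _ (by linarith) a b (by linarith)) (hM _ (by linarith) (by linarith))
    rw [pr_add (v := α + n * h) hT.le (by linarith) (by linarith),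
      ← intervalIntegral.integral_add_adjacent_intervals (b := α + n * h)
        (hφ.intervalIntegrable _ _) (hφ.intervalIntegrable _ _)]
    rw [abs_le] at h1 h2 ⊢
    constructor <;> nlinarith [h1.1, h1.2, h2.1, h2.2]

end PrimeRow

theorem primeS : PrimeStmt := by
  intro α β φ hα hαβ hφ
  obtain ⟨K, hK0, hK⟩ := PrimeRow.mertens
  obtain ⟨M, hM⟩ := (isCompact_Icc (a := α) (b := β)).exists_bound_of_continuousOn hφ.continuousOn
  have hU := (isCompact_Icc (a := α) (b := β)).uniformContinuousOn_of_continuous hφ.continuousOn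
  rw [Metric.tendsto_nhds]
  intro η hη
  have hd : 0 ≤ β - α := sub_nonneg.2 hαβ
  set ε := η / (4 * (β - α + 1)) with hε
  have hε0 : 0 < ε := by positivity
  obtain ⟨δ, hδ, hU⟩ := Metric.uniformContinuousOn_iff.1 hU ε hε0
  obtain ⟨n, hn⟩ := exists_nat_gt ((β - α) / δ)
  have hn0 : (0 : ℝ) < n := (div_nonneg hd hδ.le).trans_lt hn
  set h := (β - α) / n with hh
  have hh0 : 0 ≤ h := by positivity
  have hhδ : h < δ := by
    rw [hh, div_lt_iff₀ hn0, mul_comm]
    exact (div_lt_iff₀ hδ).1 hn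
  have hβ : α + n * h = β := by rw [hh]; field_simp; ring
  have hlim : Tendsto (fun T : ℝ => n * ((ε + M) * (2 * K / Real.log T))) atTop
      (𝓝 (n * ((ε + M) * 0))) :=
    ((Real.tendsto_log_atTop.const_div_atTop _).const_mul _).const_mul _
  rw [mul_zero, mul_zero] at hlim
  filter_upwards [eventually_gt_atTop 1, hlim.eventually (gt_mem_nhds (half_pos hη))] with T hT h1
  have h2 := PrimeRow.chain (M := M) hK hT hα hh0 hφ hε0.le n
    (fun x y a b c d => by
      rw [hβ] at c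
      have := hU x ⟨a.trans b, c⟩ y ⟨a, b.trans c⟩ (by
        rw [Real.dist_eq, abs_lt]
        constructor <;> linarith)
      rw [Real.dist_eq] at this
      exact this.le)
    fun x a b => hM x ⟨a, hβ ▸ b⟩
  rw [hβ] at h2
  rw [Real.dist_eq]
  have h3 : n * (2 * ε * h) ≤ η / 2 := by
    have h4 : n * (2 * ε * h) = η / 2 * ((β - α) / (β - α + 1)) := by
      rw [hh, hε]; field_simp; ring
    rw [h4]
    exact mul_le_of_le_one_right (by positivity) ((div_le_one (by positivity)).2 (by linarith))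
  linarith

end Pool.Agent.MP_ca0a54_nt.H13
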