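import Pool.Agent.MP_ca0a54_nt.H13.Spec
import Pool.Agent.MP_ca0a54_nt.H91.SC

/-! Row QB: the bilinear contour identity for Gabor functions. -/

open Complex MeasureTheory Filter Topology

namespace Pool.Agent.MP_ca0a54_nt.H13

open Pool.Agent.MP_ca0a54_nt.L0 Pool.Agent.MP_ca0a54_nt.H24 Pool.Agent.MP_ca0a54_nt.H10

namespace QB

/-- The modulation. -/
noncomputable def md (δ : ℝ) (z : ℂ) : ℂ := exp (I * δ * z)

theorem norm_md (δ : ℝ) (z : ℂ) : ‖md δ z‖ = Real.exp (-δ * z.im) := by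
  rw [md, norm_exp]
  simp

theorem bd_md (δ a b : ℝ) : Bd (md δ) a b := by
  refine ⟨Differentiable.differentiableOn (by unfold md; fun_prop),
    Real.exp (|δ| * (|a| + |b|)), (Real.exp_pos _).le, fun z hz => ?_⟩
  rw [norm_md]
  refine Real.exp_le_exp.2 ((le_abs_self _).trans ?_)
  rw [abs_mul, abs_neg]
  refine mul_le_mul_of_nonneg_left (abs_le.2 ⟨?_, ?_⟩) (abs_nonneg _)
  · linarith [hz.1, neg_abs_le a, abs_nonneg b]
  · linarith [hz.2, le_abs_self b, abs_nonneg a]

theorem gb_mul (t t' ξ ξ' : ℝ) (z : ℂ) :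
    gb t ξ z * (starRingEnd ℂ) (gb t' ξ' ((starRingEnd ℂ) z)) =
      (Real.exp (-(t - t') ^ 2 / 4) : ℝ) * (md (ξ - ξ') z * ga ((t + t') / 2) z) := by
  unfold gb md ga
  rw [← exp_conj, ofReal_exp, ← exp_add, ← exp_add, ← exp_add]
  congr 1
  simp only [map_sub, map_mul, map_div₀, map_pow, conj_I, conj_ofReal, conj_conj, map_ofNat]
  push_cast
  ring

theorem left (V : ℂ → ℂ) (r : ℕ → ℂ) (N : ℕ) (t t' ξ ξ' c : ℝ) :
    ∫ x : ℝ, V (x - c * I) * ((fun z => dp r N z * gb t ξ z) (x - c * I) *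
      st (fun z => dp r N z * gb t' ξ' z) (x - c * I)) = (Real.exp (-(t - t') ^ 2 / 4) : ℝ) *
      li (fun z => V z * (dp r N z * Rs r N z) * md (ξ - ξ') z) ((t + t') / 2) (-c) := by
  rw [li, ← integral_const_mul]
  congr 1
  funext x
  have h := gb_mul t t' ξ ξ' (x - c * I)
  rw [show (x : ℂ) + ((-c : ℝ) : ℂ) * I = x - c * I by push_cast; ring]
  simp only [st, map_mul, conj_dp, conj_conj]
  linear_combination (V (x - c * I) * dp r N (x - c * I) * Rs r N (x - c * I)) * h

theorem right (P : ℂ → ℂ) (r : ℕ → ℂ) (N : ℕ) (t t' ξ ξ' : ℝ) :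
    ∫ x : ℝ, P x * (starRingEnd ℂ) (dp r N x) * (gb t ξ x * (starRingEnd ℂ) (gb t' ξ' x)) =
      (Real.exp (-(t - t') ^ 2 / 4) : ℝ) *
        li (fun z => P z * Rs r N z * md (ξ - ξ') z) ((t + t') / 2) 0 := by
  rw [li, ← integral_const_mul]
  congr 1
  funext x
  have h := gb_mul t t' ξ ξ' x
  rw [conj_ofReal] at h
  rw [h, conj_dp, conj_ofReal, ofReal_zero, zero_mul, add_zero]
  ring

end QB

open QB

theorem qb : QbStmt := by
  intro ε hε hε2
  have hs := H91.shift
  set c : ℝ := 1 / 2 + ε / 8 with hcd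
  set H : ℝ := 2 + 40 / ε with hHd
  have hH : 2 ≤ H := le_add_of_nonneg_right (by positivity)
  have hc : 0 < c := by positivity
  have e1 := Real.tendsto_log_atTop.eventually
    (ev_pow (2 * 2 * Real.exp (c ^ 2) * K0) (ε / 8) (by positivity) 4)
  have e2 := Real.tendsto_log_atTop.eventually
    (ev_pow (2 * 2 * Real.exp ((c + H) ^ 2) * K0) (1 / 2) (by norm_num) 2)
  filter_upwards [e1, e2, Real.tendsto_log_atTop.eventually (eventually_ge_atTop 1),
    eventually_gt_atTop (0 : ℝ)] with T hT1 hT2 hL hT N N₂ t t' ξ ξ' V d r hN hNT hN₂ hξ hr hd hV hA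
  set L := Real.log T with hLd
  have hNp : (0 : ℝ) < N := Nat.cast_pos.2 hN
  have hlN : Real.log N ≤ (1 - ε) * L := by
    rw [hLd, ← Real.log_rpow hT]
    exact Real.log_le_log hNp hNT
  have hl0 := Real.log_natCast_nonneg N
  have hεL : 0 < ε * L := by positivity
  have hN₂1 : 1 ≤ N₂ := by
    rcases Nat.eq_zero_or_pos N₂ with h | h
    · rw [h, Nat.cast_zero, Real.log_zero] at hN₂
      linarith
    · exact h
  have hδ : ξ - ξ' ≤ ε * L / 4 := (le_abs_self _).trans hξ
  rw [left, right, ← mul_sub, norm_mul, norm_real, Real.norm_of_nonneg (Real.exp_pos _).le]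
  set δ := ξ - ξ'
  set m := (t + t') / 2 with hm
  have hD : ∀ a, Bd (fun z => LSeries d (1 / 2 + I * z)) a (-c) :=
    bd_D hd (by rw [hcd]; linarith)
  have hR := bd_dp r N
  have hS := bd_Rs r N
  have hP := bd_dp (cv d (cut r N)) N₂
  have hE := bd_md δ
  have b1 : Bd (fun z => (V z - LSeries d (1 / 2 + I * z)) * (dp r N z * Rs r N z) * md δ z)
      (-c) (-c) := ((hV.sub (hD _)).mul ((hR _ _).mul (hS _ _))).mul (hE _ _)
  have b2 : ∀ a, Bd (fun z => (LSeries d (1 / 2 + I * z) * dp r N z - dp (cv d (cut r N)) N₂ z) *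
      Rs r N z * md δ z) a (-c) := fun a =>
    ((((hD a).mul (hR _ _)).sub (hP _ _)).mul (hS _ _)).mul (hE _ _)
  have b3 : ∀ a b, Bd (fun z => dp (cv d (cut r N)) N₂ z * Rs r N z * md δ z) a b := fun a b =>
    ((hP a b).mul (hS a b)).mul (hE a b)
  have hsplit : (fun z => V z * (dp r N z * Rs r N z) * md δ z) = fun z =>
      ((V z - LSeries d (1 / 2 + I * z)) * (dp r N z * Rs r N z) * md δ z +
        (LSeries d (1 / 2 + I * z) * dp r N z - dp (cv d (cut r N)) N₂ z) * Rs r N z * md δ z) +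
        dp (cv d (cut r N)) N₂ z * Rs r N z * md δ z := by
    funext z
    ring
  rw [hsplit, li_add (b1.add (b2 _)) (b3 _ _), li_add b1 (b2 _),
    li_shift hs (by linarith : -c ≤ 0) (b3 _ _), ← li_shift hs (by linarith : -(c + H) ≤ -c) (b2 _),
    add_sub_cancel_right]
  have k1 := li_bound (F := fun z => (V z - LSeries d (1 / 2 + I * z)) *
      (dp r N z * Rs r N z) * md δ z) (γ := -c) (t := m)
      (B := L ^ 3 / T * Real.exp ((t - t') ^ 2 / 16) * (2 * L * Real.exp ((1 - 7 * ε / 8) * L)) *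
        Real.exp (ε / 4 * L)) fun x => by
    have h3 : ((x : ℂ) + ((-c : ℝ) : ℂ) * I).im = -c := by simp
    have h1 := hA _ h3
    have h4 := norm_dp hr N ((x : ℂ) + ((-c : ℝ) : ℂ) * I) (by rw [h3, hcd]; linarith)
    have h5 := norm_Rs hr hN ((x : ℂ) + ((-c : ℝ) : ℂ) * I) (by rw [h3, hcd]; linarith)
    rw [h3] at h5
    rw [show ((x : ℂ) + ((-c : ℝ) : ℂ) * I).re = x by simp] at h1
    have h6 : (1 / 2 - -c) * Real.log N ≤ (1 - 7 * ε / 8) * L := by
      rw [hcd]
      nlinarith [mul_le_mul_of_nonneg_left hlN (by positivity : 0 ≤ 1 + ε / 8),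
        mul_pos hε hεL]
    have h7 : Real.exp ((x - t) ^ 2 / 8) ≤
        Real.exp ((t - t') ^ 2 / 16) * Real.exp ((x - m) ^ 2 / 4) := by
      rw [← Real.exp_add, hm]
      exact Real.exp_le_exp.2 (by nlinarith [sq_nonneg (x - t')])
    have h8 : -δ * -c ≤ ε / 4 * L := by
      have : c ≤ 1 := by rw [hcd]; linarith
      nlinarith [mul_le_mul_of_nonneg_right hδ hc.le]
    rw [norm_mul, norm_mul, norm_mul, norm_md, h3]
    refine (mul_le_mul (mul_le_mul (h1.trans (mul_le_mul_of_nonneg_left h7 (by positivity)))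
      (mul_le_mul (h4.trans (by linarith : _ ≤ 2 * L)) (h5.trans (Real.exp_le_exp.2 h6))
        (norm_nonneg _) (by positivity)) (by positivity) (by positivity))
      (Real.exp_le_exp.2 h8) (by positivity) (by positivity)).trans (le_of_eq ?_)
    ring
  have k2 := li_bound (F := fun z => (LSeries d (1 / 2 + I * z) * dp r N z -
      dp (cv d (cut r N)) N₂ z) * Rs r N z * md δ z) (γ := -(c + H)) (t := m)
      (B := 2 * L ^ 2 * Real.exp (-(3 / 4) * L)) fun x => by
    have h3 : ((x : ℂ) + ((-(c + H) : ℝ) : ℂ) * I).im = -(c + H) := by simp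
    have h4 := tail_bound (by positivity) (by positivity) hH hd hr N N₂ hN₂1
      ((x : ℂ) + ((-(c + H) : ℝ) : ℂ) * I) (by rw [h3, hcd]; linarith)
    have h5 := norm_Rs hr hN ((x : ℂ) + ((-(c + H) : ℝ) : ℂ) * I) (by rw [h3]; linarith)
    rw [h3] at h5
    have h6 : (2 - H) * Real.log N₂ + (1 / 2 - -(c + H)) * Real.log N + -δ * -(c + H) ≤
        -(3 / 4) * L := by
      have h7 : (H - 2) * (ε * L / 4) = 10 * L := by
        rw [hHd]
        field_simp
        ring
      have h8 := mul_le_mul_of_nonneg_left hN₂ (sub_nonneg.2 hH)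
      have h9 : Real.log N ≤ L := by linarith
      have h10 : ε * Real.log N ≤ 1 / 2 * L := mul_le_mul hε2 h9 hl0 (by norm_num)
      have h11 := mul_le_mul_of_nonneg_right hδ (by linarith : 0 ≤ c + H)
      have h12 : ε * L ≤ 1 / 2 * L := mul_le_mul_of_nonneg_right hε2 (by linarith)
      have h13 : ε * L * c ≤ ε * L * 1 :=
        mul_le_mul_of_nonneg_left (by rw [hcd]; linarith) hεL.le
      have h14 : (1 / 2 - -(c + H)) * Real.log N =
          (H - 2) * Real.log N + 3 * Real.log N + ε * Real.log N / 8 := by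
        rw [hcd]
        ring
      rw [h14]
      nlinarith
    rw [norm_mul, norm_mul, norm_md, h3]
    refine (mul_le_mul_of_nonneg_right (mul_le_mul h4 h5 (norm_nonneg _) (by positivity))
      (Real.exp_pos _).le).trans ?_
    rw [mul_assoc, mul_assoc, ← Real.exp_add, ← Real.exp_add, ← add_assoc]
    refine (mul_le_mul_of_nonneg_left (Real.exp_le_exp.2 h6) (by positivity)).trans
      (le_mul_of_one_le_right (by positivity) (Real.one_le_exp (by positivity)))
  rw [neg_sq] at k1 k2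
  rw [Real.rpow_def_of_pos hT, ← hLd]
  have hTe : T = Real.exp L := (Real.exp_log hT).symm
  have m1 : L ^ 3 / T * (2 * L * Real.exp ((1 - 7 * ε / 8) * L)) * Real.exp (ε / 4 * L) *
      Real.exp (c ^ 2) * K0 ≤ Real.exp (L * -(ε / 2)) / 2 := by
    have h1 : Real.exp ((1 - 7 * ε / 8) * L) * Real.exp (ε / 4 * L) =
        T * Real.exp (-(5 * ε / 8) * L) := by
      rw [hTe, ← Real.exp_add, ← Real.exp_add]
      congr 1
      ring
    have h2 : Real.exp (ε / 8 * L) * Real.exp (-(5 * ε / 8) * L) ≤ Real.exp (L * -(ε / 2)) := by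
      rw [← Real.exp_add]
      exact Real.exp_le_exp.2 (by linarith)
    have h3 := mul_le_mul_of_nonneg_right hT1 (Real.exp_pos (-(5 * ε / 8) * L)).le
    have h4 : L ^ 3 / T * (2 * L * (T * Real.exp (-(5 * ε / 8) * L))) * Real.exp (c ^ 2) * K0 =
        2 * 2 * Real.exp (c ^ 2) * K0 * L ^ 4 * Real.exp (-(5 * ε / 8) * L) / 2 := by
      field_simp
    rw [mul_assoc (L ^ 3 / T), mul_assoc (2 * L), h1, h4]
    linarith
  have m2 : 2 * L ^ 2 * Real.exp (-(3 / 4) * L) * Real.exp ((c + H) ^ 2) * K0 ≤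
      Real.exp (L * -(ε / 2)) / 2 := by
    have h2 : Real.exp (1 / 2 * L) * Real.exp (-(3 / 4) * L) ≤ Real.exp (L * -(ε / 2)) := by
      rw [← Real.exp_add]
      exact Real.exp_le_exp.2 (by nlinarith)
    have h3 := mul_le_mul_of_nonneg_right hT2 (Real.exp_pos (-(3 / 4) * L)).le
    linarith
  have g1 : 1 ≤ Real.exp ((t - t') ^ 2 / 16) := Real.one_le_exp (by positivity)
  have g2 : Real.exp (-(t - t') ^ 2 / 4) * Real.exp ((t - t') ^ 2 / 16) ≤
      Real.exp (-(t - t') ^ 2 / 8) := by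
    rw [← Real.exp_add]
    exact Real.exp_le_exp.2 (by nlinarith [sq_nonneg (t - t')])
  have g3 := mul_le_mul_of_nonneg_left m1 (Real.exp_pos ((t - t') ^ 2 / 16)).le
  have g4 := Real.exp_pos (L * -(ε / 2))
  refine (mul_le_mul_of_nonneg_left (((norm_add_le _ _).trans (add_le_add k1 (k2.trans m2))).trans
    (?_ : _ ≤ Real.exp ((t - t') ^ 2 / 16) * Real.exp (L * -(ε / 2)))) (Real.exp_pos _).le).trans ?_
  · nlinarith
  · rw [← mul_assoc, mul_comm]
    exact mul_le_mul_of_nonneg_left g2 g4.le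

end Pool.Agent.MP_ca0a54_nt.H13
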