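import Pool.Agent.MP_ca0a54_nt.H13.Spec

/-!
Row REP: the coefficients `rr` represent polynomials in elementary symmetric prime sums.
-/

open Complex MeasureTheory Filter Topology

namespace Pool.Agent.MP_ca0a54_nt.H13

open Pool.Agent.MP_ca0a54_nt.L0 Pool.Agent.MP_ca0a54_nt.H24

namespace RepAux

variable {J : ℕ}

/-- The integer attached to a family of sets of primes. -/
def nA (A : Fin J → Finset ℕ) : ℕ := ∏ j, ∏ p ∈ A j, p

lemma nA_pos {A : Fin J → Finset ℕ} (hA : ∀ j, ∀ p ∈ A j, p.Prime) : 0 < nA A :=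
  Finset.prod_pos fun j _ => Finset.prod_pos fun p hp => (hA j p hp).pos

lemma dvd_nA {A : Fin J → Finset ℕ} {j : Fin J} {q : ℕ} (hq : q ∈ A j) : q ∣ nA A :=
  (Finset.dvd_prod_of_mem (fun p : ℕ => p) hq).trans
    (Finset.dvd_prod_of_mem (fun j => ∏ p ∈ A j, p) (Finset.mem_univ j))

lemma mem_of_dvd {A : Fin J → Finset ℕ} (hA : ∀ j, ∀ p ∈ A j, p.Prime) {q : ℕ} (hq : q.Prime)
    (h : q ∣ nA A) : ∃ j, q ∈ A j := by
  obtain ⟨j, -, hj⟩ := (Prime.dvd_finsetProd_iff hq.prime _).1 h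
  obtain ⟨p, hp, hqp⟩ := (Prime.dvd_finsetProd_iff hq.prime _).1 hj
  exact ⟨j, by rwa [(Nat.prime_dvd_prime_iff_eq hq (hA j p hp)).1 hqp]⟩

lemma sub_of_dvd {S A A' : Fin J → Finset ℕ} (hp : ∀ j, ∀ p ∈ S j, p.Prime)
    (hd : ∀ j j', j ≠ j' → Disjoint (S j) (S j')) (hA : ∀ j, A j ⊆ S j) (hA' : ∀ j, A' j ⊆ S j)
    (h : nA A ∣ nA A') (j : Fin J) : A j ⊆ A' j := by
  intro q hq
  obtain ⟨j', hj'⟩ := mem_of_dvd (fun j p h => hp j p (hA' j h)) (hp j q (hA j hq))
    ((dvd_nA hq).trans h)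
  by_cases e : j = j'
  · rwa [e]
  · exact absurd (hA' j' hj') (Finset.disjoint_left.1 (hd j j' e) (hA j hq))

lemma nA_sdiff {A A' : Fin J → Finset ℕ} (h : ∀ j, A j ⊆ A' j) :
    nA A' = nA (fun j => A' j \ A j) * nA A := by
  unfold nA
  rw [← Finset.prod_mul_distrib]
  exact Finset.prod_congr rfl fun j _ => (Finset.prod_sdiff (h j)).symm

lemma b_prod (b : ℕ → ℂ) (h1 : b 1 = 1) (hm : ∀ u v : ℕ, u.Coprime v → b (u * v) = b u * b v)
    (U : Finset ℕ) (hU : ∀ p ∈ U, p.Prime) : b (∏ p ∈ U, p) = ∏ p ∈ U, b p := by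
  induction U using Finset.induction_on with
  | empty => simpa using h1
  | insert q U hq ih =>
    rw [Finset.prod_insert hq, Finset.prod_insert hq, hm, ih fun p hp => hU p (by simp [hp])]
    refine Nat.Coprime.prod_right fun p hp => ?_
    refine (Nat.coprime_primes (hU q (by simp)) (hU p (by simp [hp]))).2 ?_
    rintro rfl
    exact hq hp

lemma b_nA (b : ℕ → ℂ) (h1 : b 1 = 1) (hm : ∀ u v : ℕ, u.Coprime v → b (u * v) = b u * b v)
    {S A : Fin J → Finset ℕ} (hp : ∀ j, ∀ p ∈ S j, p.Prime)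
    (hd : ∀ j j', j ≠ j' → Disjoint (S j) (S j')) (hA : ∀ j, A j ⊆ S j) :
    b (nA A) = ∏ j, ∏ p ∈ A j, b p := by
  have hdis : ((Finset.univ : Finset (Fin J)) : Set (Fin J)).PairwiseDisjoint A :=
    fun j _ j' _ e => (hd j j' e).mono (hA j) (hA j')
  unfold nA
  rw [← Finset.prod_biUnion hdis, ← Finset.prod_biUnion hdis]
  refine b_prod b h1 hm _ fun p h => ?_
  obtain ⟨j, -, hj⟩ := Finset.mem_biUnion.1 h
  exact hp j p (hA j hj)

lemma np_mul (z : ℂ) {u v : ℕ} (hu : 0 < u) (hv : 0 < v) : np z (u * v) = np z u * np z v := by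
  unfold np
  rw [← Complex.exp_add, Nat.cast_mul, Real.log_mul (by positivity) (by positivity)]
  congr 1
  push_cast
  ring

lemma np_prod {ι : Type} (z : ℂ) (U : Finset ι) (f : ι → ℕ) (hf : ∀ i ∈ U, 0 < f i) :
    np z (∏ i ∈ U, f i) = ∏ i ∈ U, np z (f i) := by
  classical
  induction U using Finset.induction_on with
  | empty => simp [np]
  | insert q U hq ih =>
    rw [Finset.prod_insert hq, Finset.prod_insert hq, np_mul z (hf q (by simp))
      (Finset.prod_pos fun i hi => hf i (by simp [hi])), ih fun i hi => hf i (by simp [hi])]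

lemma np_nA (z : ℂ) {A : Fin J → Finset ℕ} (hA : ∀ j, ∀ p ∈ A j, p.Prime) :
    np z (nA A) = ∏ j, ∏ p ∈ A j, np z p := by
  unfold nA
  rw [np_prod z _ _ fun j _ => Finset.prod_pos fun p hp => (hA j p hp).pos]
  exact Finset.prod_congr rfl fun j _ => np_prod z _ (fun p => p) fun p hp => (hA j p hp).pos

lemma mem_PF {S A : Fin J → Finset ℕ} {l : Fin J → ℕ}
    (h : A ∈ Fintype.piFinset fun j => (S j).powersetCard (l j)) (j : Fin J) :
    A j ⊆ S j ∧ (A j).card = l j :=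
  Finset.mem_powersetCard.1 (Fintype.mem_piFinset.1 h j)

/-- A sum against `rr` collapses to a sum over families. -/
lemma collapse {m N : ℕ} {S : Fin J → Finset ℕ} (c : Fin J → ℕ → ℂ) (ν : Fin m → Fin J → ℕ)
    (ρ : Fin m → ℂ) (hp : ∀ j, ∀ p ∈ S j, p.Prime)
    (hN : ∀ k, ∀ A ∈ Fintype.piFinset fun j => (S j).powersetCard (ν k j),
      ∏ j, ∏ p ∈ A j, p ≤ N) (F : ℕ → ℂ) :
    ∑ n ∈ Finset.Icc 1 N, rr S c ν ρ n * F n =
      ∑ k, ∑ A ∈ Fintype.piFinset fun j => (S j).powersetCard (ν k j),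
        ρ k * (∏ j, ∏ p ∈ A j, c j p) * F (nA A) := by
  unfold rr
  simp only [Finset.sum_mul]
  rw [Finset.sum_comm]
  refine Finset.sum_congr rfl fun k _ => ?_
  rw [Finset.sum_comm]
  refine Finset.sum_congr rfl fun A hA => ?_
  have hmem : nA A ∈ Finset.Icc 1 N :=
    Finset.mem_Icc.2 ⟨nA_pos fun j p h => hp j p ((mem_PF hA j).1 h), hN k A hA⟩
  rw [Finset.sum_eq_single_of_mem (nA A) hmem]
  · rw [if_pos (show ∏ j, ∏ p ∈ A j, p = nA A from rfl)]
  · intro n _ hn
    rw [if_neg (show ¬ ∏ j, ∏ p ∈ A j, p = n from fun e => hn e.symm), zero_mul]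

lemma conj_rr {m : ℕ} (S : Fin J → Finset ℕ) (c : Fin J → ℕ → ℂ) (ν : Fin m → Fin J → ℕ)
    (ρ : Fin m → ℂ) (n : ℕ) : (starRingEnd ℂ) (rr S c ν ρ n) =
      rr S (fun j p => (starRingEnd ℂ) (c j p)) ν (fun k => (starRingEnd ℂ) (ρ k)) n := by
  unfold rr
  simp only [map_sum]
  refine Finset.sum_congr rfl fun k _ => Finset.sum_congr rfl fun A _ => ?_
  split_ifs
  · simp only [map_mul, map_prod]
  · simp

lemma cv_cut (b r : ℕ → ℂ) {N n : ℕ} (h1 : 1 ≤ n) (hn : n ≤ N) :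
    cv b (cut r N) n = ∑ d ∈ Finset.Icc 1 N, r d * if d ∣ n then b (n / d) else 0 := by
  unfold cv
  rw [LSeries.convolution_def]
  simp only []
  rw [Nat.sum_divisorsAntidiagonal' fun u v => b u * cut r N v]
  simp only [mul_ite, mul_zero]
  rw [← Finset.sum_filter]
  refine Finset.sum_congr ?_ fun d hd => ?_
  · ext d
    simp only [Nat.mem_divisors, Finset.mem_filter, Finset.mem_Icc]
    constructor
    · rintro ⟨h, -⟩
      exact ⟨⟨Nat.pos_of_dvd_of_pos h h1, (Nat.le_of_dvd h1 h).trans hn⟩, h⟩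
    · rintro ⟨-, h⟩
      exact ⟨h, by omega⟩
  · have := (Finset.mem_Icc.1 (Finset.mem_filter.1 hd).1).2
    unfold cut
    rw [if_pos this, mul_comm]

lemma s2_eq (l m : ℕ) (S : Finset ℕ) (g h : ℕ → ℂ) : s2 l m S g h =
    ∑ A ∈ S.powersetCard m, ∑ B ∈ S.powersetCard l,
      if B ⊆ A then (∏ p ∈ A \ B, g p) * ∏ p ∈ B, h p else 0 := by
  unfold s2
  refine Finset.sum_congr rfl fun A hA => ?_
  rw [← Finset.sum_filter]
  refine Finset.sum_congr ?_ fun _ _ => rfl
  ext B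
  simp only [Finset.mem_powersetCard, Finset.mem_filter]
  exact ⟨fun h => ⟨⟨h.1.trans (Finset.mem_powersetCard.1 hA).1, h.2⟩, h.1⟩,
    fun h => ⟨h.2, h.1.2⟩⟩

/-- The term of a pair of families is a product over the boxes. -/
lemma term (b : ℕ → ℂ) (h1 : b 1 = 1) (hm : ∀ u v : ℕ, u.Coprime v → b (u * v) = b u * b v)
    {S A B : Fin J → Finset ℕ} (c : Fin J → ℕ → ℂ) (hp : ∀ j, ∀ p ∈ S j, p.Prime)
    (hd : ∀ j j', j ≠ j' → Disjoint (S j) (S j')) (hA : ∀ j, A j ⊆ S j) (hB : ∀ j, B j ⊆ S j) :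
    (∏ j, ∏ p ∈ A j, (starRingEnd ℂ) (c j p)) * (((∏ j, ∏ p ∈ B j, c j p) *
      if nA B ∣ nA A then b (nA A / nA B) else 0) / (nA A : ℕ)) =
    ∏ j, if B j ⊆ A j then (∏ p ∈ A j \ B j, b p * (starRingEnd ℂ) (c j p) / p) *
      ∏ p ∈ B j, c j p * (starRingEnd ℂ) (c j p) / p else 0 := by
  by_cases h : ∀ j, B j ⊆ A j
  · have e := nA_sdiff h
    have hpos : 0 < nA B := nA_pos fun j p hq => hp j p (hB j hq)
    have hdv : nA B ∣ nA A := ⟨_, e.trans (mul_comm _ _)⟩
    have hq : nA A / nA B = nA fun j => A j \ B j := by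
      rw [e, Nat.mul_div_cancel _ hpos]
    rw [if_pos hdv, hq, b_nA b h1 hm hp hd fun j => Finset.sdiff_subset.trans (hA j)]
    have hc : ((nA A : ℕ) : ℂ) = ∏ j, ∏ p ∈ A j, (p : ℂ) := by
      unfold nA
      push_cast
      rfl
    rw [hc, ← Finset.prod_mul_distrib, ← Finset.prod_div_distrib, ← Finset.prod_mul_distrib]
    refine Finset.prod_congr rfl fun j _ => ?_
    rw [if_pos (h j), ← Finset.prod_sdiff (h j),
      ← Finset.prod_sdiff (h j) (f := fun p : ℕ => (p : ℂ))]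
    simp only [Finset.prod_div_distrib, Finset.prod_mul_distrib]
    ring
  · have hn : ¬ nA B ∣ nA A := fun hdv => h (sub_of_dvd hp hd hB hA hdv)
    rw [if_neg hn]
    obtain ⟨j, hj⟩ := not_forall.1 h
    rw [mul_zero, zero_div, mul_zero]
    exact (Finset.prod_eq_zero (Finset.mem_univ j) (if_neg hj)).symm

end RepAux

open RepAux in
theorem rep : RepStmt := by
  intro J m N S c ν ρ hp hd hN
  refine ⟨fun w => ?_, fun M hM hc n => ?_, fun b h1 hm => ?_⟩
  · unfold dp ds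
    rw [collapse c ν ρ hp hN]
    refine Finset.sum_congr rfl fun k _ => ?_
    unfold es
    rw [Finset.prod_univ_sum, Finset.mul_sum]
    refine Finset.sum_congr rfl fun A hA => ?_
    rw [np_nA _ fun j p h => hp j p ((mem_PF hA j).1 h), mul_assoc, ← Finset.prod_mul_distrib]
    simp only [Finset.prod_mul_distrib]
  · unfold rr
    refine (norm_sum_le _ _).trans (Finset.sum_le_sum fun k _ => ?_)
    by_cases h : ∃ A ∈ Fintype.piFinset fun j => (S j).powersetCard (ν k j), nA A = n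
    · obtain ⟨A, hA, e⟩ := h
      rw [Finset.sum_eq_single_of_mem A hA]
      · rw [if_pos (show ∏ j, ∏ p ∈ A j, p = n from e), norm_mul, norm_prod,
          ← Finset.prod_pow_eq_pow_sum]
        refine mul_le_mul_of_nonneg_left (Finset.prod_le_prod (fun j _ => norm_nonneg _)
          fun j _ => ?_) (norm_nonneg _)
        rw [norm_prod, ← (mem_PF hA j).2, ← Finset.prod_const]
        exact Finset.prod_le_prod (fun p _ => norm_nonneg _)
          fun p h => hc j p ((mem_PF hA j).1 h)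
      · intro B hB hne
        refine if_neg fun e' => hne (funext fun j => Finset.Subset.antisymm ?_ ?_)
        · exact sub_of_dvd hp hd (fun j => (mem_PF hB j).1) (fun j => (mem_PF hA j).1)
            (dvd_of_eq (e'.trans e.symm)) j
        · exact sub_of_dvd hp hd (fun j => (mem_PF hA j).1) (fun j => (mem_PF hB j).1)
            (dvd_of_eq (e.trans e'.symm)) j
    · rw [Finset.sum_eq_zero, norm_zero]
      · positivity
      · exact fun A hA => if_neg fun e => h ⟨A, hA, e⟩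
  · have e1 : ∀ n : ℕ, cv b (cut (rr S c ν ρ) N) n * (starRingEnd ℂ) (rr S c ν ρ n) / n =
        rr S (fun j p => (starRingEnd ℂ) (c j p)) ν (fun k => (starRingEnd ℂ) (ρ k)) n *
          (cv b (cut (rr S c ν ρ) N) n / n) := fun n => by
      rw [conj_rr]
      ring
    simp only [e1]
    rw [collapse _ ν _ hp hN, Finset.sum_comm]
    refine Finset.sum_congr rfl fun k' _ => ?_
    have e2 : ∀ A ∈ Fintype.piFinset fun j => (S j).powersetCard (ν k' j),
        (starRingEnd ℂ) (ρ k') * (∏ j, ∏ p ∈ A j, (starRingEnd ℂ) (c j p)) *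
          (cv b (cut (rr S c ν ρ) N) (nA A) / (nA A : ℕ)) =
        ∑ k, ρ k * (starRingEnd ℂ) (ρ k') *
          ∑ B ∈ Fintype.piFinset fun j => (S j).powersetCard (ν k j),
            ∏ j, if B j ⊆ A j then (∏ p ∈ A j \ B j, b p * (starRingEnd ℂ) (c j p) / p) *
              ∏ p ∈ B j, c j p * (starRingEnd ℂ) (c j p) / p else 0 := by
      intro A hA
      rw [cv_cut b _ (nA_pos fun j p h => hp j p ((mem_PF hA j).1 h)) (hN k' A hA),
        collapse c ν ρ hp hN, Finset.sum_div, Finset.mul_sum]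
      refine Finset.sum_congr rfl fun k _ => ?_
      rw [Finset.sum_div, Finset.mul_sum, Finset.mul_sum]
      refine Finset.sum_congr rfl fun B hB => ?_
      rw [← term b h1 hm c hp hd (fun j => (mem_PF hA j).1) fun j => (mem_PF hB j).1]
      ring
    rw [Finset.sum_congr rfl e2, Finset.sum_comm]
    refine Finset.sum_congr rfl fun k _ => ?_
    rw [← Finset.mul_sum]
    congr 1
    simp only [s2_eq]
    rw [Finset.prod_univ_sum]
    refine Finset.sum_congr rfl fun A _ => ?_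
    rw [Finset.prod_univ_sum]

end Pool.Agent.MP_ca0a54_nt.H13
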