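import Pool.Agent.MP_ca0a54_nt.H13.Spec
import Pool.Agent.MP_ca0a54_nt.H91.SC

/-!
Row RES: the sign of the sum of residues at the good poles.
-/

open Complex MeasureTheory Filter Topology

namespace Pool.Agent.MP_ca0a54_nt.H13

open Pool.Agent.MP_ca0a54_nt.L0 Pool.Agent.MP_ca0a54_nt.H24

namespace Res

theorem pz_zero (w : ℂ) : pz 0 w = 1 := by simp [pz]

theorem pz_cons (z : ℂ) (A : Multiset ℂ) (w : ℂ) : pz (z ::ₘ A) w = (w - z) * pz A w := by
  simp [pz]

theorem pz_add (A B : Multiset ℂ) (w : ℂ) : pz (A + B) w = pz A w * pz B w := by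
  simp [pz]

theorem pz_diff (A : Multiset ℂ) : Differentiable ℂ (pz A) := by
  induction A using Multiset.induction_on with
  | empty =>
    have e : pz 0 = fun _ => 1 := funext pz_zero
    rw [e]
    exact differentiable_const _
  | cons z A ih =>
    have e : pz (z ::ₘ A) = fun w => (w - z) * pz A w := funext (pz_cons z A)
    rw [e]
    exact (differentiable_id.sub_const z).mul ih

theorem pz_conj (A : Multiset ℂ) (w : ℂ) :
    (starRingEnd ℂ) (pz A w) = pz (A.map (starRingEnd ℂ)) ((starRingEnd ℂ) w) := by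
  induction A using Multiset.induction_on with
  | empty => simp [pz]
  | cons z A ih => rw [Multiset.map_cons, pz_cons, pz_cons, map_mul, map_sub, ih]

theorem pz_ne {A : Multiset ℂ} {w : ℂ} (h : w ∉ A) : pz A w ≠ 0 := by
  induction A using Multiset.induction_on with
  | empty =>
    rw [pz_zero]
    exact one_ne_zero
  | cons z A ih =>
    rw [Multiset.mem_cons, not_or] at h
    rw [pz_cons]
    exact mul_ne_zero (sub_ne_zero.mpr h.1) (ih h.2)

theorem pz_fin (G : Finset ℝ) (w : ℂ) :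
    pz (G.val.map fun u : ℝ => (u : ℂ)) w = ∏ u ∈ G, (w - (u : ℂ)) := by
  rw [pz, Multiset.map_map]
  rfl

theorem pz_big (A : Multiset ℂ) : ∃ R : ℝ, 0 ≤ R ∧ ∀ w : ℂ, R ≤ |w.re| → 1 ≤ ‖pz A w‖ := by
  induction A using Multiset.induction_on with
  | empty => exact ⟨0, le_rfl, fun w _ => by rw [pz_zero, norm_one]⟩
  | cons z A ih =>
    obtain ⟨R, h0, hR⟩ := ih
    refine ⟨R + |z.re| + 1, by positivity, fun w hw => ?_⟩
    have h1 := hR w (by linarith [abs_nonneg z.re])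
    have h2 := abs_re_le_norm (w - z)
    rw [sub_re] at h2
    have h3 := abs_sub_abs_le_abs_sub w.re z.re
    rw [pz_cons, norm_mul]
    exact one_le_mul_of_one_le_of_one_le (by linarith) h1

theorem pz_grow (A : Multiset ℂ) : ∀ ε : ℝ, 0 < ε → ∃ C : ℝ, 0 ≤ C ∧ ∀ w : ℂ, |w.im| ≤ 1 →
    ‖pz A w‖ ≤ C * Real.exp (ε * w.re ^ 2) := by
  induction A using Multiset.induction_on with
  | empty =>
    intro ε hε
    refine ⟨1, zero_le_one, fun w _ => ?_⟩
    rw [pz_zero, norm_one, one_mul]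
    exact Real.one_le_exp (by positivity)
  | cons z A ih =>
    intro ε hε
    obtain ⟨C, h0, hC⟩ := ih (ε / 2) (by positivity)
    refine ⟨(2 + ‖z‖ + 1 / ε) * C, by positivity, fun w hw => ?_⟩
    have e1 : 1 ≤ Real.exp (ε / 2 * w.re ^ 2) := Real.one_le_exp (by positivity)
    have e2 := Real.add_one_le_exp (ε / 2 * w.re ^ 2)
    have e3 : |w.re| ≤ ε / 2 * w.re ^ 2 + 1 / ε := by
      have h1 : ε * |w.re| ≤ ε * (ε / 2 * w.re ^ 2 + 1 / ε) := by
        rw [mul_add, mul_one_div_cancel hε.ne', ← sq_abs w.re]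
        nlinarith [sq_nonneg (ε * |w.re| - 1)]
      exact le_of_mul_le_mul_left h1 hε
    have e4 : ‖w - z‖ ≤ (2 + ‖z‖ + 1 / ε) * Real.exp (ε / 2 * w.re ^ 2) := by
      have h1 := norm_sub_le w z
      have h2 := norm_le_abs_re_add_abs_im w
      have h3 : (1 + ‖z‖ + 1 / ε) * 1 ≤ (1 + ‖z‖ + 1 / ε) * Real.exp (ε / 2 * w.re ^ 2) :=
        mul_le_mul_of_nonneg_left e1 (by positivity)
      linarith
    have e5 : Real.exp (ε * w.re ^ 2) =
        Real.exp (ε / 2 * w.re ^ 2) * Real.exp (ε / 2 * w.re ^ 2) := by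
      rw [← Real.exp_add]
      congr 1
      ring
    rw [pz_cons, norm_mul, e5]
    refine (mul_le_mul e4 (hC w hw) (norm_nonneg _) (by positivity)).trans (le_of_eq ?_)
    ring

theorem st_diff {F : ℂ → ℂ} (hF : Differentiable ℂ F) : Differentiable ℂ (st F) := fun z => by
  have h := (hF ((starRingEnd ℂ) z)).conj_conj
  rw [Complex.conj_conj] at h
  exact h

theorem dec_quot {A : Multiset ℂ} {a : ℝ} {Φ Ψ : ℂ → ℂ} (hΨ : Continuous Ψ)
    (h : ∀ z, Φ z = pz A (z + a) * Ψ z) (hd : Dec Φ) : Dec Ψ := by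
  obtain ⟨M, hM⟩ := hd
  obtain ⟨R, h0, hR⟩ := pz_big A
  have hc : Continuous fun z : ℂ => ‖Ψ z‖ * Real.exp (z.re ^ 2 / 3) := by fun_prop
  obtain ⟨B, hB⟩ := (isCompact_closedBall (0 : ℂ) (R + |a| + 1)).bddAbove_image hc.continuousOn
  refine ⟨max M B, fun z hz => ?_⟩
  have hp := Real.exp_pos (-z.re ^ 2 / 3)
  rcases le_total (R + |a|) |z.re| with h1 | h1
  · have h2 : 1 ≤ ‖pz A (z + a)‖ := hR _ (by
      have := abs_sub_abs_le_abs_add z.re a
      simp only [add_re, ofReal_re]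
      linarith)
    have h3 := hM z hz
    rw [h, norm_mul] at h3
    have h4 := mul_le_mul_of_nonneg_right h2 (norm_nonneg (Ψ z))
    have h5 := mul_le_mul_of_nonneg_right (le_max_left M B) hp.le
    linarith
  · have h2 : ‖Ψ z‖ * Real.exp (z.re ^ 2 / 3) ≤ B := hB ⟨z, by
      rw [mem_closedBall_zero_iff]
      linarith [norm_le_abs_re_add_abs_im z], rfl⟩
    have h3 := mul_le_mul_of_nonneg_right (h2.trans (le_max_right M B)) hp.le
    rwa [mul_assoc, ← Real.exp_add, show z.re ^ 2 / 3 + -z.re ^ 2 / 3 = 0 by ring, Real.exp_zero,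
      mul_one] at h3

theorem conj_line (H : ℂ → ℂ) (hs : ∀ z, (starRingEnd ℂ) (H z) = H ((starRingEnd ℂ) z)) (c x : ℝ) :
    (starRingEnd ℂ) (H (x + (-c : ℝ) * I)) = H (x + c * I) := by
  rw [hs]
  congr 1
  simp

theorem im_shift {H : ℂ → ℂ} {M c : ℝ} (hc : 0 < c) (hH : Differentiable ℂ H)
    (hs : ∀ z, (starRingEnd ℂ) (H z) = H ((starRingEnd ℂ) z))
    (hb : ∀ z : ℂ, -c ≤ z.im → z.im ≤ c → ‖H z‖ ≤ M * Real.exp (-(z.re - 0) ^ 2 / 2)) :
    (∫ x : ℝ, H (x + (-c : ℝ) * I)).im = 0 := by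
  have h := H91.shift H (-c) c M 0 (by linarith) hH.differentiableOn hb
  rw [← conj_eq_iff_im, ← integral_conj, h]
  exact integral_congr_ae (Eventually.of_forall fun x => conj_line H hs c x)

theorem im_pole {H : ℂ → ℂ} {M c : ℝ} (v : ℝ) (hc : 0 < c) (hH : Differentiable ℂ H)
    (hs : ∀ z, (starRingEnd ℂ) (H z) = H ((starRingEnd ℂ) z))
    (hb : ∀ z : ℂ, -c ≤ z.im → z.im ≤ c → ‖H z‖ ≤ M * Real.exp (-(z.re - 0) ^ 2 / 2)) :
    (∫ x : ℝ, H (x + (-c : ℝ) * I) / (x + (-c : ℝ) * I - v)).im = Real.pi * (H v).re := by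
  have h := H91.pole H (-c) c M 0 v (by simpa using hc) (by simpa using hc) hH.differentiableOn hb
  have e : (∫ x : ℝ, H (x + c * I) / (x + c * I - v)) =
      (starRingEnd ℂ) (∫ x : ℝ, H (x + (-c : ℝ) * I) / (x + (-c : ℝ) * I - v)) := by
    rw [← integral_conj]
    refine integral_congr_ae (Eventually.of_forall fun x => ?_)
    beta_reduce
    rw [map_div₀, conj_line H hs c x]
    congr 1
    simp
  rw [e] at h
  have h2 := congrArg im h
  simp only [sub_im, conj_im, mul_im, mul_re, re_ofNat, ofReal_re, im_ofNat, ofReal_im, I_re,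
    I_im] at h2
  linarith

theorem int_pole {H : ℂ → ℂ} {M c : ℝ} (v : ℝ) (hc : 0 < c) (hH : Differentiable ℂ H)
    (hb : ∀ z : ℂ, -c ≤ z.im → z.im ≤ c → ‖H z‖ ≤ M * Real.exp (-(z.re - 0) ^ 2 / 2)) :
    Integrable fun x : ℝ => H (x + (-c : ℝ) * I) / (x + (-c : ℝ) * I - v) := by
  have a2 : ∀ x : ℝ, c ≤ ‖(x : ℂ) + (-c : ℝ) * I - v‖ := fun x => by
    have := abs_im_le_norm ((x : ℂ) + (-c : ℝ) * I - v)
    simpa [abs_of_pos hc] using this
  have hcont : Continuous fun x : ℝ => H (x + (-c : ℝ) * I) := hH.continuous.comp (by fun_prop)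
  refine H91.gauss_int (hcont.div (by fun_prop) fun x => norm_pos_iff.mp (hc.trans_le (a2 x)))
    (M := M / c) (t := 0) fun x => ?_
  have a1 := hb (x + (-c : ℝ) * I) (by simp) (by simpa using hc.le)
  have a3 : ((x : ℂ) + (-c : ℝ) * I).re = x := by simp
  rw [a3] at a1
  rw [norm_div, div_mul_eq_mul_div]
  exact div_le_div₀ ((norm_nonneg _).trans a1) a1 hc (a2 x)

theorem same_sign {A : Multiset ℂ} (hA : A.map (starRingEnd ℂ) = A) {x y : ℝ} (hxy : x ≤ y)
    (h : ∀ t : ℝ, x < t → t < y → (t : ℂ) ∉ A) : 0 ≤ (pz A x).re * (pz A y).re := by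
  have hre : ∀ t : ℝ, x < t → t < y → (pz A t).re ≠ 0 := fun t h1 h2 h3 => by
    refine pz_ne (h t h1 h2) (Complex.ext h3 ?_)
    rw [zero_im, ← conj_eq_iff_im, pz_conj, hA, conj_ofReal]
  have hc : ContinuousOn (fun t : ℝ => (pz A t).re) (Set.Icc x y) :=
    (continuous_re.comp ((pz_diff A).continuous.comp continuous_ofReal)).continuousOn
  by_contra hcon
  rcases mul_neg_iff.mp (not_le.mp hcon) with ⟨h1, h2⟩ | ⟨h1, h2⟩
  · obtain ⟨t, ht, h0⟩ := intermediate_value_Ioo' hxy hc ⟨h2, h1⟩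
    exact hre t ht.1 ht.2 h0
  · obtain ⟨t, ht, h0⟩ := intermediate_value_Ioo hxy hc ⟨h1, h2⟩
    exact hre t ht.1 ht.2 h0

theorem fin_conj (G : Finset ℝ) :
    (G.val.map fun u : ℝ => (u : ℂ)).map (starRingEnd ℂ) = G.val.map fun u : ℝ => (u : ℂ) := by
  rw [Multiset.map_map]
  exact Multiset.map_congr rfl fun u _ => conj_ofReal u

theorem sign {B : Multiset ℂ} (hB : B.map (starRingEnd ℂ) = B) {G : Finset ℝ} {a u : ℝ} (ha : 0 < a)
    (hu : u ∈ G) (h : ∀ t : ℝ, u - a < t → t < u → (t : ℂ) ∉ B + G.val.map fun u : ℝ => (u : ℂ))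
    (w : ℂ) : (pd G u)⁻¹ * (pz (B + G.val.map fun u : ℝ => (u : ℂ)) (u - a : ℝ) *
      (pz B u * (w * (starRingEnd ℂ) w))).re ≤ 0 := by
  set A := B + (G.erase u).val.map fun u : ℝ => (u : ℂ) with hA
  have hAs : A.map (starRingEnd ℂ) = A := by rw [hA, Multiset.map_add, hB, fin_conj]
  have h1 := same_sign hAs (x := u - a) (y := u) (by linarith) fun t t1 t2 t3 => h t t1 t2 (by
    rw [hA, Multiset.mem_add] at t3
    rw [Multiset.mem_add]
    refine t3.imp_right fun t4 => ?_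
    obtain ⟨s, hs, e⟩ := Multiset.mem_map.mp t4
    exact Multiset.mem_map.mpr ⟨s, Finset.mem_of_mem_erase hs, e⟩)
  have e1 : pz (B + G.val.map fun u : ℝ => (u : ℂ)) (u - a : ℝ) = (-a : ℝ) * pz A (u - a : ℝ) := by
    rw [hA, pz_add, pz_add, pz_fin, pz_fin, ← Finset.mul_prod_erase G _ hu]
    push_cast
    ring
  have e2 : pz A u = pz B u * (pd G u : ℝ) := by
    rw [hA, pz_add, pz_fin, pd]
    push_cast
    rfl
  have r1 : (pz A (u - a : ℝ)).im = 0 := by rw [← conj_eq_iff_im, pz_conj, hAs, conj_ofReal]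
  have r2 : (pz B u).im = 0 := by rw [← conj_eq_iff_im, pz_conj, hB, conj_ofReal]
  rw [e2, re_mul_ofReal] at h1
  rw [e1, mul_conj]
  simp only [mul_re, mul_im, ofReal_re, ofReal_im, r1, r2, mul_zero, zero_mul, sub_zero, add_zero]
  have h2 := mul_nonneg (mul_nonneg h1 (sq_nonneg (pd G u)⁻¹)) (mul_nonneg ha.le (normSq_nonneg w))
  rcases eq_or_ne (pd G u) 0 with h0 | h0
  · rw [h0, inv_zero, zero_mul]
  · have e3 : (pd G u)⁻¹ * (-a * (pz A (u - a : ℝ)).re * ((pz B u).re * normSq w)) =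
        -((pz A (u - a : ℝ)).re * ((pz B u).re * pd G u) * (pd G u)⁻¹ ^ 2 * (a * normSq w)) := by
      field_simp
    rw [e3]
    linarith

end Res

open Res

theorem res : ResStmt := by
  intro Z G a c Φ Ψ ha hc hc1 hZ him hG hΨ hΦ hd
  have hle : (G.val.map fun u : ℝ => (u : ℂ)) ≤ Z := by
    rw [Multiset.le_iff_subset (G.nodup.map ofReal_injective)]
    intro z hz
    obtain ⟨u, hu, rfl⟩ := Multiset.mem_map.mp hz
    exact Multiset.count_pos.mp (by rw [(hG u hu).1]; exact one_pos)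
  obtain ⟨B, rfl⟩ : ∃ B, Z = B + G.val.map fun u : ℝ => (u : ℂ) :=
    ⟨_, (tsub_add_cancel_of_le hle).symm⟩
  rw [add_tsub_cancel_right] at hΦ
  have hB : B.map (starRingEnd ℂ) = B := by
    rw [Multiset.map_add, fin_conj] at hZ
    exact add_right_cancel hZ
  set Z := B + G.val.map fun u : ℝ => (u : ℂ) with hZd
  have hc0 : 0 < c := by linarith
  have hq : ∀ z : ℂ, (starRingEnd ℂ) (pz B (z + a)) = pz B ((starRingEnd ℂ) z + a) := fun z => by
    rw [pz_conj, hB, map_add, conj_ofReal]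
  have hst : ∀ z, st Φ z = pz B (z + a) * st Ψ z := fun z => by
    rw [st, st, hΦ, map_mul, hq, Complex.conj_conj]
  set H : ℂ → ℂ := fun z => pz Z z * (pz B (z + a) * (Ψ z * st Ψ z)) with hH
  have hHd : Differentiable ℂ H :=
    (pz_diff Z).mul (((pz_diff B).comp (differentiable_id.add_const _)).mul (hΨ.mul (st_diff hΨ)))
  have hs : ∀ z, (starRingEnd ℂ) (H z) = H ((starRingEnd ℂ) z) := fun z => by
    simp only [hH, map_mul, hq, st, Complex.conj_conj]
    rw [pz_conj, hZ]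
    ring
  obtain ⟨M, hb⟩ : ∃ M : ℝ, ∀ z : ℂ, -c ≤ z.im → z.im ≤ c →
      ‖H z‖ ≤ M * Real.exp (-(z.re - 0) ^ 2 / 2) := by
    obtain ⟨M₁, h1⟩ := dec_quot hΨ.continuous hΦ hd
    obtain ⟨M₂, h2⟩ := hd
    obtain ⟨C, h0, h3⟩ := pz_grow Z (1 / 6) (by norm_num)
    refine ⟨C * (M₁ * M₂), fun z z1 z2 => ?_⟩
    have hz : |z.im| ≤ 1 := abs_le.mpr ⟨by linarith, by linarith⟩
    have a1 := h1 z hz
    have a2 := h2 ((starRingEnd ℂ) z) (by rwa [conj_im, abs_neg])
    rw [conj_re] at a2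
    have e : H z = pz Z z * (Ψ z * st Φ z) := by
      rw [hst]
      simp only [hH]
      ring
    rw [e, norm_mul, norm_mul, st, norm_conj]
    refine (mul_le_mul (h3 z hz) (mul_le_mul a1 a2 (norm_nonneg _) ((norm_nonneg _).trans a1))
      (by positivity) (by positivity)).trans (le_of_eq ?_)
    have e2 : Real.exp (-(z.re - 0) ^ 2 / 2) = Real.exp (1 / 6 * z.re ^ 2) *
        (Real.exp (-z.re ^ 2 / 3) * Real.exp (-z.re ^ 2 / 3)) := by
      rw [← Real.exp_add, ← Real.exp_add]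
      congr 1
      ring
    rw [e2]
    ring
  have hl : ∀ x : ℝ, (x : ℂ) - c * I = x + (-c : ℝ) * I := fun x => by
    push_cast
    ring
  have hne : ∀ (x : ℝ), ∀ u ∈ G, (x : ℂ) + (-c : ℝ) * I + a - u ≠ 0 := fun x u _ h => by
    have := congrArg im h
    simp at this
    linarith
  have hF : ∀ x : ℝ, vq Z a (x - c * I) * (Φ (x - c * I) * st Φ (x - c * I)) =
      H (x + (-c : ℝ) * I) * (∏ u ∈ G, ((x : ℂ) + (-c : ℝ) * I + a - u))⁻¹ := fun x => by
    have n1 : pz B ((x : ℂ) + (-c : ℝ) * I + a) ≠ 0 := pz_ne fun h => by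
      have := him _ (Multiset.mem_add.mpr (Or.inl h))
      simp [abs_of_pos hc0] at this
      linarith
    have n2 := Finset.prod_ne_zero_iff.mpr (hne x)
    have e : pz Z ((x : ℂ) + (-c : ℝ) * I + a) = pz B ((x : ℂ) + (-c : ℝ) * I + a) *
        ∏ u ∈ G, ((x : ℂ) + (-c : ℝ) * I + a - u) := by rw [hZd, pz_add, pz_fin]
    rw [hl, vq, e, hst, hΦ]
    simp only [hH]
    field_simp
  simp only [hF]
  rcases G.eq_empty_or_nonempty with rfl | hne'
  · simp only [Finset.prod_empty, inv_one, mul_one]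
    exact (im_shift hc0 hHd hs hb).le
  have hF2 : ∀ x : ℝ, H (x + (-c : ℝ) * I) * (∏ u ∈ G, ((x : ℂ) + (-c : ℝ) * I + a - u))⁻¹ =
      ∑ u ∈ G, ((pd G u)⁻¹ : ℝ) *
        (H (x + (-c : ℝ) * I) / (x + (-c : ℝ) * I - (u - a : ℝ))) := fun x => by
    rw [Residue.inv_prod_eq_sum G hne' _ (hne x), Finset.mul_sum]
    refine Finset.sum_congr rfl fun u _ => ?_
    rw [show (x : ℂ) + (-c : ℝ) * I - (u - a : ℝ) = x + (-c : ℝ) * I + a - u by push_cast; ring,
      div_eq_mul_inv, ofReal_inv]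
    ring
  simp only [hF2]
  rw [integral_finsetSum _ fun u _ => (int_pole (u - a) hc0 hHd hb).const_mul _, im_sum]
  refine Finset.sum_nonpos fun u hu => ?_
  rw [integral_const_mul, im_ofReal_mul, im_pole (u - a) hc0 hHd hs hb, mul_left_comm]
  refine mul_nonpos_of_nonneg_of_nonpos Real.pi_pos.le ?_
  have h := sign hB ha hu (hG u hu).2 (Ψ (u - a : ℝ))
  have e : H (u - a : ℝ) = pz Z (u - a : ℝ) *
      (pz B u * (Ψ (u - a : ℝ) * (starRingEnd ℂ) (Ψ (u - a : ℝ)))) := by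
    simp only [hH, st, conj_ofReal]
    rw [show ((u - a : ℝ) : ℂ) + a = u by push_cast; ring]
  rw [e]
  exact h

end Pool.Agent.MP_ca0a54_nt.H13
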