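import Pool.Agent.MP_ca0a54_nt.H10.QB

/-!
A positive proportion of small gaps between zeta zeros: definitions and the statements of the steps.
`L` always means `Real.log T`, `a = ab / L` is the shift.
-/

open Complex MeasureTheory Filter Topology

namespace Pool.Agent.MP_ca0a54_nt.H13

open Pool.Agent.MP_ca0a54_nt.L0 Pool.Agent.MP_ca0a54_nt.H24

/-- `∏ (w - z)` over a multiset. -/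
noncomputable def pz (Z : Multiset ℂ) (w : ℂ) : ℂ := (Z.map fun z => w - z).prod

/-- `p(w) / p(w + a)`. -/
noncomputable def vq (Z : Multiset ℂ) (a : ℝ) (w : ℂ) : ℂ := pz Z w / pz Z (w + a)

/-- The reflected function `conj F (conj z)`. -/
noncomputable def st (F : ℂ → ℂ) (z : ℂ) : ℂ := (starRingEnd ℂ) (F ((starRingEnd ℂ) z))

/-- The Gabor function with centre `t` and frequency `ξ`. -/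
noncomputable def gb (t ξ : ℝ) (z : ℂ) : ℂ := exp (I * ξ * z - (z - t) ^ 2 / 2)

/-- The disc of radius `T / 16` about `3 T / 2`. -/
def dsc (T : ℝ) : Set ℂ := Metric.ball ((3 * T / 2 : ℝ) : ℂ) (T / 16)

/-- Gaussian decay in the strip `|im z| ≤ 1`. -/
def Dec (F : ℂ → ℂ) : Prop :=
  ∃ M : ℝ, ∀ z : ℂ, |z.im| ≤ 1 → ‖F z‖ ≤ M * Real.exp (-z.re ^ 2 / 3)

/-- Factorization of `zf` over all zeros, with multiplicity, in a window. -/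
structure FacM (C T : ℝ) (Z : Multiset ℂ) (h : ℂ → ℂ) : Prop where
  cnt : ∀ z : ℂ, Z.count z =
    if |z.re - 3 * T / 2| ≤ T / 8 then analyticOrderNatAt riemannZeta (1 / 2 + I * z) else 0
  sym : Z.map (starRingEnd ℂ) = Z
  im : ∀ z ∈ Z, |z.im| ≤ 1 / 2
  card : (Z.card : ℝ) ≤ C * T * Real.log T
  diff : DifferentiableOn ℂ h (dsc T)
  fac : ∀ w ∈ dsc T, zf w = pz Z w * exp (h w)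
  d1 : ∀ w ∈ dsc T, ‖deriv h w‖ ≤ C * Real.log T
  d2 : ∀ w ∈ dsc T, ∀ w' ∈ dsc T, ‖deriv h w - deriv h w'‖ ≤ C * Real.log T / T * ‖w - w'‖
  ph : ∀ x : ℝ, |x - 3 * T / 2| ≤ T / 20 → |(deriv h x).im + Real.log T / 2| ≤ C

/-- The points of `G` are simple real points of `Z` with no real point of `Z` in `(u - a, u)`. -/
def Good (Z : Multiset ℂ) (a : ℝ) (G : Finset ℝ) : Prop :=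
  ∀ u ∈ G, Z.count (u : ℂ) = 1 ∧ ∀ x : ℝ, u - a < x → x < u → (x : ℂ) ∉ Z

/-- `γ` lists the ordinates of the zeros in the upper half plane, with multiplicity. -/
def Enum (γ : ℕ → ℝ) : Prop := Monotone γ ∧ ∀ x : ℝ, {n | γ n = x}.encard =
  ((∑ᶠ ρ ∈ {ρ : ℂ | 0 < ρ.im ∧ ρ.im = x}, analyticOrderNatAt riemannZeta ρ : ℕ) : ℕ∞)

/-- The elementary symmetric function. -/
noncomputable def es (k : ℕ) (S : Finset ℕ) (x : ℕ → ℂ) : ℂ :=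
  ∑ A ∈ S.powersetCard k, ∏ p ∈ A, x p

/-- The sum over pairs `B ⊆ A ⊆ S` with `|B| = l`, `|A| = m`. -/
noncomputable def s2 (l m : ℕ) (S : Finset ℕ) (g h : ℕ → ℂ) : ℂ :=
  ∑ A ∈ S.powersetCard m, ∑ B ∈ A.powersetCard l, (∏ p ∈ A \ B, g p) * ∏ p ∈ B, h p

/-- The limit of `s2`. -/
noncomputable def wk (γ σ : ℂ) (l m : ℕ) : ℂ :=
  if l ≤ m then γ ^ (m - l) * σ ^ l / ((m - l).factorial * l.factorial : ℕ) else 0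

/-- The coefficients of `∑ k, ρ k * ∏ j, es (ν k j) (S j) (c j p * p ^ (-s))`. -/
noncomputable def rr {J m : ℕ} (S : Fin J → Finset ℕ) (c : Fin J → ℕ → ℂ) (ν : Fin m → Fin J → ℕ)
    (ρ : Fin m → ℂ) (n : ℕ) : ℂ :=
  ∑ k, ∑ A ∈ Fintype.piFinset fun j => (S j).powersetCard (ν k j),
    if ∏ j, ∏ p ∈ A j, p = n then ρ k * ∏ j, ∏ p ∈ A j, c j p else 0

/-- The correlation coefficient of the box `(α, β]`. -/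
noncomputable def bet (ab α β : ℝ) : ℝ :=
  4 / ab * (Real.cos (ab * α / 2) - Real.cos (ab * β / 2)) / √((β ^ 2 - α ^ 2) / 2)

/-! ### Rows FAC, LINE, COUNT -/

def FacStmt : Prop := ∃ C : ℝ, 1 ≤ C ∧ ∀ᶠ T : ℝ in atTop, ∃ (Z : Multiset ℂ) (h : ℂ → ℂ), FacM C T Z h

def LinStmt : Prop := ∀ C ε : ℝ, 1 ≤ C → 0 < ε → ε ≤ 1 / 2 → ∃ C' : ℝ, 1 ≤ C' ∧
  ∀ᶠ T : ℝ in atTop, ∀ (a : ℝ) (Z : Multiset ℂ) (h : ℂ → ℂ), 0 < a → a ≤ 4 / Real.log T →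
  FacM C T Z h → H10.Bd (vq Z a) (-(1 / 2 + ε / 8)) (-(1 / 2 + ε / 8)) ∧
  ∀ t : ℝ, |t - 3 * T / 2| ≤ T / 20 → ∃ ϑ : ℂ, 1 / C' ≤ ‖ϑ‖ ∧ ‖ϑ‖ ≤ C' ∧
    ‖ϑ - ‖ϑ‖ * exp (-I * (a * Real.log T / 2 : ℝ))‖ ≤ C' / Real.log T ∧
    ∀ z : ℂ, z.im = -(1 / 2 + ε / 8) → ‖vq Z a z - ϑ * Bq a z‖ ≤
      C' / T * (1 + ‖Bq a z‖) * Real.exp ((z.re - t) ^ 2 / 8)

def CountStmt : Prop := ∀ (γ : ℕ → ℝ) (C T a δ : ℝ) (Z : Multiset ℂ) (h : ℂ → ℂ), Enum γ →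
  FacM C T Z h → 0 < a → a ≤ δ → a ≤ T / 4 → ∃ G : Finset ℝ, Good Z a G ∧
  (Z.card : ℝ) - G.card ≤ 2 * ({n | T ≤ γ n ∧ γ (n + 1) ≤ 2 * T ∧ γ (n + 1) - γ n < δ}.ncard : ℝ)

/-! ### Rows QB, RES, NEG -/

def QbStmt : Prop := ∀ ε : ℝ, 0 < ε → ε ≤ 1 / 2 → ∀ᶠ T : ℝ in atTop,
  ∀ (N N₂ : ℕ) (t t' ξ ξ' : ℝ) (V : ℂ → ℂ) (d r : ℕ → ℂ), 1 ≤ N → (N : ℝ) ≤ T ^ (1 - ε) →
  Real.log N + ε * Real.log T / 2 ≤ Real.log N₂ → |ξ - ξ'| ≤ ε * Real.log T / 4 →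
  (∀ n, ‖r n‖ ≤ 1) → (∀ n : ℕ, ‖d n‖ ≤ Real.log T ^ 2 * Real.exp (ε / 16 * Real.log n)) →
  H10.Bd V (-(1 / 2 + ε / 8)) (-(1 / 2 + ε / 8)) →
  (∀ z : ℂ, z.im = -(1 / 2 + ε / 8) → ‖V z - LSeries d (1 / 2 + I * z)‖ ≤
    Real.log T ^ 3 / T * Real.exp ((z.re - t) ^ 2 / 8)) →
  ‖(∫ x : ℝ, V (x - (1 / 2 + ε / 8 : ℝ) * I) *
      ((fun z => dp r N z * gb t ξ z) (x - (1 / 2 + ε / 8 : ℝ) * I) *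
        st (fun z => dp r N z * gb t' ξ' z) (x - (1 / 2 + ε / 8 : ℝ) * I))) -
    ∫ x : ℝ, dp (cv d (cut r N)) N₂ x * (starRingEnd ℂ) (dp r N x) *
      (gb t ξ x * (starRingEnd ℂ) (gb t' ξ' x))‖ ≤
    T ^ (-(ε / 2)) * Real.exp (-(t - t') ^ 2 / 8)

def ResStmt : Prop := ∀ (Z : Multiset ℂ) (G : Finset ℝ) (a c : ℝ) (Φ Ψ : ℂ → ℂ), 0 < a →
  1 / 2 < c → c ≤ 1 → Z.map (starRingEnd ℂ) = Z → (∀ z ∈ Z, |z.im| ≤ 1 / 2) → Good Z a G →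
  Differentiable ℂ Ψ → (∀ z, Φ z = pz (Z - G.val.map fun u : ℝ => (u : ℂ)) (z + a) * Ψ z) → Dec Φ →
  (∫ x : ℝ, vq Z a (x - c * I) * (Φ (x - c * I) * st Φ (x - c * I))).im ≤ 0

def SubStmt : Prop := ∀ (ι : Type) [Fintype ι] (φ : ι → ℂ → ℂ) (V : Multiset ℂ),
  (∀ i, Differentiable ℂ (φ i)) → ∃ W : Submodule ℂ (ι → ℂ),
  Fintype.card ι ≤ Module.finrank ℂ W + V.card ∧ ∀ c ∈ W, ∃ Ψ : ℂ → ℂ, Differentiable ℂ Ψ ∧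
    ∀ z, ∑ i, c i * φ i z = pz V z * Ψ z

def NegStmt : Prop := ∀ (ι : Type) [Fintype ι] (φ : ι → ℂ → ℂ) (Z : Multiset ℂ) (G : Finset ℝ)
  (a c : ℝ), 0 < a → 1 / 2 < c → c ≤ 1 → Z.map (starRingEnd ℂ) = Z → (∀ z ∈ Z, |z.im| ≤ 1 / 2) →
  Good Z a G → H10.Bd (vq Z a) (-c) (-c) → (∀ i, Differentiable ℂ (φ i)) → (∀ i, Dec (φ i)) →
  ∃ (W : Submodule ℂ (ι → ℂ)) (n : ℕ), (n : ℝ) = Z.card - G.card ∧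
    Fintype.card ι ≤ Module.finrank ℂ W + n ∧ ∀ v ∈ W,
    (∑ i, ∑ i', v i * (starRingEnd ℂ) (v i') *
      ∫ x : ℝ, vq Z a (x - c * I) * (φ i (x - c * I) * st (φ i') (x - c * I))).im ≤ 0

/-! ### Rows INERT, GAB, KEY, AVG -/

def InertStmt : Prop := ∀ (ι : Type) [Fintype ι] (A : ι → ι → ℂ) (W : Submodule ℂ (ι → ℂ)) (n : ℕ),
  Fintype.card ι ≤ Module.finrank ℂ W + n →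
  (∀ v ∈ W, (∑ i, ∑ i', v i * (starRingEnd ℂ) (v i') * A i i').im ≤ 0) →
  ∃ (m : ℕ) (e : Fin m → ι → ℂ), m ≤ n ∧ m ≤ Fintype.card ι ∧ (∀ k, ∑ i, ‖e k i‖ ^ 2 = 1) ∧
    (∀ v : ι → ℂ, ∑ k, ‖∑ i, e k i * v i‖ ^ 2 ≤ ∑ i, ‖v i‖ ^ 2) ∧
    (∑ i, A i i).im ≤ ∑ k, (∑ i, ∑ i', e k i * (starRingEnd ℂ) (e k i') * A i i').im

def GabStmt : Prop := ∃ B : ℝ, 1 ≤ B ∧
  (∀ (D : ℕ) (j : Fin D), ∑ j' : Fin D, Real.exp (-((j : ℝ) - j') ^ 2 / 8) ≤ B) ∧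
  ∀ (D₁ D₂ : ℕ) (τ : ℝ) (v : Fin D₂ × Fin D₁ → ℂ),
    ∫ x : ℝ, ‖∑ i, v i * gb (τ + i.1) i.2 x‖ ^ 2 ≤ B * ∑ i, ‖v i‖ ^ 2

def KeyStmt : Prop := ∃ B : ℝ, 1 ≤ B ∧ ∀ (D₁ D₂ n : ℕ) (τ C δ lam Λ M : ℝ) (ϑ : Fin D₂ → ℂ)
  (A : Fin D₂ × Fin D₁ → Fin D₂ × Fin D₁ → ℂ) (P R : ℝ → ℂ) (U : ℝ → ℝ)
  (W : Submodule ℂ (Fin D₂ × Fin D₁ → ℂ)), 1 ≤ C → 0 ≤ δ → 0 < lam → 0 ≤ Λ →
  (∀ j, 1 / C ≤ ‖ϑ j‖ ∧ ‖ϑ j‖ ≤ C) → Continuous P → Continuous R → Continuous U →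
  (∀ x, ‖P x‖ ≤ M ∧ ‖R x‖ ≤ M ∧ 0 ≤ U x ∧ U x ≤ M ∧ ‖R x‖ ^ 2 ≤ Λ + U x) →
  (∀ i i', ‖A i i' - ϑ i.1 * ∫ x : ℝ, P x * (starRingEnd ℂ) (R x) *
    (gb (τ + i.1) i.2 x * (starRingEnd ℂ) (gb (τ + i'.1) i'.2 x))‖ ≤
      δ * Real.exp (-((i.1 : ℝ) - i'.1) ^ 2 / 8)) →
  D₂ * D₁ ≤ Module.finrank ℂ W + n →
  (∀ v ∈ W, (∑ i, ∑ i', v i * (starRingEnd ℂ) (v i') * A i i').im ≤ 0) →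
  D₁ * ∑ j : Fin D₂, ∫ x : ℝ, ((ϑ j / ‖ϑ j‖ * (P (τ + j + x) * (starRingEnd ℂ) (R (τ + j + x)))).im -
      lam * ‖P (τ + j + x)‖ ^ 2 - B * C ^ 2 / lam * U (τ + j + x)) * Real.exp (-x ^ 2) ≤
    B * C * (D₂ * D₁ * (D₁ + 1) * δ) + B * C ^ 2 / lam * Λ * n

def AvgStmt : Prop := ∀ (H : ℝ → ℝ) (M t₀ m : ℝ) (D : ℕ), Continuous H → (∀ x, |H x| ≤ M) →
  0 ≤ m → (∀ x : ℝ, m ≤ ∫ s in (t₀ + x)..(t₀ + D + x), H s) →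
  ∃ τ : ℝ, t₀ ≤ τ ∧ τ ≤ t₀ + 1 ∧ m ≤ ∑ j : Fin D, ∫ x : ℝ, H (τ + j + x) * Real.exp (-x ^ 2)

/-! ### Rows ES, REP, MOM, PRIME, CERT, ARITH -/

def EsStmt : Prop :=
  (∀ (k : ℕ) (M : ℝ), ∃ C : ℝ, 0 ≤ C ∧ ∀ (S : Finset ℕ) (x : ℕ → ℂ), (∀ p ∈ S, ‖x p‖ ≤ M) →
    ∑ p ∈ S, ‖x p‖ ^ 2 ≤ M → ‖es k S x‖ ≤ C * max 1 ‖∑ p ∈ S, x p‖ ^ k) ∧
  ∀ (l m : ℕ) (S : ℝ → Finset ℕ) (g h : ℝ → ℕ → ℂ) (γ σ : ℂ) (M : ℝ),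
    Tendsto (fun T => ∑ p ∈ S T, g T p) atTop (𝓝 γ) →
    Tendsto (fun T => ∑ p ∈ S T, h T p) atTop (𝓝 σ) →
    (∀ᶠ T : ℝ in atTop, ∑ p ∈ S T, (‖g T p‖ + ‖h T p‖) ≤ M) →
    (∀ δ : ℝ, 0 < δ → ∀ᶠ T : ℝ in atTop, ∀ p ∈ S T, ‖g T p‖ ≤ δ ∧ ‖h T p‖ ≤ δ) →
    Tendsto (fun T => s2 l m (S T) (g T) (h T)) atTop (𝓝 (wk γ σ l m))

def RepStmt : Prop := ∀ (J m N : ℕ) (S : Fin J → Finset ℕ) (c : Fin J → ℕ → ℂ)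
  (ν : Fin m → Fin J → ℕ) (ρ : Fin m → ℂ), (∀ j, ∀ p ∈ S j, p.Prime) →
  (∀ j j', j ≠ j' → Disjoint (S j) (S j')) →
  (∀ k, ∀ A ∈ Fintype.piFinset fun j => (S j).powersetCard (ν k j), ∏ j, ∏ p ∈ A j, p ≤ N) →
  (∀ w : ℂ, dp (rr S c ν ρ) N w =
    ∑ k, ρ k * ∏ j, es (ν k j) (S j) fun p => c j p * np (1 / 2 + I * w) p) ∧
  (∀ M : ℝ, 0 ≤ M → (∀ j, ∀ p ∈ S j, ‖c j p‖ ≤ M) →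
    ∀ n, ‖rr S c ν ρ n‖ ≤ ∑ k, ‖ρ k‖ * M ^ ∑ j, ν k j) ∧
  ∀ b : ℕ → ℂ, b 1 = 1 → (∀ u v : ℕ, u.Coprime v → b (u * v) = b u * b v) →
    ∑ n ∈ Finset.Icc 1 N, cv b (cut (rr S c ν ρ) N) n * (starRingEnd ℂ) (rr S c ν ρ n) / n =
      ∑ k, ∑ k', ρ k * (starRingEnd ℂ) (ρ k') * ∏ j, s2 (ν k j) (ν k' j) (S j)
        (fun p => b p * (starRingEnd ℂ) (c j p) / p) fun p => c j p * (starRingEnd ℂ) (c j p) / p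

def MomStmt : Prop := ∀ (J : ℕ) (i : Fin J → ℕ) (M : ℝ), ∃ C : ℝ, 1 ≤ C ∧
  ∀ (S : Fin J → Finset ℕ) (x : Fin J → ℕ → ℂ) (Y : Fin J → ℝ) (N : ℕ),
  (∀ j, ∀ p ∈ S j, p.Prime ∧ (p : ℝ) ≤ Y j ∧ ‖x j p‖ ≤ M) → (∀ j, 1 ≤ Y j) →
  (∀ j, ∑ p ∈ S j, ‖x j p‖ ^ 2 / p ≤ M) → ⌊∏ j, Y j ^ i j⌋₊ ≤ N →
  ∃ c : ℕ → ℂ, (∀ n, ‖c n‖ ≤ C) ∧ ∑ n ∈ Finset.Icc 1 N, ‖c n‖ ^ 2 / n ≤ C ∧
    ∀ w : ℂ, ∏ j, ds (x j) (S j) w ^ i j = dp c N w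

def PrimeStmt : Prop := ∀ (α β : ℝ) (φ : ℝ → ℝ), 0 ≤ α → α ≤ β → Continuous φ →
  Tendsto (fun T : ℝ => ∑ p ∈ pr T α β,
    Real.log p / p / Real.log T * φ (Real.log p / Real.log T)) atTop (𝓝 (∫ v in α..β, φ v))

def CertStmt (ab : ℝ) : Prop := ∃ (J m : ℕ) (α : ℕ → ℝ) (ε : ℝ) (ν : Fin m → Fin J → ℕ)
  (ρ : Fin m → ℂ), 0 < ε ∧ ε ≤ 1 / 2 ∧ α 0 = 0 ∧ (∀ j, j < J → α j < α (j + 1)) ∧ α J ≤ 1 ∧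
  (∀ k, ∑ j : Fin J, ν k j * α (j + 1) ≤ 1 - ε) ∧
  (∀ k, ∃ (q : ℕ) (i : Fin q → Fin J → ℕ), (∀ s, ∑ j : Fin J, i s j * α (j + 1) ≤ 1 - ε) ∧
    ∀ j, (q + 1) * ν k j ≤ ∑ s, i s j) ∧
  0 < (exp (-I * (ab / 2 : ℝ)) * ∑ k, ∑ k', ρ k * (starRingEnd ℂ) (ρ k') *
    ∏ j : Fin J, wk (bet ab (α j) (α (j + 1))) 1 (ν k j) (ν k' j)).im

def ArithStmt (ab : ℝ) : Prop := ∃ (ε c₀ C : ℝ) (m : ℕ), 0 < ε ∧ ε ≤ 1 / 2 ∧ 0 < c₀ ∧ 1 ≤ C ∧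
  ∀ η : ℝ, 0 < η → ∃ Λ : ℝ, 0 ≤ Λ ∧ ∀ᶠ T : ℝ in atTop, ∃ (r : ℕ → ℂ) (c : Fin m → ℕ → ℂ),
  (∀ n, ‖r n‖ ≤ 1) ∧
  c₀ ≤ (exp (-I * (ab / 2 : ℝ)) * ∑ n ∈ Finset.Icc 1 ⌊T ^ (1 - ε)⌋₊,
    cv (rc 0 (I * (ab / Real.log T : ℝ))) (cut r ⌊T ^ (1 - ε)⌋₊) n * (starRingEnd ℂ) (r n) / n).im ∧
  ∑ n ∈ Finset.Icc 1 ⌊T ^ (1 - ε)⌋₊, ‖r n‖ ^ 2 / n ≤ C ∧ (∀ i n, ‖c i n‖ ≤ C) ∧
  (∀ i, ∑ n ∈ Finset.Icc 1 ⌊T ^ (1 - ε)⌋₊, ‖c i n‖ ^ 2 / n ≤ C) ∧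
  ∀ x : ℝ, ‖dp r ⌊T ^ (1 - ε)⌋₊ x‖ ^ 2 ≤ Λ + η * ∑ i, ‖dp (c i) ⌊T ^ (1 - ε)⌋₊ x‖ ^ 2

/-! ### The core statement -/

def CoreStmt (ab : ℝ) : Prop := ∀ C : ℝ, 1 ≤ C → ∃ c : ℝ, 0 < c ∧ ∀ᶠ T : ℝ in atTop,
  ∀ (Z : Multiset ℂ) (h : ℂ → ℂ) (G : Finset ℝ), FacM C T Z h → Good Z (ab / Real.log T) G →
  c * T * Real.log T ≤ (Z.card : ℝ) - G.card

end Pool.Agent.MP_ca0a54_nt.H13
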